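import Mathlib

set_option autoImplicit false

/-!
# A finite presentation, and the subgroups generated by short conjugates of its relators

`F` is the free group on eight letters `a₁, a₂, t, u₁, u₂, v₁, v₂, s` and `R` a finite set of
relators.  `K m` is the subgroup generated by the conjugates `g r g⁻¹` with `r ∈ R` and `g` of length
at most `m`; `Sh m` is the set of elements which are short modulo `K m`.
-/

namespace Pool.Agent.MP6f2db1

/-- The free group on eight letters. -/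
abbrev F := FreeGroup (Fin 8)

/-- the letter `a₁` -/
def a1 : F := FreeGroup.of 0
/-- the letter `a₂` -/
def a2 : F := FreeGroup.of 1
/-- the letter `t` -/
def tt : F := FreeGroup.of 2
/-- the letter `u₁` -/
def u1 : F := FreeGroup.of 3
/-- the letter `u₂` -/
def u2 : F := FreeGroup.of 4
/-- the letter `v₁` -/
def v1 : F := FreeGroup.of 5
/-- the letter `v₂` -/
def v2 : F := FreeGroup.of 6
/-- the letter `s` -/
def ss : F := FreeGroup.of 7

/-- commutator `x y x⁻¹ y⁻¹` -/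
def cm {G : Type*} [Group G] (x y : G) : G := x * y * x⁻¹ * y⁻¹

/-- The relators. -/
def R : Finset F :=
  {cm a1 a2,
   tt * a1 * tt⁻¹ * (a1 * a1)⁻¹,
   tt * a2 * tt⁻¹ * (a2 * a2)⁻¹,
   cm a1 u2, cm a1 v2, cm a2 u1, cm a2 v1,
   cm u1 u2, cm u1 v2, cm v1 u2, cm v1 v2,
   cm (a1 * a2) ss, cm ss u2, cm ss v1,
   ss * u1 * ss⁻¹ * (u1 * u2)⁻¹,
   ss * v2 * ss⁻¹ * (v2 * v1⁻¹)⁻¹,
   a2⁻¹ * u2 * a2 * (u2 * u2)⁻¹,
   a1 * v1 * a1⁻¹ * (v1 * v1)⁻¹,
   cm u1 v1}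

/-- The subgroup generated by the conjugates of relators by elements of length at most `m`. -/
def K (m : ℕ) : Subgroup F :=
  Subgroup.closure {x | ∃ g r : F, g.norm ≤ m ∧ r ∈ R ∧ x = g * r * g⁻¹}

theorem K_mono {m m' : ℕ} (h : m ≤ m') : K m ≤ K m' := by
  apply Subgroup.closure_mono
  rintro x ⟨g, r, hg, hr, rfl⟩
  exact ⟨g, r, hg.trans h, hr, rfl⟩

theorem K_rel {m : ℕ} {g r : F} (hg : g.norm ≤ m) (hr : r ∈ R) : g * r * g⁻¹ ∈ K m :=
  Subgroup.subset_closure ⟨g, r, hg, hr, rfl⟩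

theorem K_rel' {m : ℕ} {r : F} (hr : r ∈ R) : r ∈ K m := by
  have := K_rel (m := m) (g := 1) (by simp) hr
  simpa using this

theorem K_conj {m i : ℕ} {g x : F} (hx : x ∈ K m) (hg : g.norm ≤ i) : g * x * g⁻¹ ∈ K (m + i) := by
  induction hx using Subgroup.closure_induction with
  | mem x h =>
    obtain ⟨g', r, hg', hr, rfl⟩ := h
    have : g * (g' * r * g'⁻¹) * g⁻¹ = (g * g') * r * (g * g')⁻¹ := by group
    rw [this]
    refine K_rel ?_ hr
    exact (FreeGroup.norm_mul_le _ _).trans (by omega)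
  | one => simp
  | mul x y _ _ hx hy =>
    have : g * (x * y) * g⁻¹ = (g * x * g⁻¹) * (g * y * g⁻¹) := by group
    rw [this]
    exact mul_mem hx hy
  | inv x _ hx =>
    have : g * x⁻¹ * g⁻¹ = (g * x * g⁻¹)⁻¹ := by group
    rw [this]
    exact inv_mem hx

/-- Elements of length at most `m` modulo `K m`. -/
def Sh (m : ℕ) : Set F := {w | ∃ x ∈ K m, ∃ g : F, g.norm ≤ m ∧ w = x * g}

theorem Sh_mono {m m' : ℕ} (h : m ≤ m') : Sh m ⊆ Sh m' := by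
  rintro w ⟨x, hx, g, hg, rfl⟩
  exact ⟨x, K_mono h hx, g, hg.trans h, rfl⟩

theorem Sh_of_norm {m : ℕ} {g : F} (hg : g.norm ≤ m) : g ∈ Sh m :=
  ⟨1, one_mem _, g, hg, (one_mul g).symm⟩

theorem Sh_of_K {m : ℕ} {x : F} (hx : x ∈ K m) : x ∈ Sh m :=
  ⟨x, hx, 1, by simp, (mul_one x).symm⟩

theorem one_mem_Sh {m : ℕ} : (1 : F) ∈ Sh m := Sh_of_K (one_mem _)

/-- Conjugation by a short element. -/
theorem K_conj' {m m' : ℕ} {x w : F} (hx : x ∈ K m) (hw : w ∈ Sh m') :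
    w * x * w⁻¹ ∈ K (m + m') := by
  obtain ⟨y, hy, g, hg, rfl⟩ := hw
  have : y * g * x * (y * g)⁻¹ = y * (g * x * g⁻¹) * y⁻¹ := by group
  rw [this]
  have hy' := K_mono (Nat.le_add_left m' m) hy
  exact mul_mem (mul_mem hy' (K_conj hx hg)) (inv_mem hy')

theorem Sh_mul {m m' : ℕ} {w w' : F} (hw : w ∈ Sh m) (hw' : w' ∈ Sh m') :
    w * w' ∈ Sh (m + m') := by
  obtain ⟨x, hx, g, hg, rfl⟩ := hw
  obtain ⟨x', hx', g', hg', rfl⟩ := hw'
  refine ⟨x * (g * x' * g⁻¹), mul_mem (K_mono (Nat.le_add_right m m') hx) ?_, g * g',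
    (FreeGroup.norm_mul_le _ _).trans (by omega), by group⟩
  have := K_conj hx' hg
  rwa [add_comm] at this

theorem Sh_inv {m : ℕ} {w : F} (hw : w ∈ Sh m) : w⁻¹ ∈ Sh (2 * m) := by
  obtain ⟨x, hx, g, hg, rfl⟩ := hw
  have hg' : (g⁻¹).norm ≤ m := by rwa [FreeGroup.norm_inv_eq]
  refine ⟨g⁻¹ * x⁻¹ * (g⁻¹)⁻¹, ?_, g⁻¹, by omega, by group⟩
  have := K_conj (inv_mem hx) hg'
  rwa [← two_mul] at this

/-- Equality modulo `K m`. -/
def Eqv (m : ℕ) (x y : F) : Prop := x * y⁻¹ ∈ K m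

theorem Eqv.refl {m : ℕ} (x : F) : Eqv m x x := by simp [Eqv, one_mem]

theorem Eqv.of_eq {m : ℕ} {x y : F} (h : x = y) : Eqv m x y := h ▸ Eqv.refl x

theorem Eqv.symm {m : ℕ} {x y : F} (h : Eqv m x y) : Eqv m y x := by
  have := inv_mem h
  rwa [mul_inv_rev, inv_inv] at this

theorem Eqv.trans {m : ℕ} {x y z : F} (h : Eqv m x y) (h' : Eqv m y z) : Eqv m x z := by
  have := mul_mem h h'
  have h2 : x * y⁻¹ * (y * z⁻¹) = x * z⁻¹ := by group
  rwa [h2] at this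

theorem Eqv.mono {m m' : ℕ} (hm : m ≤ m') {x y : F} (h : Eqv m x y) : Eqv m' x y := K_mono hm h

theorem Eqv.mul_right {m : ℕ} {x y : F} (h : Eqv m x y) (z : F) : Eqv m (x * z) (y * z) := by
  have h2 : x * z * (y * z)⁻¹ = x * y⁻¹ := by group
  rw [Eqv, h2]
  exact h

theorem Eqv.mul_left {m m' : ℕ} {x y w : F} (h : Eqv m x y) (hw : w ∈ Sh m') :
    Eqv (m + m') (w * x) (w * y) := by
  have h2 : w * x * (w * y)⁻¹ = w * (x * y⁻¹) * w⁻¹ := by group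
  rw [Eqv, h2]
  exact K_conj' h hw

theorem Eqv.mem_K {m : ℕ} {x y : F} (h : Eqv m x y) (hy : y ∈ K m) : x ∈ K m := by
  have := mul_mem h hy
  rwa [inv_mul_cancel_right] at this

theorem Eqv.mem_Sh {m m' : ℕ} {x y : F} (h : Eqv m x y) (hy : y ∈ Sh m') (hm : m ≤ m') :
    x ∈ Sh m' := by
  obtain ⟨k, hk, g, hg, rfl⟩ := hy
  refine ⟨(x * (k * g)⁻¹) * k, mul_mem (K_mono hm h) hk, g, hg, by group⟩

theorem K_le_normalClosure (m : ℕ) : K m ≤ Subgroup.normalClosure (R : Set F) := by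
  rw [K, Subgroup.closure_le]
  rintro x ⟨g, r, _, hr, rfl⟩
  exact Subgroup.normalClosure_normal.conj_mem _ (Subgroup.subset_normalClosure hr) g

/-! ## Powers of `a₁`, `a₂` -/

/-- The letters doubled by `t`. -/
def Dbl (x : F) : Prop := x.norm ≤ 1 ∧ tt * x * tt⁻¹ * (x * x)⁻¹ ∈ R

theorem dbl_a1 : Dbl a1 := ⟨by simp [a1], by simp [R]⟩
theorem dbl_a2 : Dbl a2 := ⟨by simp [a2], by simp [R]⟩

theorem norm_tt : tt.norm = 1 := by simp [tt]

theorem tconj_Sh {m : ℕ} {x : F} (hx : x ∈ Sh m) : tt * x * tt⁻¹ ∈ Sh (m + 2) := by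
  obtain ⟨k, hk, g, hg, rfl⟩ := hx
  refine ⟨tt * k * tt⁻¹, ?_, tt * g * tt⁻¹, ?_, by group⟩
  · exact K_mono (by omega) (K_conj hk norm_tt.le)
  · refine (FreeGroup.norm_mul_le _ _).trans ?_
    have := FreeGroup.norm_mul_le tt g
    rw [FreeGroup.norm_inv_eq]
    have := norm_tt
    omega

/-- If all powers `x^j` with `|j| ≤ q` are short, then `t x^q t⁻¹ = x^(2q)` by short relators. -/
theorem tconj_pow_nat {x : F} (hx : Dbl x) {m : ℕ} (q : ℕ)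
    (h : ∀ j : ℕ, j ≤ q → x ^ j ∈ Sh m) :
    Eqv (m + 2) (tt * x ^ q * tt⁻¹) (x ^ (2 * q)) := by
  induction q with
  | zero => simp [Eqv, one_mem]
  | succ q ih =>
    have h1 := ih fun j hj => h j (by omega)
    have h2 : tt * x ^ (q + 1) * tt⁻¹ = (tt * x ^ q * tt⁻¹) * (tt * x * tt⁻¹) := by
      rw [pow_succ]
      group
    have h3 : x ^ (2 * (q + 1)) = x ^ (2 * q) * (x * x) := by
      rw [mul_add, mul_one, pow_add, pow_two]
    rw [h2, h3]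
    refine Eqv.trans ?_ (h1.mul_right _)
    have h4 : Eqv 0 (tt * x * tt⁻¹) (x * x) := K_rel' hx.2
    have h5 := h4.mul_left (tconj_Sh (h q (by omega)))
    rwa [zero_add] at h5

theorem Eqv.inv_of {m m' : ℕ} {x y : F} (h : Eqv m x y) (hy : y⁻¹ ∈ Sh m') :
    Eqv (m + m') x⁻¹ y⁻¹ := by
  have h2 : x⁻¹ * (y⁻¹)⁻¹ = y⁻¹ * (x * y⁻¹)⁻¹ * (y⁻¹)⁻¹ := by group
  rw [Eqv, h2]
  exact K_conj' (inv_mem h) hy

end Pool.Agent.MP6f2db1
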