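import Pool.Agent.Lib.MP_6f2db1_al.Facts3

set_option autoImplicit false

/-!
# Blocks of tokens
-/

namespace Pool.Agent.MP6f2db1

/-- The product of a list of signed values of `f`. -/
def Wd {G : Type*} [Group G] (f : ℤ → G) (L : List (ℤ × Bool)) : G :=
  (L.map fun x => sg x.2 (f x.1)).prod

section Wd

variable {G : Type*} [Group G] (f : ℤ → G)

@[simp] theorem Wd_nil : Wd f [] = 1 := rfl

theorem Wd_cons (x : ℤ × Bool) (L : List (ℤ × Bool)) : Wd f (x :: L) = sg x.2 (f x.1) * Wd f L := by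
  simp [Wd]

theorem Wd_append (L L' : List (ℤ × Bool)) : Wd f (L ++ L') = Wd f L * Wd f L' := by
  simp [Wd]

theorem Wd_single (x : ℤ × Bool) : Wd f [x] = sg x.2 (f x.1) := by
  simp [Wd]

theorem map_sg {H : Type*} [Group H] (φ : G →* H) (ε : Bool) (x : G) :
    φ (sg ε x) = sg ε (φ x) := by
  cases ε <;> simp [sg]

theorem map_Wd {H : Type*} [Group H] (φ : G →* H) (L : List (ℤ × Bool)) :
    φ (Wd f L) = Wd (fun k => φ (f k)) L := by
  induction L with
  | nil => simp
  | cons x L ih => rw [Wd_cons, Wd_cons, map_mul, map_sg, ih]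

theorem Wd_eq_lift (L : List (ℤ × Bool)) : Wd f L = FreeGroup.lift f (FreeGroup.mk L) := by
  rw [FreeGroup.lift_mk, Wd]
  rfl

end Wd

/-- A block of tokens of kind `κ`. -/
abbrev W (κ : Kd) (L : List (ℤ × Bool)) : F := Wd (tok κ) L

/-- The exponents are bounded. -/
def Rg (b : ℤ) (L : List (ℤ × Bool)) : Prop := ∀ x ∈ L, |x.1| ≤ b

theorem Rg.mono {b b' : ℤ} (h : b ≤ b') {L : List (ℤ × Bool)} (hL : Rg b L) : Rg b' L :=
  fun x hx => (hL x hx).trans h

theorem Rg.cons {b : ℤ} {x : ℤ × Bool} {L : List (ℤ × Bool)} :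
    Rg b (x :: L) ↔ |x.1| ≤ b ∧ Rg b L := by
  simp [Rg]

theorem Rg.append {b : ℤ} {L L' : List (ℤ × Bool)} :
    Rg b (L ++ L') ↔ Rg b L ∧ Rg b L' := by
  simp only [Rg, List.mem_append]
  constructor
  · exact fun h => ⟨fun x hx => h x (Or.inl hx), fun x hx => h x (Or.inr hx)⟩
  · rintro ⟨h1, h2⟩ x (hx | hx)
    · exact h1 x hx
    · exact h2 x hx

theorem Rg.nil {b : ℤ} : Rg b [] := by simp [Rg]

section

variable {m : ℕ} {B : ℤ} (hF : Facts m B)

include hF

theorem W_Sh (κ : Kd) (L : List (ℤ × Bool)) (hL : Rg B L) : W κ L ∈ Sh (L.length * m) := by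
  induction L with
  | nil => exact one_mem_Sh
  | cons x L ih =>
    rw [Rg.cons] at hL
    rw [W, Wd_cons, List.length_cons]
    exact Sh_mono (by rw [add_mul]; omega) (Sh_mul (hF.sh κ x.1 x.2 hL.1) (ih hL.2))

/-- A token passes a block that it commutes with. -/
theorem W_comm (κ κ' : Kd) (h : cmm κ κ' = true) (L : List (ℤ × Bool)) (hL : Rg B L)
    (l : ℤ) (δ : Bool) (hl : |l| ≤ B) :
    Eqv (L.length * m) (W κ L * sg δ (tok κ' l)) (sg δ (tok κ' l) * W κ L) := by
  induction L with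
  | nil => exact Eqv.of_eq (by simp)
  | cons x L ih =>
    rw [Rg.cons] at hL
    rw [W, Wd_cons, List.length_cons, mul_assoc, ← mul_assoc (sg δ _)]
    have h1 := (ih hL.2).mul_left (hF.sh κ x.1 x.2 hL.1)
    have h2 := (hF.comm κ κ' x.1 l x.2 δ h hL.1 hl).mul_right (W κ L)
    rw [mul_assoc] at h2
    exact (h1.mono (by rw [add_mul]; omega)).trans (h2.mono (by rw [add_mul]; omega))

/-- Two commuting blocks. -/
theorem W_comm2 (κ κ' : Kd) (h : cmm κ κ' = true) (A L : List (ℤ × Bool)) (hA : Rg B A)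
    (hL : Rg B L) : Eqv ((A.length + L.length) * m) (W κ A * W κ' L) (W κ' L * W κ A) := by
  induction L with
  | nil => exact Eqv.of_eq (by simp)
  | cons x L ih =>
    rw [Rg.cons] at hL
    have h1 := (W_comm hF κ κ' h A hA x.1 x.2 hL.1).mul_right (W κ' L)
    have h2 := (ih hL.2).mul_left (hF.sh κ' x.1 x.2 hL.1)
    have e1 : W κ A * W κ' (x :: L) = W κ A * sg x.2 (tok κ' x.1) * W κ' L := by
      rw [W, W, Wd_cons, mul_assoc]
    have e2 : W κ' (x :: L) * W κ A = sg x.2 (tok κ' x.1) * (W κ' L * W κ A) := by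
      rw [W, W, Wd_cons, mul_assoc]
    have e3 : sg x.2 (tok κ' x.1) * W κ A * W κ' L = sg x.2 (tok κ' x.1) * (W κ A * W κ' L) := by
      rw [mul_assoc]
    rw [e1, e2, List.length_cons]
    rw [e3] at h1
    refine (h1.mono ?_).trans (h2.mono ?_)
    · exact Nat.mul_le_mul_right _ (by omega)
    · have : (A.length + (L.length + 1)) * m = (A.length + L.length) * m + m := by ring
      omega

/-- A token passes a block, creating a block. -/
theorem W_exch (κ κ' κ'' : Kd) (l : ℤ) (δ : Bool) (hl : |l| ≤ B) (θ : ℤ → ℤ) (σ : Bool → Bool)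
    (hx : ∀ k ε, |k| ≤ B → Eqv m (sg ε (tok κ k) * sg δ (tok κ' l))
      (sg δ (tok κ' l) * sg ε (tok κ k) * sg (σ ε) (tok κ'' (θ k))))
    (hc : cmm κ κ'' = true) (L : List (ℤ × Bool)) (hL : Rg B L)
    (hL' : ∀ x ∈ L, |θ x.1| ≤ B) :
    Eqv ((L.length + 1) * m) (W κ L * sg δ (tok κ' l))
      (sg δ (tok κ' l) * W κ L * W κ'' (L.map fun x => (θ x.1, σ x.2))) := by
  induction L with
  | nil => exact Eqv.of_eq (by simp)
  | cons x L ih =>
    rw [Rg.cons] at hL
    have hθ : |θ x.1| ≤ B := hL' x List.mem_cons_self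
    set X := sg δ (tok κ' l) with hX
    set y := sg x.2 (tok κ x.1) with hy
    set g := sg (σ x.2) (tok κ'' (θ x.1)) with hg
    set L' := L.map fun x => (θ x.1, σ x.2) with hLL
    have hys : y ∈ Sh m := hF.sh κ x.1 x.2 hL.1
    have hXs : X ∈ Sh m := hF.sh κ' l δ hl
    have h1 := (ih hL.2 fun z hz => hL' z (List.mem_cons_of_mem _ hz)).mul_left hys
    have h2 := (hx x.1 x.2 hL.1).mul_right (W κ L * W κ'' L')
    have h3 := ((W_comm hF κ κ'' hc L hL.2 (θ x.1) (σ x.2) hθ).symm.mul_right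
      (W κ'' L')).mul_left (Sh_mul hXs hys)
    have e1 : W κ (x :: L) * X = y * (W κ L * X) := by rw [W, Wd_cons, mul_assoc]
    have e2 : X * W κ (x :: L) * W κ'' ((x :: L).map fun x => (θ x.1, σ x.2)) =
        X * y * (W κ L * g * W κ'' L') := by
      rw [List.map_cons, W, W, Wd_cons, Wd_cons]
      simp only [mul_assoc, y, g, L']
    have e3 : y * (X * W κ L * W κ'' L') = y * X * (W κ L * W κ'' L') := by
      simp only [mul_assoc]
    have e4 : X * y * g * (W κ L * W κ'' L') = X * y * (g * W κ L * W κ'' L') := by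
      simp only [mul_assoc]
    rw [e1, e2, List.length_cons]
    rw [e3] at h1
    refine (h1.mono ?_).trans ((h2.mono ?_).trans ?_)
    · have : (L.length + 1 + 1) * m = (L.length + 1) * m + m := by ring
      omega
    · exact Nat.le_mul_of_pos_left _ (by omega)
    · refine (Eqv.of_eq e4).trans (h3.mono ?_)
      have : (L.length + 1 + 1) * m = L.length * m + (m + m) := by ring
      omega

end

/-- Rewriting inside a product. -/
theorem Eqv.ctx {M a b : ℕ} {x y P Q l r : F} (h : Eqv a x y) (hP : P ∈ Sh b) (hM : a + b ≤ M)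
    (hl : l = P * x * Q) (hr : r = P * y * Q) : Eqv M l r := by
  rw [hl, hr]
  exact ((h.mul_left hP).mul_right Q).mono hM

end Pool.Agent.MP6f2db1
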