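import Pool.Agent.Lib.MP_6f2db1_al.Germ

set_option autoImplicit false

/-!
# The local facts, uniformly in exponentially large exponents
-/

namespace Pool.Agent.MP6f2db1

/-- The kinds of tokens. -/
inductive Kd | S | U1 | V2 | V1 | U2 | C
  deriving DecidableEq, Fintype

/-- signed element -/
def sg {G : Type*} [Group G] (ε : Bool) (x : G) : G := cond ε x x⁻¹

/-- tokens -/
def tU1 (k : ℤ) : F := (a1 ^ k)⁻¹ * u1 * a1 ^ k
/-- tokens -/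
def tU2 (k : ℤ) : F := (a2 ^ k)⁻¹ * u2 * a2 ^ k
/-- tokens -/
def tV1 (k : ℤ) : F := (a1 ^ k)⁻¹ * v1 * a1 ^ k
/-- tokens -/
def tV2 (k : ℤ) : F := (a2 ^ k)⁻¹ * v2 * a2 ^ k
/-- tokens -/
def tS (k : ℤ) : F := (a1 ^ k)⁻¹ * ss * a1 ^ k
/-- tokens -/
def tC (k : ℤ) : F := tU1 k * v1 * (tU1 k)⁻¹ * v1⁻¹

/-- The token of kind `κ` with exponent `k`. -/
def tok (κ : Kd) (k : ℤ) : F :=
  match κ with
  | .S => tS k
  | .U1 => tU1 k
  | .V2 => tV2 k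
  | .V1 => tV1 k
  | .U2 => tU2 k
  | .C => tC k

/-- Pairs of kinds that commute. -/
def cmm (κ κ' : Kd) : Bool :=
  match κ, κ' with
  | .C, _ => true
  | .U2, .V1 => true
  | .U2, .U1 => true
  | .U2, .S => true
  | .U2, .U2 => true
  | .V1, .V2 => true
  | .V1, .S => true
  | .V1, .V1 => true
  | .V1, .U2 => true
  | .V2, .U1 => true
  | .V2, .V1 => true
  | .U1, .U2 => true
  | _, .C => true
  | _, _ => false

/-- All the local facts, modulo `K m`, for exponents of absolute value at most `B`. -/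
structure Facts (m : ℕ) (B : ℤ) : Prop where
  sh : ∀ κ k ε, |k| ≤ B → sg ε (tok κ k) ∈ Sh m
  shA : ∀ k l : ℤ, |k| ≤ B → |l| ≤ B → a1 ^ k * a2 ^ l ∈ Sh m
  comm : ∀ κ κ' k l ε δ, cmm κ κ' = true → |k| ≤ B → |l| ≤ B →
    Eqv m (sg ε (tok κ k) * sg δ (tok κ' l)) (sg δ (tok κ' l) * sg ε (tok κ k))
  xV2S : ∀ k l ε δ, |k| ≤ B → |l| ≤ B →
    Eqv m (sg ε (tok .V2 k) * sg δ (tok .S l))
      (sg δ (tok .S l) * sg ε (tok .V2 k) * sg (ε == δ) (tok .V1 (k + l)))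
  xU1S : ∀ k l ε δ, |k| ≤ B → |l| ≤ B →
    Eqv m (sg ε (tok .U1 k) * sg δ (tok .S l))
      (sg δ (tok .S l) * sg ε (tok .U1 k) * sg (ε != δ) (tok .U2 (k - l)))
  xV1U1 : ∀ k l ε δ, |k| ≤ B → |l| ≤ B →
    Eqv m (sg ε (tok .V1 k) * sg δ (tok .U1 l))
      (sg δ (tok .U1 l) * sg ε (tok .V1 k) * sg (ε != δ) (tok .C (l - k)))
  xU2V2 : ∀ k l ε δ, |k| ≤ B → |l| ≤ B →
    Eqv m (sg ε (tok .U2 k) * sg δ (tok .V2 l))
      (sg δ (tok .V2 l) * sg ε (tok .U2 k) * sg (ε == δ) (tok .C (k - l)))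
  dU2 : ∀ k ε, |k| ≤ B → Eqv m (sg ε (tok .U2 k) * sg ε (tok .U2 k)) (sg ε (tok .U2 (k + 1)))
  dV1 : ∀ k ε, |k| ≤ B → Eqv m (sg ε (tok .V1 (k + 1)) * sg ε (tok .V1 (k + 1))) (sg ε (tok .V1 k))
  dC : ∀ k ε, |k| ≤ B → Eqv m (sg ε (tok .C k) * sg ε (tok .C k)) (sg ε (tok .C (k + 1)))
  c0 : tok .C 0 ∈ K m
  mv1 : ∀ k l ε, |k| ≤ B → |l| ≤ B →
    Eqv m (a1 ^ k * a2 ^ l * sg ε u1) (sg ε (tok .U1 (-k)) * (a1 ^ k * a2 ^ l))
  mv2 : ∀ k l ε, |k| ≤ B → |l| ≤ B →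
    Eqv m (a1 ^ k * a2 ^ l * sg ε u2) (sg ε (tok .U2 (-l)) * (a1 ^ k * a2 ^ l))
  mv3 : ∀ k l ε, |k| ≤ B → |l| ≤ B →
    Eqv m (a1 ^ k * a2 ^ l * sg ε v1) (sg ε (tok .V1 (-k)) * (a1 ^ k * a2 ^ l))
  mv4 : ∀ k l ε, |k| ≤ B → |l| ≤ B →
    Eqv m (a1 ^ k * a2 ^ l * sg ε v2) (sg ε (tok .V2 (-l)) * (a1 ^ k * a2 ^ l))
  mv5 : ∀ k l ε, |k| ≤ B → |l| ≤ B →
    Eqv m (a1 ^ k * a2 ^ l * sg ε ss) (sg ε (tok .S (l - k)) * (a1 ^ k * a2 ^ l))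
  mulA : ∀ k l k' l', |k| ≤ B → |l| ≤ B → |k'| ≤ B → |l'| ≤ B →
    Eqv m (a1 ^ k * a2 ^ l * (a1 ^ k' * a2 ^ l')) (a1 ^ (k + k') * a2 ^ (l + l'))
  tA : ∀ k l, |k| ≤ B → |l| ≤ B →
    Eqv m (tt * (a1 ^ k * a2 ^ l) * tt⁻¹) (a1 ^ (2 * k) * a2 ^ (2 * l))
  tA' : ∀ k l, |k| ≤ B → |l| ≤ B →
    Eqv m (tt⁻¹ * (a1 ^ (2 * k) * a2 ^ (2 * l)) * tt) (a1 ^ k * a2 ^ l)

/-! ### signs -/

theorem sg_inv {G : Type*} [Group G] (ε : Bool) (x : G) : sg ε x⁻¹ = sg (!ε) x := by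
  cases ε <;> simp [sg]

theorem sg_not {G : Type*} [Group G] (ε : Bool) (x : G) : sg (!ε) x = (sg ε x)⁻¹ := by
  cases ε <;> simp [sg]

theorem comm_sg {G : Type*} [Group G] {x y : G} (h : Commute x y) (ε δ : Bool) :
    sg ε x * sg δ y = sg δ y * sg ε x := by
  cases ε <;> cases δ
  · exact h.inv_inv.eq
  · exact h.inv_left.eq
  · exact h.inv_right.eq
  · exact h.eq

theorem exch_sg {G : Type*} [Group G] {x y w : G} (h : x * y = y * x * w) (hx : Commute w x)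
    (hy : Commute w y) (ε δ : Bool) : sg ε x * sg δ y = sg δ y * sg ε x * sg (ε == δ) w := by
  have hx' := hx.eq
  have hy' := hy.eq
  have hix := hx.inv_left.eq
  have hiy := hy.inv_left.eq
  cases ε <;> cases δ
  · -- x⁻¹ y⁻¹ = y⁻¹ x⁻¹ w
    show x⁻¹ * y⁻¹ = y⁻¹ * x⁻¹ * w
    have h1 : y * x = x * y * w⁻¹ := by rw [h]; group
    have h2 : w⁻¹ * (y * x) = (y * x) * w⁻¹ := by
      calc w⁻¹ * (y * x) = (w⁻¹ * y) * x := by group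
        _ = y * (w⁻¹ * x) := by rw [hiy]; group
        _ = (y * x) * w⁻¹ := by rw [hix]; group
    have h3 : x * y = w * (y * x) := by
      rw [h]
      calc y * x * w = w * (w⁻¹ * (y * x)) * w := by group
        _ = w * (y * x) := by rw [h2]; group
    calc x⁻¹ * y⁻¹ = (y * x)⁻¹ := by group
      _ = (x * y)⁻¹ * w := by
        rw [h]
        calc (y * x)⁻¹ = (y * x * w)⁻¹ * ((y * x) * w * (y * x)⁻¹) := by group
          _ = (y * x * w)⁻¹ * w := by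
            rw [← h, h3]
            group
      _ = y⁻¹ * x⁻¹ * w := by group
  · show x⁻¹ * y = y * x⁻¹ * w⁻¹
    calc x⁻¹ * y = x⁻¹ * (y * x * w) * w⁻¹ * x⁻¹ := by group
      _ = y * (w⁻¹ * x⁻¹) := by rw [← h]; group
      _ = y * x⁻¹ * w⁻¹ := by
        rw [hx.inv_inv.eq]
        group
  · show x * y⁻¹ = y⁻¹ * x * w⁻¹
    calc x * y⁻¹ = y⁻¹ * (y * x * w) * (w⁻¹ * y⁻¹) := by group
      _ = y⁻¹ * (x * y) * (y⁻¹ * w⁻¹) := by rw [← h, hy.inv_inv.eq]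
      _ = y⁻¹ * x * w⁻¹ := by group
  · exact h

theorem exch_sg' {G : Type*} [Group G] {x y w : G} (h : x * y = y * x * w⁻¹) (hx : Commute w x)
    (hy : Commute w y) (ε δ : Bool) : sg ε x * sg δ y = sg δ y * sg ε x * sg (ε != δ) w := by
  rw [exch_sg h hx.inv_left hy.inv_left, sg_inv]
  congr 2

/-! ### parameter space -/

/-- Two integer parameters bounded by `2^L`. -/
abbrev Par := {p : ℕ × ℤ × ℤ // |p.2.1| ≤ 2 ^ p.1 ∧ |p.2.2| ≤ 2 ^ p.1}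

/-- The size. -/
def szP (p : Par) : ℕ := p.1.1

/-- first parameter -/
def pk : Bd szP := ⟨fun p => p.1.2.1, 1, fun p => p.2.1.trans
  (pow_le_pow_right₀ (by norm_num) (by rw [one_mul]; exact Nat.le_succ _))⟩

/-- second parameter -/
def pl : Bd szP := ⟨fun p => p.1.2.2, 1, fun p => p.2.2.trans
  (pow_le_pow_right₀ (by norm_num) (by rw [one_mul]; exact Nat.le_succ _))⟩

/-- the system -/
abbrev SP : Sys (Gm szP) (Bd szP) := sysGm szP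

/-- tokens in the system -/
def Tk {ι : Type*} {sz : ι → ℕ} (κ : Kd) (k : Bd sz) : Gm sz :=
  match κ with
  | .S => (sysGm sz).T k
  | .U1 => (sysGm sz).U1 k
  | .V2 => (sysGm sz).V2 k
  | .V1 => (sysGm sz).V1 k
  | .U2 => (sysGm sz).U2 k
  | .C => (sysGm sz).c k

theorem tok_mem_Pg {ι : Type*} {sz : ι → ℕ} (κ : Kd) (k : Bd sz) :
    (fun i => tok κ (k.1 i)) ∈ Pg sz := by
  have h1 : ∀ x : F, (fun i => (a1 ^ (k.1 i))⁻¹ * x * a1 ^ (k.1 i)) ∈ Pg sz := fun x =>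
    mul_mem (mul_mem (inv_mem (zpow_mem_Pg dbl_a1 k)) (const_mem_Pg x)) (zpow_mem_Pg dbl_a1 k)
  have h2 : ∀ x : F, (fun i => (a2 ^ (k.1 i))⁻¹ * x * a2 ^ (k.1 i)) ∈ Pg sz := fun x =>
    mul_mem (mul_mem (inv_mem (zpow_mem_Pg dbl_a2 k)) (const_mem_Pg x)) (zpow_mem_Pg dbl_a2 k)
  cases κ
  · exact h1 ss
  · exact h1 u1
  · exact h2 v2
  · exact h1 v1
  · exact h2 u2
  · exact mul_mem (mul_mem (mul_mem (h1 u1) (const_mem_Pg v1)) (inv_mem (h1 u1)))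
      (inv_mem (const_mem_Pg v1))

theorem Tk_eq {ι : Type*} {sz : ι → ℕ} (κ : Kd) (k : Bd sz) :
    Tk κ k = QuotientGroup.mk ⟨fun i => tok κ (k.1 i), tok_mem_Pg κ k⟩ := by
  cases κ <;> rfl

theorem sg_mk {ι : Type*} {sz : ι → ℕ} (ε : Bool) (w : Pg sz) :
    sg ε (QuotientGroup.mk w : Gm sz) = QuotientGroup.mk (sg ε w) := by
  cases ε <;> rfl

theorem sg_apply {ι : Type*} {sz : ι → ℕ} (ε : Bool) (w : Pg sz) (i : ι) :
    (sg ε w).1 i = sg ε (w.1 i) := by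
  cases ε <;> rfl

end Pool.Agent.MP6f2db1
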