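import Pool.Agent.Lib.MP_6f2db1_al.Facts

set_option autoImplicit false

/-!
# Existence of the local facts
-/

namespace Pool.Agent.MP6f2db1

/-- Uniform equality of two-parameter words. -/
def Unif (x y : ℤ → ℤ → F) : Prop :=
  ∃ C : ℕ, ∀ (L : ℕ) (k l : ℤ), |k| ≤ 2 ^ L → |l| ≤ 2 ^ L → Eqv (C * (L + 1)) (x k l) (y k l)

/-- Uniform membership of two-parameter words. -/
def USh (x : ℤ → ℤ → F) : Prop :=
  ∃ C : ℕ, ∀ (L : ℕ) (k l : ℤ), |k| ≤ 2 ^ L → |l| ≤ 2 ^ L → x k l ∈ Sh (C * (L + 1))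

/-- family attached to a two-parameter word -/
def fam (x : ℤ → ℤ → F) : Par → F := fun p => x p.1.2.1 p.1.2.2

theorem unif_of {x y : ℤ → ℤ → F} (hx : fam x ∈ Pg szP) (hy : fam y ∈ Pg szP)
    (h : (QuotientGroup.mk ⟨fam x, hx⟩ : Gm szP) = QuotientGroup.mk ⟨fam y, hy⟩) : Unif x y := by
  obtain ⟨C, hC⟩ := (mk_eq_iff _ _).1 h
  exact ⟨C, fun L k l hk hl => hC ⟨(L, k, l), hk, hl⟩⟩

theorem ush_of {x : ℤ → ℤ → F} (hx : fam x ∈ Pg szP) : USh x := by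
  obtain ⟨C, hC⟩ := hx
  exact ⟨C, fun L k l hk hl => hC ⟨(L, k, l), hk, hl⟩⟩

theorem fam_tok1 (κ : Kd) : fam (fun k _ => tok κ k) ∈ Pg szP := tok_mem_Pg κ pk
theorem fam_tok2 (κ : Kd) : fam (fun _ l => tok κ l) ∈ Pg szP := tok_mem_Pg κ pl

theorem fam_sg {x : ℤ → ℤ → F} (h : fam x ∈ Pg szP) (ε : Bool) :
    fam (fun k l => sg ε (x k l)) ∈ Pg szP := by
  cases ε
  · exact inv_mem h
  · exact h

theorem fam_mul {x y : ℤ → ℤ → F} (h : fam x ∈ Pg szP) (h' : fam y ∈ Pg szP) :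
    fam (fun k l => x k l * y k l) ∈ Pg szP := mul_mem h h'

/-- the class of a two-parameter word -/
def cl (x : ℤ → ℤ → F) (hx : fam x ∈ Pg szP) : Gm szP := QuotientGroup.mk ⟨fam x, hx⟩

theorem cl_mul {x y : ℤ → ℤ → F} (h : fam x ∈ Pg szP) (h' : fam y ∈ Pg szP) :
    cl (fun k l => x k l * y k l) (fam_mul h h') = cl x h * cl y h' := rfl

theorem cl_sg {x : ℤ → ℤ → F} (h : fam x ∈ Pg szP) (ε : Bool) :
    cl (fun k l => sg ε (x k l)) (fam_sg h ε) = sg ε (cl x h) := by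
  cases ε <;> rfl

theorem comm_Tk {ι : Type*} {sz : ι → ℕ} (κ κ' : Kd) (h : cmm κ κ' = true) (k l : Bd sz) :
    Commute (Tk κ k) (Tk κ' l) := by
  cases κ <;> cases κ' <;> first | exact absurd h (by decide) | skip
  · exact ((sysGm sz).c_T _ _).symm
  · exact (sysGm sz).U1_U2 _ _
  · exact ((sysGm sz).c_U1 _ _).symm
  · exact ((sysGm sz).U1_V2 _ _).symm
  · exact ((sysGm sz).V1_V2 _ _).symm
  · exact ((sysGm sz).c_V2 _ _).symm
  · exact ((sysGm sz).T_V1 _ _).symm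
  · exact (sysGm sz).V1_V2 _ _
  · exact (sysGm sz).V1_V1 _ _
  · exact (sysGm sz).V1_U2 _ _
  · exact ((sysGm sz).c_V1 _ _).symm
  · exact ((sysGm sz).T_U2 _ _).symm
  · exact ((sysGm sz).U1_U2 _ _).symm
  · exact ((sysGm sz).V1_U2 _ _).symm
  · exact (sysGm sz).U2_U2 _ _
  · exact ((sysGm sz).c_U2 _ _).symm
  · exact (sysGm sz).c_T _ _
  · exact (sysGm sz).c_U1 _ _
  · exact (sysGm sz).c_V2 _ _
  · exact (sysGm sz).c_V1 _ _
  · exact (sysGm sz).c_U2 _ _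
  · exact (sysGm sz).c_c _ _

theorem f_comm (κ κ' : Kd) (h : cmm κ κ' = true) (ε δ : Bool) :
    Unif (fun k l => sg ε (tok κ k) * sg δ (tok κ' l))
      (fun k l => sg δ (tok κ' l) * sg ε (tok κ k)) := by
  have := comm_sg (comm_Tk κ κ' h pk pl) ε δ
  rw [Tk_eq, Tk_eq] at this
  refine unif_of (fam_mul (fam_sg (fam_tok1 κ) ε) (fam_sg (fam_tok2 κ') δ))
    (fam_mul (fam_sg (fam_tok2 κ') δ) (fam_sg (fam_tok1 κ) ε)) ?_
  cases ε <;> cases δ <;> exact this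

theorem fam_tok_add (κ : Kd) : fam (fun k l => tok κ (k + l)) ∈ Pg szP := tok_mem_Pg κ (pk + pl)
theorem fam_tok_sub (κ : Kd) : fam (fun k l => tok κ (k - l)) ∈ Pg szP := tok_mem_Pg κ (pk - pl)
theorem fam_tok_sub' (κ : Kd) : fam (fun k l => tok κ (l - k)) ∈ Pg szP := tok_mem_Pg κ (pl - pk)
theorem fam_tok_succ (κ : Kd) : fam (fun k _ => tok κ (k + 1)) ∈ Pg szP :=
  tok_mem_Pg κ (pk + oneBd)
theorem fam_tok_neg1 (κ : Kd) : fam (fun k _ => tok κ (-k)) ∈ Pg szP := tok_mem_Pg κ (-pk)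
theorem fam_tok_neg2 (κ : Kd) : fam (fun _ l => tok κ (-l)) ∈ Pg szP := tok_mem_Pg κ (-pl)

theorem f_xV2S (ε δ : Bool) : Unif (fun k l => sg ε (tok .V2 k) * sg δ (tok .S l))
    (fun k l => sg δ (tok .S l) * sg ε (tok .V2 k) * sg (ε == δ) (tok .V1 (k + l))) := by
  have h0 : Tk .V2 pk * Tk .S pl = Tk .S pl * Tk .V2 pk * Tk .V1 (pk + pl) := by
    have h1 := (sysGm szP).T_V2 pl pk
    have h2 := ((sysGm szP).T_V1 pl (pk + pl)).inv_right.eq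
    show (sysGm szP).V2 pk * (sysGm szP).T pl =
      (sysGm szP).T pl * (sysGm szP).V2 pk * (sysGm szP).V1 (pk + pl)
    rw [h1, mul_assoc ((sysGm szP).V2 pk), ← h2]
    group
  have := exch_sg h0 (comm_Tk .V1 .V2 rfl _ _) (comm_Tk .V1 .S rfl _ _) ε δ
  rw [Tk_eq, Tk_eq, Tk_eq] at this
  refine unif_of (fam_mul (fam_sg (fam_tok1 .V2) ε) (fam_sg (fam_tok2 .S) δ))
    (fam_mul (fam_mul (fam_sg (fam_tok2 .S) δ) (fam_sg (fam_tok1 .V2) ε))
      (fam_sg (fam_tok_add .V1) (ε == δ))) ?_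
  cases ε <;> cases δ <;> exact this

theorem f_xU1S (ε δ : Bool) : Unif (fun k l => sg ε (tok .U1 k) * sg δ (tok .S l))
    (fun k l => sg δ (tok .S l) * sg ε (tok .U1 k) * sg (ε != δ) (tok .U2 (k - l))) := by
  have h0 : Tk .U1 pk * Tk .S pl = Tk .S pl * Tk .U1 pk * (Tk .U2 (pk - pl))⁻¹ := by
    have h1 := (sysGm szP).T_U1 pl pk
    have h2 := ((sysGm szP).T_U2 pl (pk - pl)).eq
    show (sysGm szP).U1 pk * (sysGm szP).T pl =
      (sysGm szP).T pl * (sysGm szP).U1 pk * ((sysGm szP).U2 (pk - pl))⁻¹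
    rw [h1, mul_assoc ((sysGm szP).U1 pk), ← h2]
    group
  have := exch_sg' h0 (comm_Tk .U2 .U1 rfl _ _) (comm_Tk .U2 .S rfl _ _) ε δ
  rw [Tk_eq, Tk_eq, Tk_eq] at this
  refine unif_of (fam_mul (fam_sg (fam_tok1 .U1) ε) (fam_sg (fam_tok2 .S) δ))
    (fam_mul (fam_mul (fam_sg (fam_tok2 .S) δ) (fam_sg (fam_tok1 .U1) ε))
      (fam_sg (fam_tok_sub .U2) (ε != δ))) ?_
  cases ε <;> cases δ <;> exact this

theorem f_xV1U1 (ε δ : Bool) : Unif (fun k l => sg ε (tok .V1 k) * sg δ (tok .U1 l))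
    (fun k l => sg δ (tok .U1 l) * sg ε (tok .V1 k) * sg (ε != δ) (tok .C (l - k))) := by
  have h0 : Tk .V1 pk * Tk .U1 pl = Tk .U1 pl * Tk .V1 pk * (Tk .C (pl - pk))⁻¹ := by
    have h1 := (sysGm szP).U1_V1 pl pk
    show (sysGm szP).V1 pk * (sysGm szP).U1 pl =
      (sysGm szP).U1 pl * (sysGm szP).V1 pk * ((sysGm szP).c (pl - pk))⁻¹
    rw [h1]
    group
  have := exch_sg' h0 (comm_Tk .C .V1 rfl _ _) (comm_Tk .C .U1 rfl _ _) ε δ
  rw [Tk_eq, Tk_eq, Tk_eq] at this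
  refine unif_of (fam_mul (fam_sg (fam_tok1 .V1) ε) (fam_sg (fam_tok2 .U1) δ))
    (fam_mul (fam_mul (fam_sg (fam_tok2 .U1) δ) (fam_sg (fam_tok1 .V1) ε))
      (fam_sg (fam_tok_sub' .C) (ε != δ))) ?_
  cases ε <;> cases δ <;> exact this

theorem f_xU2V2 (ε δ : Bool) : Unif (fun k l => sg ε (tok .U2 k) * sg δ (tok .V2 l))
    (fun k l => sg δ (tok .V2 l) * sg ε (tok .U2 k) * sg (ε == δ) (tok .C (k - l))) := by
  have h0 : Tk .U2 pk * Tk .V2 pl = Tk .V2 pl * Tk .U2 pk * Tk .C (pk - pl) :=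
    (sysGm szP).U2_V2 pk pl
  have := exch_sg h0 (comm_Tk .C .U2 rfl _ _) (comm_Tk .C .V2 rfl _ _) ε δ
  rw [Tk_eq, Tk_eq, Tk_eq] at this
  refine unif_of (fam_mul (fam_sg (fam_tok1 .U2) ε) (fam_sg (fam_tok2 .V2) δ))
    (fam_mul (fam_mul (fam_sg (fam_tok2 .V2) δ) (fam_sg (fam_tok1 .U2) ε))
      (fam_sg (fam_tok_sub .C) (ε == δ))) ?_
  cases ε <;> cases δ <;> exact this

theorem sg_sq {G : Type*} [Group G] {x y : G} (h : x * x = y) (ε : Bool) :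
    sg ε x * sg ε x = sg ε y := by
  cases ε
  · show x⁻¹ * x⁻¹ = y⁻¹
    rw [← h, mul_inv_rev]
  · exact h

theorem f_dU2 (ε : Bool) : Unif (fun k _ => sg ε (tok .U2 k) * sg ε (tok .U2 k))
    (fun k _ => sg ε (tok .U2 (k + 1))) := by
  have h0 : Tk .U2 pk * Tk .U2 pk = Tk .U2 (pk + oneBd) := ((sysGm szP).U2_succ pk).symm
  have := sg_sq h0 ε
  rw [Tk_eq, Tk_eq] at this
  refine unif_of (fam_mul (fam_sg (fam_tok1 .U2) ε) (fam_sg (fam_tok1 .U2) ε))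
    (fam_sg (fam_tok_succ .U2) ε) ?_
  cases ε <;> exact this

theorem f_dV1 (ε : Bool) : Unif (fun k _ => sg ε (tok .V1 (k + 1)) * sg ε (tok .V1 (k + 1)))
    (fun k _ => sg ε (tok .V1 k)) := by
  have h0 : Tk .V1 (pk + oneBd) * Tk .V1 (pk + oneBd) = Tk .V1 pk :=
    ((sysGm szP).V1_pred pk).symm
  have := sg_sq h0 ε
  rw [Tk_eq, Tk_eq] at this
  refine unif_of (fam_mul (fam_sg (fam_tok_succ .V1) ε) (fam_sg (fam_tok_succ .V1) ε))
    (fam_sg (fam_tok1 .V1) ε) ?_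
  cases ε <;> exact this

theorem f_dC (ε : Bool) : Unif (fun k _ => sg ε (tok .C k) * sg ε (tok .C k))
    (fun k _ => sg ε (tok .C (k + 1))) := by
  have h0 : Tk .C pk * Tk .C pk = Tk .C (pk + oneBd) := ((sysGm szP).c_succ pk).symm
  have := sg_sq h0 ε
  rw [Tk_eq, Tk_eq] at this
  refine unif_of (fam_mul (fam_sg (fam_tok1 .C) ε) (fam_sg (fam_tok1 .C) ε))
    (fam_sg (fam_tok_succ .C) ε) ?_
  cases ε <;> exact this

theorem sg_move {G : Type*} [Group G] {x y z : G} (h : x * y = z * x) (ε : Bool) :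
    x * sg ε y = sg ε z * x := by
  cases ε
  · show x * y⁻¹ = z⁻¹ * x
    have : y = x⁻¹ * z * x := by
      calc y = x⁻¹ * (x * y) := by group
        _ = _ := by rw [h]; group
    rw [this]
    group
  · exact h

theorem fam_A : fam (fun k l => a1 ^ k * a2 ^ l) ∈ Pg szP :=
  mul_mem (zpow_mem_Pg dbl_a1 pk) (zpow_mem_Pg dbl_a2 pl)

theorem f_mv1 (ε : Bool) : Unif (fun k l => a1 ^ k * a2 ^ l * sg ε u1)
    (fun k l => sg ε (tok .U1 (-k)) * (a1 ^ k * a2 ^ l)) := by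
  have h0 : (sysGm szP).A1 pk * (sysGm szP).A2 pl * Cst u1 =
      Tk .U1 (-pk) * ((sysGm szP).A1 pk * (sysGm szP).A2 pl) := (sysGm szP).mv_u1 pk pl
  have := sg_move h0 ε
  rw [Tk_eq] at this
  refine unif_of (fam_mul fam_A (fam_sg (const_mem_Pg u1) ε))
    (fam_mul (fam_sg (fam_tok_neg1 .U1) ε) fam_A) ?_
  cases ε <;> exact this

theorem f_mv2 (ε : Bool) : Unif (fun k l => a1 ^ k * a2 ^ l * sg ε u2)
    (fun k l => sg ε (tok .U2 (-l)) * (a1 ^ k * a2 ^ l)) := by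
  have h0 : (sysGm szP).A1 pk * (sysGm szP).A2 pl * Cst u2 =
      Tk .U2 (-pl) * ((sysGm szP).A1 pk * (sysGm szP).A2 pl) := (sysGm szP).mv_u2 pk pl
  have := sg_move h0 ε
  rw [Tk_eq] at this
  refine unif_of (fam_mul fam_A (fam_sg (const_mem_Pg u2) ε))
    (fam_mul (fam_sg (fam_tok_neg2 .U2) ε) fam_A) ?_
  cases ε <;> exact this

theorem f_mv3 (ε : Bool) : Unif (fun k l => a1 ^ k * a2 ^ l * sg ε v1)
    (fun k l => sg ε (tok .V1 (-k)) * (a1 ^ k * a2 ^ l)) := by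
  have h0 : (sysGm szP).A1 pk * (sysGm szP).A2 pl * Cst v1 =
      Tk .V1 (-pk) * ((sysGm szP).A1 pk * (sysGm szP).A2 pl) := (sysGm szP).mv_v1 pk pl
  have := sg_move h0 ε
  rw [Tk_eq] at this
  refine unif_of (fam_mul fam_A (fam_sg (const_mem_Pg v1) ε))
    (fam_mul (fam_sg (fam_tok_neg1 .V1) ε) fam_A) ?_
  cases ε <;> exact this

theorem f_mv4 (ε : Bool) : Unif (fun k l => a1 ^ k * a2 ^ l * sg ε v2)
    (fun k l => sg ε (tok .V2 (-l)) * (a1 ^ k * a2 ^ l)) := by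
  have h0 : (sysGm szP).A1 pk * (sysGm szP).A2 pl * Cst v2 =
      Tk .V2 (-pl) * ((sysGm szP).A1 pk * (sysGm szP).A2 pl) := (sysGm szP).mv_v2 pk pl
  have := sg_move h0 ε
  rw [Tk_eq] at this
  refine unif_of (fam_mul fam_A (fam_sg (const_mem_Pg v2) ε))
    (fam_mul (fam_sg (fam_tok_neg2 .V2) ε) fam_A) ?_
  cases ε <;> exact this

theorem f_mv5 (ε : Bool) : Unif (fun k l => a1 ^ k * a2 ^ l * sg ε ss)
    (fun k l => sg ε (tok .S (l - k)) * (a1 ^ k * a2 ^ l)) := by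
  have h0 : (sysGm szP).A1 pk * (sysGm szP).A2 pl * Cst ss =
      Tk .S (pl - pk) * ((sysGm szP).A1 pk * (sysGm szP).A2 pl) := (sysGm szP).mv_s pk pl
  have := sg_move h0 ε
  rw [Tk_eq] at this
  refine unif_of (fam_mul fam_A (fam_sg (const_mem_Pg ss) ε))
    (fam_mul (fam_sg (fam_tok_sub' .S) ε) fam_A) ?_
  cases ε <;> exact this

end Pool.Agent.MP6f2db1
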