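import Pool.Agent.Lib.MP_6f2db1_al.Facts2

set_option autoImplicit false

/-!
# Assembling the local facts with one constant
-/

namespace Pool.Agent.MP6f2db1

theorem ex_fin {α : Type*} [Fintype α] {P : α → ℕ → Prop}
    (hm : ∀ a C C', C ≤ C' → P a C → P a C') (h : ∀ a, ∃ C, P a C) : ∃ C, ∀ a, P a C := by
  choose C hC using h
  exact ⟨∑ a, C a, fun a => hm a _ _ (Finset.single_le_sum (f := C) (fun _ _ => Nat.zero_le _)
    (Finset.mem_univ a)) (hC a)⟩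

/-- The uniform statement with constant `C`. -/
def UnifC (C : ℕ) (x y : ℤ → ℤ → F) : Prop :=
  ∀ (L : ℕ) (k l : ℤ), |k| ≤ 2 ^ L → |l| ≤ 2 ^ L → Eqv (C * (L + 1)) (x k l) (y k l)

theorem UnifC.mono {C C' : ℕ} (h : C ≤ C') {x y : ℤ → ℤ → F} (hxy : UnifC C x y) :
    UnifC C' x y := fun L k l hk hl => (hxy L k l hk hl).mono (Nat.mul_le_mul_right _ h)

theorem unif1 {x y : Bool → ℤ → ℤ → F} (h : ∀ ε, Unif (x ε) (y ε)) :
    ∃ C, ∀ C', C ≤ C' → ∀ ε, UnifC C' (x ε) (y ε) := by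
  obtain ⟨C, hC⟩ := ex_fin (P := fun ε C => UnifC C (x ε) (y ε))
    (fun _ _ _ hc h => h.mono hc) h
  exact ⟨C, fun C' hC' ε => (hC ε).mono hC'⟩

theorem unif2 {x y : Bool → Bool → ℤ → ℤ → F} (h : ∀ ε δ, Unif (x ε δ) (y ε δ)) :
    ∃ C, ∀ C', C ≤ C' → ∀ ε δ, UnifC C' (x ε δ) (y ε δ) := by
  obtain ⟨C, hC⟩ := ex_fin (α := Bool × Bool) (P := fun p C => UnifC C (x p.1 p.2) (y p.1 p.2))
    (fun _ _ _ hc h => h.mono hc) (fun p => h p.1 p.2)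
  exact ⟨C, fun C' hC' ε δ => (hC (ε, δ)).mono hC'⟩

theorem facts_comm : ∃ C, ∀ C', C ≤ C' → ∀ κ κ' ε δ, cmm κ κ' = true →
    UnifC C' (fun k l => sg ε (tok κ k) * sg δ (tok κ' l))
      (fun k l => sg δ (tok κ' l) * sg ε (tok κ k)) := by
  obtain ⟨C, hC⟩ := ex_fin (α := (Kd × Kd) × (Bool × Bool))
    (P := fun p C => cmm p.1.1 p.1.2 = true →
      UnifC C (fun k l => sg p.2.1 (tok p.1.1 k) * sg p.2.2 (tok p.1.2 l))
      (fun k l => sg p.2.2 (tok p.1.2 l) * sg p.2.1 (tok p.1.1 k)))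
    (fun _ _ _ hc h h' => (h h').mono hc)
    (fun p => by
      by_cases h : cmm p.1.1 p.1.2 = true
      · obtain ⟨C, hC⟩ := f_comm p.1.1 p.1.2 h p.2.1 p.2.2
        exact ⟨C, fun _ => hC⟩
      · exact ⟨0, fun h' => absurd h' h⟩)
  exact ⟨C, fun C' hC' κ κ' ε δ h => (hC ((κ, κ'), (ε, δ)) h).mono hC'⟩

theorem facts_sh : ∃ C, ∀ C', C ≤ C' → ∀ κ ε (L : ℕ) (k : ℤ), |k| ≤ 2 ^ L →
    sg ε (tok κ k) ∈ Sh (C' * (L + 1)) := by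
  obtain ⟨C, hC⟩ := ex_fin (α := Kd × Bool)
    (P := fun p C => ∀ (L : ℕ) (k : ℤ), |k| ≤ 2 ^ L → sg p.2 (tok p.1 k) ∈ Sh (C * (L + 1)))
    (fun _ _ _ hc h L k hk => Sh_mono (Nat.mul_le_mul_right _ hc) (h L k hk))
    (fun p => by
      obtain ⟨C, hC⟩ := ush_of (fam_sg (fam_tok1 p.1) p.2)
      exact ⟨C, fun L k hk => hC L k 0 hk (by simp)⟩)
  exact ⟨C, fun C' hC' κ ε L k hk =>
    Sh_mono (Nat.mul_le_mul_right _ hC') (hC (κ, ε) L k hk)⟩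

theorem f_mulA (L : ℕ) (k l k' l' : ℤ) (hk : |k| ≤ 2 ^ L) (hl : |l| ≤ 2 ^ L)
    (hk' : |k'| ≤ 2 ^ L) :
    Eqv (30 * L + 10) (a1 ^ k * a2 ^ l * (a1 ^ k' * a2 ^ l')) (a1 ^ (k + k') * a2 ^ (l + l')) := by
  have h1 := cm_comm (cm_a1_a2 L k' l hk' hl)
  have h2 : Eqv (24 * L + 8) (a2 ^ l * a1 ^ k') (a1 ^ k' * a2 ^ l) := by
    have h3 : a2 ^ l * a1 ^ k' * (a1 ^ k' * a2 ^ l)⁻¹ = cm (a2 ^ l) (a1 ^ k') := by
      rw [cm]
      group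
    rw [Eqv, h3]
    exact h1
  have h4 := (h2.mul_right (a2 ^ l')).mul_left (zpow_Sh dbl_a1 L k hk)
  have h5 : a1 ^ k * a2 ^ l * (a1 ^ k' * a2 ^ l') = a1 ^ k * (a2 ^ l * a1 ^ k' * a2 ^ l') := by
    group
  have h6 : a1 ^ (k + k') * a2 ^ (l + l') = a1 ^ k * (a1 ^ k' * a2 ^ l * a2 ^ l') := by
    rw [zpow_add, zpow_add]
    group
  rw [h5, h6]
  exact h4.mono (by omega)

theorem f_tA (L : ℕ) (k l : ℤ) (hk : |k| ≤ 2 ^ L) (hl : |l| ≤ 2 ^ L) :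
    Eqv (15 * L + 17) (tt * (a1 ^ k * a2 ^ l) * tt⁻¹) (a1 ^ (2 * k) * a2 ^ (2 * l)) := by
  have h1 := tconj_zpow dbl_a1 L k hk
  have h2 := tconj_zpow dbl_a2 L l hl
  have h3 : tt * (a1 ^ k * a2 ^ l) * tt⁻¹ = (tt * a1 ^ k * tt⁻¹) * (tt * a2 ^ l * tt⁻¹) := by group
  rw [h3]
  have h4 : a1 ^ (2 * k) ∈ Sh (6 * (L + 1) + 2) := zpow_Sh dbl_a1 (L + 1) _ (by
    rw [abs_mul, pow_succ']
    have : |(2 : ℤ)| = 2 := rfl
    rw [this]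
    linarith)
  exact ((h1.mul_right _).mono (by omega)).trans ((h2.mul_left h4).mono (by omega))

theorem f_tA' (L : ℕ) (k l : ℤ) (hk : |k| ≤ 2 ^ L) (hl : |l| ≤ 2 ^ L) :
    Eqv (15 * L + 18) (tt⁻¹ * (a1 ^ (2 * k) * a2 ^ (2 * l)) * tt) (a1 ^ k * a2 ^ l) := by
  have h1 := (f_tA L k l hk hl).symm
  have h2 : tt⁻¹ * (a1 ^ (2 * k) * a2 ^ (2 * l)) * tt * (a1 ^ k * a2 ^ l)⁻¹ =
      tt⁻¹ * (a1 ^ (2 * k) * a2 ^ (2 * l) * (tt * (a1 ^ k * a2 ^ l) * tt⁻¹)⁻¹) * (tt⁻¹)⁻¹ := by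
    group
  rw [Eqv, h2]
  exact K_mono (by omega) (K_conj (i := 1) h1 (by rw [FreeGroup.norm_inv_eq]; exact norm_tt.le))

/-- The local facts hold modulo `K (C (L + 1))` for all exponents up to `2^L`. -/
theorem exists_facts : ∃ C : ℕ, ∀ L : ℕ, Facts (C * (L + 1)) (2 ^ L) := by
  obtain ⟨c1, h1⟩ := facts_sh
  obtain ⟨c2, h2⟩ := facts_comm
  obtain ⟨c3, h3⟩ := unif2 f_xV2S
  obtain ⟨c4, h4⟩ := unif2 f_xU1S
  obtain ⟨c5, h5⟩ := unif2 f_xV1U1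
  obtain ⟨c6, h6⟩ := unif2 f_xU2V2
  obtain ⟨c7, h7⟩ := unif1 f_dU2
  obtain ⟨c8, h8⟩ := unif1 f_dV1
  obtain ⟨c9, h9⟩ := unif1 f_dC
  obtain ⟨d1, g1⟩ := unif1 f_mv1
  obtain ⟨d2, g2⟩ := unif1 f_mv2
  obtain ⟨d3, g3⟩ := unif1 f_mv3
  obtain ⟨d4, g4⟩ := unif1 f_mv4
  obtain ⟨d5, g5⟩ := unif1 f_mv5
  have hz : ∀ L : ℕ, |(0 : ℤ)| ≤ 2 ^ L := fun L => by simp
  refine ⟨c1 + c2 + c3 + c4 + c5 + c6 + c7 + c8 + c9 + d1 + d2 + d3 + d4 + d5 + 30, fun L => ?_⟩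
  have hbig : ∀ a b : ℕ, a ≤ 30 → b ≤ 30 → a * L + b ≤
      (c1 + c2 + c3 + c4 + c5 + c6 + c7 + c8 + c9 + d1 + d2 + d3 + d4 + d5 + 30) * (L + 1) := by
    intro a b ha hb
    calc a * L + b ≤ 30 * L + 30 := Nat.add_le_add (Nat.mul_le_mul_right L ha) hb
      _ = 30 * (L + 1) := by ring
      _ ≤ _ := Nat.mul_le_mul_right _ (by omega)
  exact
  { sh := fun κ k ε hk => h1 _ (by omega) κ ε L k hk
    shA := fun k l hk hl => by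
      refine Sh_mono (hbig 12 4 (by norm_num) (by norm_num)) ?_
      exact Sh_mono (by omega) (Sh_mul (zpow_Sh dbl_a1 L k hk) (zpow_Sh dbl_a2 L l hl))
    comm := fun κ κ' k l ε δ hc hk hl => h2 _ (by omega) κ κ' ε δ hc L k l hk hl
    xV2S := fun k l ε δ hk hl => h3 _ (by omega) ε δ L k l hk hl
    xU1S := fun k l ε δ hk hl => h4 _ (by omega) ε δ L k l hk hl
    xV1U1 := fun k l ε δ hk hl => h5 _ (by omega) ε δ L k l hk hl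
    xU2V2 := fun k l ε δ hk hl => h6 _ (by omega) ε δ L k l hk hl
    dU2 := fun k ε hk => h7 _ (by omega) ε L k 0 hk (hz L)
    dV1 := fun k ε hk => h8 _ (by omega) ε L k 0 hk (hz L)
    dC := fun k ε hk => h9 _ (by omega) ε L k 0 hk (hz L)
    c0 := by
      have h : tok .C 0 = cm u1 v1 := by
        show tU1 0 * v1 * (tU1 0)⁻¹ * v1⁻¹ = _
        rw [tU1, zpow_zero, cm]
        group
      rw [h]
      exact K_rel' (by simp [R])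
    mv1 := fun k l ε hk hl => g1 _ (by omega) ε L k l hk hl
    mv2 := fun k l ε hk hl => g2 _ (by omega) ε L k l hk hl
    mv3 := fun k l ε hk hl => g3 _ (by omega) ε L k l hk hl
    mv4 := fun k l ε hk hl => g4 _ (by omega) ε L k l hk hl
    mv5 := fun k l ε hk hl => g5 _ (by omega) ε L k l hk hl
    mulA := fun k l k' l' hk hl hk' _ =>
      (f_mulA L k l k' l' hk hl hk').mono (hbig 30 10 (by norm_num) (by norm_num))
    tA := fun k l hk hl => (f_tA L k l hk hl).mono (hbig 15 17 (by norm_num) (by norm_num))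
    tA' := fun k l hk hl => (f_tA' L k l hk hl).mono (hbig 15 18 (by norm_num) (by norm_num)) }

end Pool.Agent.MP6f2db1
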