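import Pool.Agent.Lib.MP_6f2db1_al.Stack

set_option autoImplicit false

/-!
# Area against the length of the conjugators
-/

namespace Pool.Agent.MP6f2db1

open HNNExtension E

/-! ### products of short conjugates -/

/-- a product of conjugates of relators -/
def prd (l : List (List (Fin 8 × Bool) × F)) : F :=
  (l.map (fun p => FreeGroup.mk p.1 * p.2 * (FreeGroup.mk p.1)⁻¹)).prod

theorem exists_list {M : ℕ} {x : F} (hx : x ∈ K M) :
    ∃ l : List (List (Fin 8 × Bool) × F),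
      (∀ p ∈ l, (p.2 ∈ R ∨ p.2⁻¹ ∈ R) ∧ p.1.length ≤ M) ∧ x = prd l := by
  induction hx using Subgroup.closure_induction with
  | mem x h =>
    obtain ⟨g, r, hg, hr, rfl⟩ := h
    refine ⟨[(g.toWord, r)], ?_, ?_⟩
    · intro p hp
      rw [List.mem_singleton] at hp
      subst hp
      exact ⟨Or.inl hr, hg⟩
    · rw [prd, List.map_singleton, List.prod_singleton, FreeGroup.mk_toWord]
  | one => exact ⟨[], by simp, by simp [prd]⟩
  | mul x y _ _ hx hy =>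
    obtain ⟨l1, h1, rfl⟩ := hx
    obtain ⟨l2, h2, rfl⟩ := hy
    refine ⟨l1 ++ l2, ?_, by simp [prd]⟩
    intro p hp
    rcases List.mem_append.1 hp with hp | hp
    · exact h1 p hp
    · exact h2 p hp
  | inv x _ hx =>
    obtain ⟨l, h, rfl⟩ := hx
    refine ⟨(l.map (fun p => (p.1, p.2⁻¹))).reverse, ?_, ?_⟩
    · intro p hp
      rw [List.mem_reverse, List.mem_map] at hp
      obtain ⟨q, hq, rfl⟩ := hp
      obtain ⟨h1, h2⟩ := h q hq
      refine ⟨?_, h2⟩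
      rw [inv_inv]
      exact h1.symm
    · rw [prd, prd, List.prod_inv_reverse, List.map_reverse, List.map_map, List.map_map]
      congr 2
      apply List.map_congr_left
      intro p _
      simp only [Function.comp]
      group

/-- The number of factors bounds the exponent of the central element. -/
theorem Psi_prd (l : List (List (Fin 8 × Bool) × F)) (hl : ∀ p ∈ l, p.2 ∈ R ∨ p.2⁻¹ ∈ R) :
    ∃ j : ℤ, |j| ≤ l.length ∧ Psi (prd l) = zc ^ j := by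
  induction l with
  | nil => exact ⟨0, by simp, by simp [prd]⟩
  | cons p l ih =>
    obtain ⟨j, h1, h2⟩ := ih fun q hq => hl q (List.mem_cons_of_mem _ hq)
    obtain ⟨ε, h3, h4⟩ : ∃ ε : ℤ, |ε| ≤ 1 ∧ Psi p.2 = zc ^ ε := by
      rcases hl p List.mem_cons_self with h | h
      · exact Psi_R h
      · obtain ⟨ε, h3, h4⟩ := Psi_R h
        refine ⟨-ε, by rwa [abs_neg], ?_⟩
        rw [map_inv] at h4
        rw [zpow_neg, ← h4, inv_inv]
    refine ⟨ε + j, ?_, ?_⟩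
    · refine (abs_add_le _ _).trans ?_
      rw [List.length_cons]
      push_cast
      linarith
    · have h5 : prd (p :: l) = FreeGroup.mk p.1 * p.2 * (FreeGroup.mk p.1)⁻¹ * prd l := by
        simp [prd]
      have h6 : Commute (zc ^ ε) (Psi (FreeGroup.mk p.1)) :=
        Commute.zpow_left (zc_central _) ε
      rw [h5, map_mul, map_mul, map_mul, h4, h2, map_inv, ← h6.eq, zpow_add]
      group

/-! ### the words of large area -/

/-- the conjugator -/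
def gj (j : ℕ) : F := tt ^ j * a1⁻¹ * (tt ^ j)⁻¹

/-- the word of large area -/
def wj (j : ℕ) : F := cm (gj j * u1 * (gj j)⁻¹) v1

theorem norm_pow_tt (j : ℕ) : (tt ^ j).norm ≤ j := by
  induction j with
  | zero => simp
  | succ j ih =>
    rw [pow_succ]
    refine (FreeGroup.norm_mul_le _ _).trans ?_
    rw [norm_tt]
    omega

theorem norm_gj (j : ℕ) : (gj j).norm ≤ 2 * j + 1 := by
  unfold gj
  have h1 := norm_pow_tt j
  have h2 := FreeGroup.norm_mul_le (tt ^ j * a1⁻¹) (tt ^ j)⁻¹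
  have h3 := FreeGroup.norm_mul_le (tt ^ j) a1⁻¹
  have h4 : (a1⁻¹).norm = 1 := by rw [FreeGroup.norm_inv_eq]; simp [a1]
  have h5 : ((tt ^ j)⁻¹).norm = (tt ^ j).norm := FreeGroup.norm_inv_eq
  omega

theorem norm_wj (j : ℕ) : (wj j).norm ≤ 8 * j + 8 := by
  unfold wj cm
  have h1 := norm_gj j
  set g := gj j
  have h2 : (g⁻¹).norm = g.norm := FreeGroup.norm_inv_eq
  have h3 := FreeGroup.norm_mul_le (g * u1) g⁻¹
  have h4 := FreeGroup.norm_mul_le g u1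
  have h5 : u1.norm = 1 := by simp [u1]
  have h6 : v1.norm = 1 := by simp [v1]
  set x := g * u1 * g⁻¹
  have h7 : (x⁻¹).norm = x.norm := FreeGroup.norm_inv_eq
  have h8 : (v1⁻¹).norm = v1.norm := FreeGroup.norm_inv_eq
  have h9 := FreeGroup.norm_mul_le (x * v1 * x⁻¹) v1⁻¹
  have h10 := FreeGroup.norm_mul_le (x * v1) x⁻¹
  have h11 := FreeGroup.norm_mul_le x v1
  omega

theorem Psi_tj (j : ℕ) : Psi (tt ^ j * a1 * (tt ^ j)⁻¹) = ofB (ioo (2 ^ j) 0 0) := by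
  induction j with
  | zero =>
    rw [pow_zero, one_mul, inv_one, mul_one, Psi_a1, pow_zero]
    rfl
  | succ j ih =>
    have h1 : tt ^ (j + 1) * a1 * (tt ^ (j + 1))⁻¹ = tt * (tt ^ j * a1 * (tt ^ j)⁻¹) * tt⁻¹ := by
      rw [pow_succ']
      group
    rw [h1, map_mul, map_mul, map_inv, ih, Psi_t, t_ioo]
    rw [mul_inv_cancel_right, mul_zero, pow_succ']

theorem Psi_wj (j : ℕ) : Psi (wj j) = zc ^ (2 ^ (2 ^ j) : ℤ) := by
  have h1 : Psi (gj j) = Psi ((a1 ^ (2 ^ j : ℤ))⁻¹) := by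
    have h2 : gj j = (tt ^ j * a1 * (tt ^ j)⁻¹)⁻¹ := by
      unfold gj
      group
    rw [h2, map_inv, map_inv, Psi_tj, map_zpow, Psi_a1]
    congr 1
    simp only [ofB]
    rw [← map_zpow, bA1_zpow]
  have h3 : Psi (wj j) = Psi (tok .C (2 ^ j : ℤ)) := by
    show Psi (wj j) = Psi (tC (2 ^ j : ℤ))
    unfold wj cm tC tU1
    simp only [map_mul, map_inv, h1, inv_inv]
  rw [h3, Psi_tok, zc_zpow]
  congr 1
  refine Prod.ext ?_ (Prod.ext ?_ (Prod.ext ?_ ?_))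
  · show e14 (2 ^ (2 ^ j : ℤ)) = dg 0 0 _
    have : ((2 : ℚ) ^ (2 ^ j : ℤ)) = (((2 : ℤ) ^ (2 ^ j) : ℤ) : ℚ) := by
      have h : ((2 : ℤ) ^ j) = ((2 ^ j : ℕ) : ℤ) := by push_cast; rfl
      rw [h, zpow_natCast]
      push_cast
      rfl
    rw [this]
    rfl
  · exact zz_zero.symm
  · exact zz_zero.symm
  · show 1 = zz (0 - 0)
    rw [sub_zero, zz_zero]

theorem zc_zpow_injective {i j : ℤ} (h : zc ^ i = zc ^ j) : i = j := by
  rw [zc_zpow, zc_zpow] at h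
  have h1 := of_injective (φ := phi) h
  have h2 := io_injective h1
  have h3 := congrArg (fun x : Multiplicative (ℤ × ℤ × ℤ) => x.toAdd.2.2) h2
  exact h3

/-- The area of `wj j` is doubly exponential. -/
theorem area_wj (j : ℕ) (l : List (List (Fin 8 × Bool) × F))
    (hl : ∀ p ∈ l, p.2 ∈ R ∨ p.2⁻¹ ∈ R) (h : wj j = prd l) : 2 ^ (2 ^ j) ≤ l.length := by
  obtain ⟨i, h1, h2⟩ := Psi_prd l hl
  rw [← h, Psi_wj] at h2
  have h3 := zc_zpow_injective h2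
  rw [← h3] at h1
  have h4 : (2 : ℤ) ^ (2 ^ j) ≤ l.length := (le_abs_self _).trans h1
  exact_mod_cast h4

/-! ### null words -/

theorem TT_le (n : ℕ) : TT (n + 1) ≤ 3 * 8 ^ n := by
  have h1 : n + 1 ≤ 2 ^ n := Nat.lt_two_pow_self
  have h2 : (n + 1) ^ 3 ≤ 8 ^ n := by
    calc (n + 1) ^ 3 ≤ (2 ^ n) ^ 3 := Nat.pow_le_pow_left h1 3
      _ = 8 ^ n := by rw [← pow_mul, mul_comm, pow_mul]; norm_num
  have h3 : TT (n + 1) = (n + 1) + (n + 1) ^ 2 + (n + 1) ^ 3 := rfl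
  have h4 : (n + 1) ^ 2 ≤ (n + 1) ^ 3 := Nat.pow_le_pow_right (by omega) (by norm_num)
  have h5 : n + 1 ≤ (n + 1) ^ 3 := Nat.le_self_pow (by norm_num) _
  omega

theorem bound_le (n : ℕ) : 4 * (bt n + 1) + (TT (n + 1) : ℤ) ≤ 2 ^ (4 * n + 8) := by
  have h1 : (TT (n + 1) : ℤ) ≤ 3 * 8 ^ n := by exact_mod_cast TT_le n
  have h2 : bt n ≤ 8 ^ n := pow_le_pow_left₀ (by norm_num) (by norm_num) n
  have h3 : (1 : ℤ) ≤ 8 ^ n := one_le_pow₀ (by norm_num)
  have h4 : (8 : ℤ) ^ n ≤ 16 ^ n := pow_le_pow_left₀ (by norm_num) (by norm_num) n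
  have h5 : (2 : ℤ) ^ (4 * n + 8) = 256 * 16 ^ n := by
    rw [pow_add, pow_mul]
    norm_num
    ring
  rw [h5]
  linarith

/-- The length of the conjugators needed for null words of length `n`. -/
def MM (c n : ℕ) : ℕ := Lev n (c * (4 * n + 8 + 1))

theorem exists_conj : ∃ c : ℕ, ∀ (n : ℕ) (w : List (Fin 8 × Bool)), w.length ≤ n →
    Psi (FreeGroup.mk w) ∈ Zc → FreeGroup.mk w ∈ K (MM c n) := by
  obtain ⟨c, hc⟩ := exists_facts
  exact ⟨c, fun n w hw h => mem_K_of_Psi (hc (4 * n + 8)) n (bound_le n) w hw h⟩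

theorem MM_le (c n : ℕ) : MM c n ≤ 6660 * (c + 1) * (n + 1) ^ 5 := by
  unfold MM Lev
  have h3 : TT (n + 1) = (n + 1) + (n + 1) ^ 2 + (n + 1) ^ 3 := rfl
  have h4 : (n + 1) ^ 2 ≤ (n + 1) ^ 3 := Nat.pow_le_pow_right (by omega) (by norm_num)
  have h5 : n + 1 ≤ (n + 1) ^ 3 := Nat.le_self_pow (by norm_num) _
  have h6 : TT (n + 1) + 1 ≤ 4 * (n + 1) ^ 3 := by omega
  have h7 : c * (4 * n + 8 + 1) ≤ (c + 1) * (9 * (n + 1)) := Nat.mul_le_mul (by omega) (by omega)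
  have h8 : (TT (n + 1) + 1) * (c * (4 * n + 8 + 1)) ≤ 36 * (c + 1) * (n + 1) ^ 4 := by
    calc (TT (n + 1) + 1) * (c * (4 * n + 8 + 1)) ≤
          4 * (n + 1) ^ 3 * ((c + 1) * (9 * (n + 1))) := Nat.mul_le_mul h6 h7
      _ = 36 * (c + 1) * (n + 1) ^ 4 := by ring
  have h9 : 1 ≤ (c + 1) * (n + 1) ^ 4 := Nat.one_le_iff_ne_zero.2 (by positivity)
  calc 60 * (n + 3) * ((TT (n + 1) + 1) * (c * (4 * n + 8 + 1)) + 1) ≤
        60 * (3 * (n + 1)) * (36 * (c + 1) * (n + 1) ^ 4 + (c + 1) * (n + 1) ^ 4) :=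
        Nat.mul_le_mul (by omega) (Nat.add_le_add h8 h9)
    _ = 6660 * (c + 1) * (n + 1) ^ 5 := by ring

/-! ### growth -/

theorem exists_large (G : ℕ) : ∃ j : ℕ, G * (j + 1) ^ 5 < 2 ^ j := by
  have h := tendsto_pow_const_div_const_pow_of_one_lt 5 (r := (2 : ℝ)) (by norm_num)
  have hpos : (0 : ℝ) < 1 / (2 * (G + 1)) := by positivity
  have h2 := (h.eventually (gt_mem_nhds hpos)).exists_forall_of_atTop
  obtain ⟨N, hN⟩ := h2
  refine ⟨N, ?_⟩
  have h3 := hN (N + 1) (by omega)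
  have h4 : (0 : ℝ) < 2 ^ (N + 1) := by positivity
  rw [div_lt_div_iff₀ h4 (by positivity)] at h3
  have h5 : ((N + 1 : ℕ) : ℝ) ^ 5 * (2 * (G + 1)) < 2 * 2 ^ N := by
    calc _ < 1 * (2 : ℝ) ^ (N + 1) := h3
      _ = 2 * 2 ^ N := by ring
  have h6 : (0 : ℝ) ≤ ((N + 1 : ℕ) : ℝ) ^ 5 := by positivity
  have h7 : (G : ℝ) * ((N + 1 : ℕ) : ℝ) ^ 5 < 2 ^ N := by nlinarith
  exact_mod_cast h7

theorem exists_MM_le (c : ℕ) : ∃ D : ℕ, ∀ n, MM c n ≤ D * (n + 1) ^ 5 := ⟨_, MM_le c⟩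

theorem exists_growth (a : ℝ) (C c : ℕ) :
    ∃ j : ℕ, (C : ℝ) * |a| ^ (MM c (C * (8 * j + 8))) + (C : ℝ) * ((8 * j + 8 : ℕ) : ℝ) + (C : ℝ) <
      ((2 ^ (2 ^ j) : ℕ) : ℝ) := by
  obtain ⟨e, he⟩ : ∃ e : ℕ, |a| ≤ 2 ^ e := by
    obtain ⟨e, he⟩ := exists_nat_ge |a|
    exact ⟨e, he.trans (by exact_mod_cast (Nat.lt_two_pow_self (n := e)).le)⟩
  obtain ⟨D0, hD0⟩ := exists_MM_le c
  obtain ⟨D, hD⟩ : ∃ D : ℕ, D = D0 * (8 * C + 8) ^ 5 := ⟨_, rfl⟩
  obtain ⟨j, hj⟩ := exists_large (e * D + 1 + 20 * C + 20)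
  refine ⟨j, ?_⟩
  have h1 : MM c (C * (8 * j + 8)) ≤ D * (j + 1) ^ 5 := by
    refine (hD0 _).trans ?_
    have h2 : C * (8 * j + 8) + 1 ≤ (8 * C + 8) * (j + 1) := by nlinarith
    calc D0 * (C * (8 * j + 8) + 1) ^ 5 ≤ D0 * ((8 * C + 8) * (j + 1)) ^ 5 :=
          Nat.mul_le_mul_left _ (Nat.pow_le_pow_left h2 5)
      _ = D * (j + 1) ^ 5 := by rw [hD]; ring
  set q := (j + 1) ^ 5 with hq
  have hq1 : j + 1 ≤ q := Nat.le_self_pow (by norm_num) _
  have h3 : |a| ^ (MM c (C * (8 * j + 8))) ≤ 2 ^ (e * D * q) := by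
    calc |a| ^ (MM c (C * (8 * j + 8))) ≤ (2 ^ e) ^ (MM c (C * (8 * j + 8))) :=
          pow_le_pow_left₀ (abs_nonneg a) he _
      _ = 2 ^ (e * MM c (C * (8 * j + 8))) := by rw [← pow_mul]
      _ ≤ 2 ^ (e * D * q) := by
          apply pow_le_pow_right₀ (by norm_num)
          rw [mul_assoc]
          exact Nat.mul_le_mul_left _ h1
  have h4 : ((8 * j + 8 : ℕ) : ℝ) ≤ 8 * 2 ^ q := by
    have : (8 * j + 8 : ℕ) ≤ 8 * 2 ^ q := by
      have := (Nat.lt_two_pow_self (n := q)).le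
      omega
    exact_mod_cast this
  have h5 : (C : ℝ) ≤ 2 ^ C := by exact_mod_cast (Nat.lt_two_pow_self (n := C)).le
  have hP : (1 : ℝ) ≤ 2 ^ (e * D * q) := one_le_pow₀ (by norm_num)
  have hQ : (1 : ℝ) ≤ 2 ^ q := one_le_pow₀ (by norm_num)
  set P : ℝ := 2 ^ (e * D * q) with hPd
  set Q : ℝ := 2 ^ q with hQd
  have hC0 : (0 : ℝ) ≤ C := Nat.cast_nonneg _
  have h6 : (C : ℝ) * |a| ^ (MM c (C * (8 * j + 8))) + (C : ℝ) * ((8 * j + 8 : ℕ) : ℝ) + (C : ℝ) ≤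
      10 * (2 ^ C * (P * Q)) := by
    have hPQ : P ≤ P * Q := le_mul_of_one_le_right (by linarith) hQ
    have hPQ' : Q ≤ P * Q := le_mul_of_one_le_left (by linarith) hP
    have e1 : (C : ℝ) * |a| ^ (MM c (C * (8 * j + 8))) ≤ 2 ^ C * (P * Q) :=
      mul_le_mul h5 (h3.trans hPQ) (pow_nonneg (abs_nonneg _) _) (by positivity)
    have e2 : (C : ℝ) * ((8 * j + 8 : ℕ) : ℝ) ≤ 2 ^ C * (8 * (P * Q)) :=
      mul_le_mul h5 (h4.trans (by linarith)) (Nat.cast_nonneg _) (by positivity)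
    have e3 : (C : ℝ) ≤ 2 ^ C * (P * Q) :=
      h5.trans (le_mul_of_one_le_right (by positivity) (by nlinarith))
    linarith
  refine lt_of_le_of_lt h6 ?_
  have h7 : 10 * (2 ^ C * (P * Q)) ≤ (2 : ℝ) ^ (4 + (C + (e * D * q + q))) := by
    rw [pow_add, pow_add, pow_add]
    have : (0 : ℝ) ≤ 2 ^ C * (P * Q) := by positivity
    have h8 : (2 : ℝ) ^ 4 * (2 ^ C * (2 ^ (e * D * q) * 2 ^ q)) = 16 * (2 ^ C * (P * Q)) := by
      rw [hPd, hQd]
      norm_num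
    rw [h8]
    linarith
  refine lt_of_le_of_lt h7 ?_
  have h9 : 4 + (C + (e * D * q + q)) ≤ (e * D + 1 + 20 * C + 20) * q := by
    have h10 : C ≤ C * q := Nat.le_mul_of_pos_right _ (by omega)
    have h11 : (e * D + 1 + 20 * C + 20) * q = e * D * q + q + 20 * (C * q) + 20 * q := by ring
    rw [h11]
    omega
  have h12 : 4 + (C + (e * D * q + q)) < 2 ^ j := lt_of_le_of_lt h9 hj
  have h13 : (2 : ℕ) ^ (4 + (C + (e * D * q + q))) < 2 ^ (2 ^ j) :=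
    Nat.pow_lt_pow_right (by norm_num) h12
  exact_mod_cast h13

/-- The main theorem. -/
theorem main (a : ℝ) (ha : 1 < a) (C : ℕ)
    (H : ∀ n m : ℕ,
          (∀ w : List (Fin 8 × Bool), w.length ≤ C * n →
            FreeGroup.mk w ∈ Subgroup.normalClosure (R : Set F) →
            ∃ l : List (List (Fin 8 × Bool) × F),
              (∀ p ∈ l, (p.2 ∈ R ∨ p.2⁻¹ ∈ R) ∧ p.1.length ≤ m) ∧
              FreeGroup.mk w = prd l) →
          ∀ w : List (Fin 8 × Bool), w.length ≤ n →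
            FreeGroup.mk w ∈ Subgroup.normalClosure (R : Set F) →
            ∃ l : List (List (Fin 8 × Bool) × F),
              (∀ p ∈ l, p.2 ∈ R ∨ p.2⁻¹ ∈ R) ∧
              (l.length : ℝ) ≤ (C : ℝ) * a ^ m + (C : ℝ) * (n : ℝ) + (C : ℝ) ∧
              FreeGroup.mk w = prd l) : False := by
  obtain ⟨c, hc⟩ := exists_conj
  obtain ⟨j, hj⟩ := exists_growth a C c
  rw [abs_of_pos (by linarith : (0 : ℝ) < a)] at hj
  have hw : FreeGroup.mk (wj j).toWord = wj j := FreeGroup.mk_toWord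
  have hlen : (wj j).toWord.length ≤ 8 * j + 8 := norm_wj j
  have hnull : FreeGroup.mk (wj j).toWord ∈ Subgroup.normalClosure (R : Set F) := by
    apply K_le_normalClosure (MM c (8 * j + 8))
    refine hc _ _ hlen ?_
    rw [hw, Psi_wj]
    exact ⟨_, rfl⟩
  obtain ⟨l, h1, h2, h3⟩ := H (8 * j + 8) (MM c (C * (8 * j + 8)))
    (fun w hw hn => exists_list (hc _ w hw (Psi_normalClosure hn))) _ hlen hnull
  rw [hw] at h3
  have h4 := area_wj j l h1 h3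
  have h5 : ((2 ^ (2 ^ j) : ℕ) : ℝ) ≤ (l.length : ℝ) := by exact_mod_cast h4
  linarith

end Pool.Agent.MP6f2db1
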