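import Mathlib

set_option autoImplicit false

/-!
# The abstract group theory behind the presentation

A group `Γ` with two commuting families `A₁ k`, `A₂ k` (`k` in an abelian group `I`) and elements
`u₁, u₂, v₁, v₂, s` satisfying the defining relations.
-/

namespace Pool.Agent.MP6f2db1

/-- The relations between powers and letters. -/
structure Sys (Γ : Type*) [Group Γ] (I : Type*) [AddCommGroup I] where
  A1 : I → Γ
  A2 : I → Γ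
  u1 : Γ
  u2 : Γ
  v1 : Γ
  v2 : Γ
  s : Γ
  e : I
  A1_add : ∀ k l, A1 (k + l) = A1 k * A1 l
  A2_add : ∀ k l, A2 (k + l) = A2 k * A2 l
  A12 : ∀ k l, Commute (A1 k) (A2 l)
  A1u2 : ∀ k, Commute (A1 k) u2
  A1v2 : ∀ k, Commute (A1 k) v2
  A2u1 : ∀ k, Commute (A2 k) u1
  A2v1 : ∀ k, Commute (A2 k) v1
  As : ∀ k, Commute (A1 k * A2 k) s
  u1u2 : Commute u1 u2
  u1v2 : Commute u1 v2
  v1u2 : Commute v1 u2
  v1v2 : Commute v1 v2
  su2 : Commute s u2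
  sv1 : Commute s v1
  su1 : s * u1 = u1 * u2 * s
  sv2 : s * v2 = v2 * v1⁻¹ * s
  u2e : (A2 e)⁻¹ * u2 * A2 e = u2 * u2
  v1e : A1 e * v1 * (A1 e)⁻¹ = v1 * v1
  u1v1 : Commute u1 v1

namespace Sys

variable {Γ : Type*} [Group Γ] {I : Type*} [AddCommGroup I] (S : Sys Γ I)

/-- conjugates of `u₁` -/
def U1 (k : I) : Γ := (S.A1 k)⁻¹ * S.u1 * S.A1 k
/-- conjugates of `u₂` -/
def U2 (k : I) : Γ := (S.A2 k)⁻¹ * S.u2 * S.A2 k
/-- conjugates of `v₁` -/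
def V1 (k : I) : Γ := (S.A1 k)⁻¹ * S.v1 * S.A1 k
/-- conjugates of `v₂` -/
def V2 (k : I) : Γ := (S.A2 k)⁻¹ * S.v2 * S.A2 k
/-- conjugates of `s` -/
def T (k : I) : Γ := (S.A1 k)⁻¹ * S.s * S.A1 k
/-- the central elements -/
def c (k : I) : Γ := S.U1 k * S.v1 * (S.U1 k)⁻¹ * S.v1⁻¹
/-- the central elements, second form -/
def c' (k : I) : Γ := S.U2 k * S.v2 * (S.U2 k)⁻¹ * S.v2⁻¹

theorem A1_zero : S.A1 0 = 1 := by
  have := S.A1_add 0 0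
  simpa using this

theorem A2_zero : S.A2 0 = 1 := by
  have := S.A2_add 0 0
  simpa using this

theorem A1_neg (k : I) : S.A1 (-k) = (S.A1 k)⁻¹ := by
  have := S.A1_add (-k) k
  rw [neg_add_cancel, S.A1_zero] at this
  exact eq_inv_of_mul_eq_one_left this.symm

theorem A2_neg (k : I) : S.A2 (-k) = (S.A2 k)⁻¹ := by
  have := S.A2_add (-k) k
  rw [neg_add_cancel, S.A2_zero] at this
  exact eq_inv_of_mul_eq_one_left this.symm

theorem A1_sub (k l : I) : S.A1 (k - l) = S.A1 k * (S.A1 l)⁻¹ := by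
  rw [sub_eq_add_neg, S.A1_add, S.A1_neg]

theorem A2_sub (k l : I) : S.A2 (k - l) = S.A2 k * (S.A2 l)⁻¹ := by
  rw [sub_eq_add_neg, S.A2_add, S.A2_neg]

/-! conjugation by powers -/

theorem U1_shift (k l : I) : (S.A1 l)⁻¹ * S.U1 k * S.A1 l = S.U1 (k + l) := by
  rw [U1, U1, S.A1_add]
  group

theorem V1_shift (k l : I) : (S.A1 l)⁻¹ * S.V1 k * S.A1 l = S.V1 (k + l) := by
  rw [V1, V1, S.A1_add]
  group

theorem T_shift (k l : I) : (S.A1 l)⁻¹ * S.T k * S.A1 l = S.T (k + l) := by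
  rw [T, T, S.A1_add]
  group

theorem U2_shift (k l : I) : (S.A2 l)⁻¹ * S.U2 k * S.A2 l = S.U2 (k + l) := by
  rw [U2, U2, S.A2_add]
  group

theorem V2_shift (k l : I) : (S.A2 l)⁻¹ * S.V2 k * S.A2 l = S.V2 (k + l) := by
  rw [V2, V2, S.A2_add]
  group

/-- Commute with a product with a conjugating element. -/
theorem comm_conj {x y z : Γ} (h1 : Commute x z) (h2 : Commute y z) :
    Commute (x⁻¹ * y * x) z :=
  ((h1.inv_left).mul_left h2).mul_left h1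

theorem A2_U1 (k l : I) : Commute (S.A2 k) (S.U1 l) :=
  (comm_conj (S.A12 l k) (S.A2u1 k).symm).symm

theorem A2_V1 (k l : I) : Commute (S.A2 k) (S.V1 l) :=
  (comm_conj (S.A12 l k) (S.A2v1 k).symm).symm

theorem A1_U2 (k l : I) : Commute (S.A1 k) (S.U2 l) :=
  (comm_conj (S.A12 k l).symm (S.A1u2 k).symm).symm

theorem A1_V2 (k l : I) : Commute (S.A1 k) (S.V2 l) :=
  (comm_conj (S.A12 k l).symm (S.A1v2 k).symm).symm

theorem U1_u2 (k : I) : Commute (S.U1 k) S.u2 := comm_conj (S.A1u2 k) S.u1u2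
theorem U1_v2 (k : I) : Commute (S.U1 k) S.v2 := comm_conj (S.A1v2 k) S.u1v2
theorem V1_u2 (k : I) : Commute (S.V1 k) S.u2 := comm_conj (S.A1u2 k) S.v1u2
theorem V1_v2 (k : I) : Commute (S.V1 k) S.v2 := comm_conj (S.A1v2 k) S.v1v2

theorem U1_U2 (k l : I) : Commute (S.U1 k) (S.U2 l) :=
  (comm_conj (S.A2_U1 l k) (S.U1_u2 k).symm).symm
theorem U1_V2 (k l : I) : Commute (S.U1 k) (S.V2 l) :=
  (comm_conj (S.A2_U1 l k) (S.U1_v2 k).symm).symm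
theorem V1_U2 (k l : I) : Commute (S.V1 k) (S.U2 l) :=
  (comm_conj (S.A2_V1 l k) (S.V1_u2 k).symm).symm
theorem V1_V2 (k l : I) : Commute (S.V1 k) (S.V2 l) :=
  (comm_conj (S.A2_V1 l k) (S.V1_v2 k).symm).symm

/-- the product `A₁ k A₂ k` -/
def b (k : I) : Γ := S.A1 k * S.A2 k

theorem b_s (k : I) : Commute (S.b k) S.s := S.As k

theorem U1_eq_b (k : I) : S.U1 k = (S.b k)⁻¹ * S.u1 * S.b k := by
  have h := (S.A2u1 k).eq
  have h1 := (S.A12 k k).eq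
  rw [U1, b, h1, mul_inv_rev]
  calc (S.A1 k)⁻¹ * S.u1 * S.A1 k
      = (S.A1 k)⁻¹ * (S.A2 k)⁻¹ * (S.A2 k * S.u1) * S.A1 k := by group
    _ = (S.A1 k)⁻¹ * (S.A2 k)⁻¹ * S.u1 * (S.A2 k * S.A1 k) := by rw [h]; group

theorem V1_eq_b (k : I) : S.V1 k = (S.b k)⁻¹ * S.v1 * S.b k := by
  have h := (S.A2v1 k).eq
  have h1 := (S.A12 k k).eq
  rw [V1, b, h1, mul_inv_rev]
  calc (S.A1 k)⁻¹ * S.v1 * S.A1 k
      = (S.A1 k)⁻¹ * (S.A2 k)⁻¹ * (S.A2 k * S.v1) * S.A1 k := by group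
    _ = (S.A1 k)⁻¹ * (S.A2 k)⁻¹ * S.v1 * (S.A2 k * S.A1 k) := by rw [h]; group

theorem U2_eq_b (k : I) : S.U2 k = (S.b k)⁻¹ * S.u2 * S.b k := by
  have h := (S.A1u2 k).eq
  rw [U2, b, mul_inv_rev]
  calc (S.A2 k)⁻¹ * S.u2 * S.A2 k
      = (S.A2 k)⁻¹ * (S.A1 k)⁻¹ * (S.A1 k * S.u2) * S.A2 k := by group
    _ = (S.A2 k)⁻¹ * (S.A1 k)⁻¹ * S.u2 * (S.A1 k * S.A2 k) := by rw [h]; group

theorem V2_eq_b (k : I) : S.V2 k = (S.b k)⁻¹ * S.v2 * S.b k := by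
  have h := (S.A1v2 k).eq
  rw [V2, b, mul_inv_rev]
  calc (S.A2 k)⁻¹ * S.v2 * S.A2 k
      = (S.A2 k)⁻¹ * (S.A1 k)⁻¹ * (S.A1 k * S.v2) * S.A2 k := by group
    _ = (S.A2 k)⁻¹ * (S.A1 k)⁻¹ * S.v2 * (S.A1 k * S.A2 k) := by rw [h]; group

/-- `s` and conjugates of letters by `b`. -/
theorem s_U2 (k : I) : Commute S.s (S.U2 k) := by
  rw [U2_eq_b]
  exact (comm_conj (S.b_s k) S.su2.symm).symm

theorem s_V1 (k : I) : Commute S.s (S.V1 k) := by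
  rw [V1_eq_b]
  exact (comm_conj (S.b_s k) S.sv1.symm).symm

theorem s_conj_b {x y : Γ} (k : I) (h : S.s * x = y * S.s) :
    S.s * ((S.b k)⁻¹ * x * S.b k) = ((S.b k)⁻¹ * y * S.b k) * S.s := by
  have h1 := (S.b_s k).eq
  have h2 := (S.b_s k).inv_left.eq
  calc S.s * ((S.b k)⁻¹ * x * S.b k)
      = (S.s * (S.b k)⁻¹) * x * S.b k := by group
    _ = (S.b k)⁻¹ * (S.s * x) * S.b k := by rw [← h2]; group
    _ = (S.b k)⁻¹ * y * (S.s * S.b k) := by rw [h]; group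
    _ = ((S.b k)⁻¹ * y * S.b k) * S.s := by rw [← h1]; group

theorem s_U1 (k : I) : S.s * S.U1 k = S.U1 k * S.U2 k * S.s := by
  have := S.s_conj_b k S.su1
  rw [U1_eq_b, this, U2_eq_b]
  group

theorem s_V2 (k : I) : S.s * S.V2 k = S.V2 k * (S.V1 k)⁻¹ * S.s := by
  have := S.s_conj_b k S.sv2
  rw [V2_eq_b, this, V1_eq_b]
  group

/-- conjugation of an equation by `A₁ m` -/
theorem T_of_s {x y : Γ} (m : I) (h : S.s * x = y * S.s) :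
    S.T m * ((S.A1 m)⁻¹ * x * S.A1 m) = ((S.A1 m)⁻¹ * y * S.A1 m) * S.T m := by
  rw [T]
  calc (S.A1 m)⁻¹ * S.s * S.A1 m * ((S.A1 m)⁻¹ * x * S.A1 m)
      = (S.A1 m)⁻¹ * (S.s * x) * S.A1 m := by group
    _ = (S.A1 m)⁻¹ * y * S.A1 m * ((S.A1 m)⁻¹ * S.s * S.A1 m) := by rw [h]; group

theorem A1_conj_U2 (m k : I) : (S.A1 m)⁻¹ * S.U2 k * S.A1 m = S.U2 k := by
  have := (S.A1_U2 m k).eq
  rw [mul_assoc, ← this]
  group

theorem A1_conj_V2 (m k : I) : (S.A1 m)⁻¹ * S.V2 k * S.A1 m = S.V2 k := by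
  have := (S.A1_V2 m k).eq
  rw [mul_assoc, ← this]
  group

theorem A2_conj_U1 (m k : I) : (S.A2 m)⁻¹ * S.U1 k * S.A2 m = S.U1 k := by
  have := (S.A2_U1 m k).eq
  rw [mul_assoc, ← this]
  group

theorem A2_conj_V1 (m k : I) : (S.A2 m)⁻¹ * S.V1 k * S.A2 m = S.V1 k := by
  have := (S.A2_V1 m k).eq
  rw [mul_assoc, ← this]
  group

/-- (T2) -/
theorem T_U2 (m k : I) : Commute (S.T m) (S.U2 k) := by
  have := S.T_of_s m (S.s_U2 k).eq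
  rw [A1_conj_U2] at this
  exact this

theorem T_V1 (m k : I) : Commute (S.T m) (S.V1 k) := by
  have := S.T_of_s m (S.s_V1 (k - m)).eq
  rw [V1_shift, sub_add_cancel] at this
  exact this

/-- (T3) -/
theorem T_U1 (m k : I) : S.T m * S.U1 k = S.U1 k * S.U2 (k - m) * S.T m := by
  have := S.T_of_s m (S.s_U1 (k - m))
  have h2 : (S.A1 m)⁻¹ * (S.U1 (k - m) * S.U2 (k - m)) * S.A1 m =
      ((S.A1 m)⁻¹ * S.U1 (k - m) * S.A1 m) * ((S.A1 m)⁻¹ * S.U2 (k - m) * S.A1 m) := by group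
  rw [h2, U1_shift, sub_add_cancel, A1_conj_U2] at this
  exact this

/-- (T4) -/
theorem T_V2 (m k : I) : S.T m * S.V2 k = S.V2 k * (S.V1 (k + m))⁻¹ * S.T m := by
  have := S.T_of_s m (S.s_V2 k)
  have h2 : (S.A1 m)⁻¹ * (S.V2 k * (S.V1 k)⁻¹) * S.A1 m =
      ((S.A1 m)⁻¹ * S.V2 k * S.A1 m) * ((S.A1 m)⁻¹ * S.V1 k * S.A1 m)⁻¹ := by group
  rw [h2, V1_shift, A1_conj_V2] at this
  exact this

/-- If `s x = x y s` and `x`, `s` commute with `z` then `y` commutes with `z`. -/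
theorem comm_of_s {x y z : Γ} (h : S.s * x = x * y * S.s) (hx : Commute x z)
    (hs : Commute S.s z) : Commute y z := by
  have h2 : y = x⁻¹ * S.s * x * S.s⁻¹ := by
    have : x * y = S.s * x * S.s⁻¹ := by rw [h]; group
    calc y = x⁻¹ * (x * y) := by group
      _ = x⁻¹ * S.s * x * S.s⁻¹ := by rw [this]; group
  rw [h2]
  exact ((hx.inv_left.mul_left hs).mul_left hx).mul_left hs.inv_left

/-- (T5) -/
theorem U2_U2 (k l : I) : Commute (S.U2 k) (S.U2 l) :=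
  S.comm_of_s (S.s_U1 k) (S.U1_U2 k l) (S.s_U2 l)

theorem V1_V1 (k l : I) : Commute (S.V1 k) (S.V1 l) := by
  have h := S.comm_of_s (S.s_V2 k) (S.V1_V2 l k).symm (S.s_V1 l)
  have := h.inv_left
  rwa [inv_inv] at this

/-- commuting with `c` -/
theorem c_comm_of {x : Γ} (k : I) (h1 : Commute (S.U1 k) x) (h2 : Commute S.v1 x) :
    Commute (S.c k) x :=
  ((h1.mul_left h2).mul_left h1.inv_left).mul_left h2.inv_left

theorem c'_comm_of {x : Γ} (k : I) (h1 : Commute (S.U2 k) x) (h2 : Commute S.v2 x) :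
    Commute (S.c' k) x :=
  ((h1.mul_left h2).mul_left h1.inv_left).mul_left h2.inv_left

theorem V1_zero : S.V1 0 = S.v1 := by simp [V1, A1_zero]
theorem V2_zero : S.V2 0 = S.v2 := by simp [V2, A2_zero]
theorem U1_zero : S.U1 0 = S.u1 := by simp [U1, A1_zero]
theorem U2_zero : S.U2 0 = S.u2 := by simp [U2, A2_zero]
theorem T_zero : S.T 0 = S.s := by simp [T, A1_zero]

theorem c_U2 (k l : I) : Commute (S.c k) (S.U2 l) :=
  S.c_comm_of k (S.U1_U2 k l) (by rw [← S.V1_zero]; exact S.V1_U2 0 l)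
theorem c_V2 (k l : I) : Commute (S.c k) (S.V2 l) :=
  S.c_comm_of k (S.U1_V2 k l) (by rw [← S.V1_zero]; exact S.V1_V2 0 l)
theorem c_A2 (k l : I) : Commute (S.c k) (S.A2 l) :=
  S.c_comm_of k (S.A2_U1 l k).symm (S.A2v1 l).symm
theorem c'_U1 (k l : I) : Commute (S.c' k) (S.U1 l) :=
  S.c'_comm_of k (S.U1_U2 l k).symm (by rw [← S.V2_zero]; exact (S.U1_V2 l 0).symm)
theorem c'_V1 (k l : I) : Commute (S.c' k) (S.V1 l) :=
  S.c'_comm_of k (S.V1_U2 l k).symm (by rw [← S.V2_zero]; exact (S.V1_V2 l 0).symm)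
theorem c'_A1 (k l : I) : Commute (S.c' k) (S.A1 l) :=
  S.c'_comm_of k (S.A1_U2 l k).symm (S.A1v2 l).symm

/-- The key identity: the two central commutators agree. -/
theorem c_eq_c' (k : I) : S.c k = S.c' k := by
  -- conjugate `U₁ k ⟂ v₂` by `s`
  have h0 : S.s * (S.U1 k * S.v2) = (S.U1 k * S.U2 k) * (S.v2 * S.v1⁻¹) * S.s := by
    calc S.s * (S.U1 k * S.v2) = (S.s * S.U1 k) * S.v2 := by group
      _ = (S.U1 k * S.U2 k) * (S.s * S.v2) := by rw [S.s_U1]; group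
      _ = (S.U1 k * S.U2 k) * (S.v2 * S.v1⁻¹) * S.s := by rw [S.sv2]; group
  have h1 : S.s * (S.v2 * S.U1 k) = (S.v2 * S.v1⁻¹) * (S.U1 k * S.U2 k) * S.s := by
    calc S.s * (S.v2 * S.U1 k) = (S.s * S.v2) * S.U1 k := by group
      _ = (S.v2 * S.v1⁻¹) * (S.s * S.U1 k) := by rw [S.sv2]; group
      _ = (S.v2 * S.v1⁻¹) * (S.U1 k * S.U2 k) * S.s := by rw [S.s_U1]; group
  have h2 : (S.U1 k * S.U2 k) * (S.v2 * S.v1⁻¹) = (S.v2 * S.v1⁻¹) * (S.U1 k * S.U2 k) := by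
    have := S.U1_v2 k
    rw [this.eq] at h0
    exact mul_right_cancel (h0.symm.trans h1)
  -- commutations
  have c1 : S.U2 k * S.v1⁻¹ = S.v1⁻¹ * S.U2 k := by
    have := (S.V1_U2 0 k).inv_left.eq
    rw [S.V1_zero] at this
    exact this.symm
  have c2 : S.U1 k * S.c' k = S.c' k * S.U1 k := (S.c'_U1 k k).symm.eq
  have c3 : S.U1 k * S.v2 = S.v2 * S.U1 k := (S.U1_v2 k).eq
  have c4 : S.v1 * S.v2 = S.v2 * S.v1 := S.v1v2.eq
  have c5 : S.c' k * S.v1 = S.v1 * S.c' k := by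
    have := (S.c'_V1 k 0).eq
    rwa [S.V1_zero] at this
  have c6 : S.c k * S.v2 = S.v2 * S.c k := by
    have := (S.c_V2 k 0).eq
    rwa [S.V2_zero] at this
  have e1 : S.U2 k * S.v2 = S.c' k * S.v2 * S.U2 k := by
    rw [c']
    group
  have e2 : S.U1 k * S.v1⁻¹ = S.v1⁻¹ * (S.c k)⁻¹ * S.U1 k := by
    rw [c]
    group
  -- left side
  have l1 : (S.U1 k * S.U2 k) * (S.v2 * S.v1⁻¹) =
      S.c' k * S.v2 * (S.v1⁻¹ * (S.c k)⁻¹) * (S.U1 k * S.U2 k) := by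
    calc (S.U1 k * S.U2 k) * (S.v2 * S.v1⁻¹)
        = S.U1 k * (S.U2 k * S.v2) * S.v1⁻¹ := by group
      _ = (S.U1 k * S.c' k) * S.v2 * (S.U2 k * S.v1⁻¹) := by rw [e1]; group
      _ = S.c' k * (S.U1 k * S.v2) * (S.v1⁻¹ * S.U2 k) := by rw [c1, c2]; group
      _ = S.c' k * S.v2 * (S.U1 k * S.v1⁻¹) * S.U2 k := by rw [c3]; group
      _ = S.c' k * S.v2 * (S.v1⁻¹ * (S.c k)⁻¹) * (S.U1 k * S.U2 k) := by rw [e2]; group
  rw [l1] at h2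
  have h3 : S.c' k * S.v2 * (S.v1⁻¹ * (S.c k)⁻¹) = S.v2 * S.v1⁻¹ := mul_right_cancel h2
  -- `c' v₂ v₁⁻¹ = v₂ v₁⁻¹ c`
  have h4 : S.c' k * S.v2 * S.v1⁻¹ = S.v2 * S.v1⁻¹ * S.c k := by
    calc S.c' k * S.v2 * S.v1⁻¹ = (S.c' k * S.v2 * (S.v1⁻¹ * (S.c k)⁻¹)) * S.c k := by group
      _ = S.v2 * S.v1⁻¹ * S.c k := by rw [h3]
  -- `v₁⁻¹ c v₁`
  have c7 : S.v2 * S.v1⁻¹ = S.v1⁻¹ * S.v2 := by
    have := S.v1v2.inv_left.eq
    exact this.symm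
  have c8 : S.c' k * S.v1⁻¹ = S.v1⁻¹ * S.c' k := by
    have := S.c'_V1 k 0
    rw [S.V1_zero] at this
    exact this.inv_right.eq
  have h5 : S.v1⁻¹ * (S.c' k * S.v2) = S.v1⁻¹ * (S.c k * S.v2) := by
    calc S.v1⁻¹ * (S.c' k * S.v2) = (S.v1⁻¹ * S.c' k) * S.v2 := by group
      _ = S.c' k * (S.v1⁻¹ * S.v2) := by rw [← c8]; group
      _ = S.c' k * S.v2 * S.v1⁻¹ := by rw [← c7]; group
      _ = S.v2 * S.v1⁻¹ * S.c k := h4
      _ = S.v1⁻¹ * (S.v2 * S.c k) := by rw [c7]; group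
      _ = S.v1⁻¹ * (S.c k * S.v2) := by rw [c6]
  exact (mul_right_cancel (mul_left_cancel h5)).symm

theorem c_U1 (k l : I) : Commute (S.c k) (S.U1 l) := by rw [c_eq_c']; exact S.c'_U1 k l
theorem c_V1 (k l : I) : Commute (S.c k) (S.V1 l) := by rw [c_eq_c']; exact S.c'_V1 k l
theorem c_A1 (k l : I) : Commute (S.c k) (S.A1 l) := by rw [c_eq_c']; exact S.c'_A1 k l

theorem c_s (k : I) : Commute (S.c k) S.s := by
  have h1 : S.s * S.U1 k * S.s⁻¹ = S.U1 k * S.U2 k := by rw [S.s_U1]; group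
  have h2 : S.s * S.v1 * S.s⁻¹ = S.v1 := by rw [S.sv1.eq]; group
  have c1 : S.U2 k * S.v1 = S.v1 * S.U2 k := by
    have := (S.V1_U2 0 k).eq
    rw [S.V1_zero] at this
    exact this.symm
  have h3 : S.s * S.c k * S.s⁻¹ = S.c k := by
    calc S.s * S.c k * S.s⁻¹
        = (S.s * S.U1 k * S.s⁻¹) * (S.s * S.v1 * S.s⁻¹) * (S.s * S.U1 k * S.s⁻¹)⁻¹ *
          (S.s * S.v1 * S.s⁻¹)⁻¹ := by rw [c]; group
      _ = S.U1 k * (S.U2 k * S.v1) * (S.U2 k)⁻¹ * (S.U1 k)⁻¹ * S.v1⁻¹ := by rw [h1, h2]; group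
      _ = S.c k := by rw [c1, c]; group
  have h4 : S.s * S.c k = S.c k * S.s := by
    calc S.s * S.c k = (S.s * S.c k * S.s⁻¹) * S.s := by group
      _ = S.c k * S.s := by rw [h3]
  exact h4.symm

theorem c_T (k l : I) : Commute (S.c k) (S.T l) :=
  (comm_conj (S.c_A1 k l).symm (S.c_s k).symm).symm

theorem c_c (k l : I) : Commute (S.c k) (S.c l) :=
  (S.c_comm_of l (S.c_U1 k l).symm (by rw [← S.V1_zero]; exact (S.c_V1 k 0).symm)).symm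

/-- (T6) -/
theorem U1_V1 (k l : I) : S.U1 k * S.V1 l = S.V1 l * S.U1 k * S.c (k - l) := by
  have h1 : S.U1 (k - l) * S.v1 = S.c (k - l) * S.v1 * S.U1 (k - l) := by rw [c]; group
  have h2 : S.U1 k = (S.A1 l)⁻¹ * S.U1 (k - l) * S.A1 l := by rw [U1_shift, sub_add_cancel]
  have h3 : S.U1 k * S.V1 l = S.c (k - l) * (S.V1 l * S.U1 k) := by
    calc S.U1 k * S.V1 l = (S.A1 l)⁻¹ * (S.U1 (k - l) * S.v1) * S.A1 l := by rw [h2, V1]; group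
      _ = ((S.A1 l)⁻¹ * S.c (k - l)) * S.v1 * S.U1 (k - l) * S.A1 l := by rw [h1]; group
      _ = S.c (k - l) * ((S.A1 l)⁻¹ * S.v1 * S.U1 (k - l) * S.A1 l) := by
          rw [(S.c_A1 (k - l) l).inv_right.symm.eq]; group
      _ = S.c (k - l) * (S.V1 l * S.U1 k) := by rw [h2, V1]; group
  rw [h3]
  exact ((S.c_V1 (k - l) l).mul_right (S.c_U1 (k - l) k)).eq

theorem U2_V2 (k l : I) : S.U2 k * S.V2 l = S.V2 l * S.U2 k * S.c (k - l) := by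
  have h1 : S.U2 (k - l) * S.v2 = S.c (k - l) * S.v2 * S.U2 (k - l) := by
    rw [c_eq_c', c']; group
  have h2 : S.U2 k = (S.A2 l)⁻¹ * S.U2 (k - l) * S.A2 l := by rw [U2_shift, sub_add_cancel]
  have h3 : S.U2 k * S.V2 l = S.c (k - l) * (S.V2 l * S.U2 k) := by
    calc S.U2 k * S.V2 l = (S.A2 l)⁻¹ * (S.U2 (k - l) * S.v2) * S.A2 l := by rw [h2, V2]; group
      _ = ((S.A2 l)⁻¹ * S.c (k - l)) * S.v2 * S.U2 (k - l) * S.A2 l := by rw [h1]; group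
      _ = S.c (k - l) * ((S.A2 l)⁻¹ * S.v2 * S.U2 (k - l) * S.A2 l) := by
          rw [(S.c_A2 (k - l) l).inv_right.symm.eq]; group
      _ = S.c (k - l) * (S.V2 l * S.U2 k) := by rw [h2, V2]; group
  rw [h3]
  exact ((S.c_V2 (k - l) l).mul_right (S.c_U2 (k - l) k)).eq

/-- (T8) -/
theorem U2_succ (k : I) : S.U2 (k + S.e) = S.U2 k * S.U2 k := by
  have h : S.U2 S.e = S.u2 * S.u2 := S.u2e
  have h2 : S.U2 (k + S.e) = (S.A2 k)⁻¹ * S.U2 S.e * S.A2 k := by rw [U2_shift, add_comm]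
  rw [h2, h, U2]
  group

theorem V1_pred (k : I) : S.V1 k = S.V1 (k + S.e) * S.V1 (k + S.e) := by
  have h : S.V1 (-S.e) = S.v1 * S.v1 := by
    rw [V1, S.A1_neg, inv_inv]
    exact S.v1e
  have h2 : S.V1 k = (S.A1 (k + S.e))⁻¹ * S.V1 (-S.e) * S.A1 (k + S.e) := by
    rw [V1_shift]
    congr 1
    abel
  rw [h2, h, V1]
  group

theorem c_succ (k : I) : S.c (k + S.e) = S.c k * S.c k := by
  rw [c_eq_c' S (k + S.e), c', U2_succ]
  have h1 : S.U2 k * S.v2 * (S.U2 k)⁻¹ * S.v2⁻¹ = S.c k := (S.c_eq_c' k).symm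
  have h2 : Commute (S.U2 k) (S.c k) := (S.c_U2 k k).symm
  calc S.U2 k * S.U2 k * S.v2 * (S.U2 k * S.U2 k)⁻¹ * S.v2⁻¹
      = S.U2 k * (S.U2 k * S.v2 * (S.U2 k)⁻¹ * S.v2⁻¹) * S.v2 * (S.U2 k)⁻¹ * S.v2⁻¹ := by group
    _ = (S.U2 k * S.c k) * S.v2 * (S.U2 k)⁻¹ * S.v2⁻¹ := by rw [h1]
    _ = S.c k * (S.U2 k * S.v2 * (S.U2 k)⁻¹ * S.v2⁻¹) := by rw [h2.eq]; group
    _ = S.c k * S.c k := by rw [h1]

theorem c_zero : S.c 0 = 1 := by
  rw [c, U1_zero, S.u1v1.eq]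
  group

/-- (T9) moving letters to the left of `A₁ k A₂ l` -/
theorem mv_u1 (k l : I) : S.A1 k * S.A2 l * S.u1 = S.U1 (-k) * (S.A1 k * S.A2 l) := by
  rw [U1, S.A1_neg, inv_inv]
  calc S.A1 k * S.A2 l * S.u1 = S.A1 k * (S.A2 l * S.u1) := by group
    _ = _ := by rw [(S.A2u1 l).eq]; group

theorem mv_v1 (k l : I) : S.A1 k * S.A2 l * S.v1 = S.V1 (-k) * (S.A1 k * S.A2 l) := by
  rw [V1, S.A1_neg, inv_inv]
  calc S.A1 k * S.A2 l * S.v1 = S.A1 k * (S.A2 l * S.v1) := by group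
    _ = _ := by rw [(S.A2v1 l).eq]; group

theorem mv_u2 (k l : I) : S.A1 k * S.A2 l * S.u2 = S.U2 (-l) * (S.A1 k * S.A2 l) := by
  rw [U2, S.A2_neg, inv_inv, (S.A12 k l).eq]
  calc S.A2 l * S.A1 k * S.u2 = S.A2 l * (S.A1 k * S.u2) := by group
    _ = _ := by rw [(S.A1u2 k).eq]; group

theorem mv_v2 (k l : I) : S.A1 k * S.A2 l * S.v2 = S.V2 (-l) * (S.A1 k * S.A2 l) := by
  rw [V2, S.A2_neg, inv_inv, (S.A12 k l).eq]
  calc S.A2 l * S.A1 k * S.v2 = S.A2 l * (S.A1 k * S.v2) := by group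
    _ = _ := by rw [(S.A1v2 k).eq]; group

theorem mv_s (k l : I) : S.A1 k * S.A2 l * S.s = S.T (l - k) * (S.A1 k * S.A2 l) := by
  have h1 : S.A1 k * S.A2 l = S.A1 (k - l) * S.b l := by
    rw [b, ← mul_assoc, ← S.A1_add, sub_add_cancel]
  have h2 : S.A1 (l - k) = (S.A1 (k - l))⁻¹ := by rw [← S.A1_neg, neg_sub]
  rw [h1, T, h2, inv_inv]
  calc S.A1 (k - l) * S.b l * S.s = S.A1 (k - l) * (S.b l * S.s) := by group
    _ = _ := by rw [(S.b_s l).eq]; group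

end Sys

end Pool.Agent.MP6f2db1
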