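import Pool.Agent.Lib.MP_6f2db1_al.Powers
import Pool.Agent.Lib.MP_6f2db1_al.Sys

set_option autoImplicit false

/-!
# Uniform identities: the group of families of short elements

For a family of parameters `ι` with a size function `sz`, the families of elements of `F` which are
short modulo short relators form a group, in which the families of uniformly cheap elements are a
normal subgroup.  Group identities in the quotient are identities in `F` modulo `K m`, with `m`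
linear in the size.
-/

namespace Pool.Agent.MP6f2db1

section Germ

variable {ι : Type*} (sz : ι → ℕ)

/-- Families of short elements. -/
def Pg : Subgroup (ι → F) where
  carrier := {w | ∃ C, ∀ i, w i ∈ Sh (C * (sz i + 1))}
  one_mem' := ⟨0, fun _ => one_mem_Sh⟩
  mul_mem' := by
    rintro w w' ⟨C, hC⟩ ⟨C', hC'⟩
    exact ⟨C + C', fun i => by
      rw [add_mul]
      exact Sh_mul (hC i) (hC' i)⟩
  inv_mem' := by
    rintro w ⟨C, hC⟩
    exact ⟨2 * C, fun i => by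
      rw [mul_assoc]
      exact Sh_inv (hC i)⟩

/-- Families of cheap elements. -/
def Qg : Subgroup (Pg sz) where
  carrier := {w | ∃ C, ∀ i, w.1 i ∈ K (C * (sz i + 1))}
  one_mem' := ⟨0, fun _ => one_mem _⟩
  mul_mem' := by
    rintro w w' ⟨C, hC⟩ ⟨C', hC'⟩
    refine ⟨C + C', fun i => ?_⟩
    rw [add_mul]
    exact mul_mem (K_mono (Nat.le_add_right _ _) (hC i)) (K_mono (Nat.le_add_left _ _) (hC' i))
  inv_mem' := by
    rintro w ⟨C, hC⟩
    exact ⟨C, fun i => inv_mem (hC i)⟩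

instance Qg_normal : (Qg sz).Normal := by
  constructor
  rintro w ⟨C, hC⟩ ⟨g, C', hg⟩
  refine ⟨C + C', fun i => ?_⟩
  rw [add_mul]
  exact K_conj' (hC i) (hg i)

/-- The group of families modulo cheap families. -/
abbrev Gm := Pg sz ⧸ Qg sz

variable {sz}

theorem mk_eq_iff (w w' : Pg sz) :
    (QuotientGroup.mk w : Gm sz) = QuotientGroup.mk w' ↔
      ∃ C, ∀ i, Eqv (C * (sz i + 1)) (w.1 i) (w'.1 i) := by
  have h1 : (QuotientGroup.mk w : Gm sz) = QuotientGroup.mk w' ↔ w * w'⁻¹ ∈ Qg sz := by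
    rw [← QuotientGroup.eq_one_iff, QuotientGroup.mk_mul, QuotientGroup.mk_inv, mul_inv_eq_one]
  rw [h1]
  rfl

/-- Bounded families of integers. -/
def Bd (sz : ι → ℕ) : AddSubgroup (ι → ℤ) where
  carrier := {k | ∃ C : ℕ, ∀ i, |k i| ≤ 2 ^ (C * (sz i + 1))}
  zero_mem' := ⟨0, fun i => by simp⟩
  add_mem' := by
    rintro k l ⟨C, hC⟩ ⟨C', hC'⟩
    refine ⟨C + C' + 1, fun i => ?_⟩
    have h1 := hC i
    have h2 := hC' i
    have h3 : |k i + l i| ≤ |k i| + |l i| := abs_add_le _ _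
    have h4 : (2 : ℤ) ^ (C * (sz i + 1)) ≤ 2 ^ ((C + C') * (sz i + 1)) :=
      pow_le_pow_right₀ (by norm_num) (by rw [add_mul]; omega)
    have h5 : (2 : ℤ) ^ (C' * (sz i + 1)) ≤ 2 ^ ((C + C') * (sz i + 1)) :=
      pow_le_pow_right₀ (by norm_num) (by rw [add_mul]; omega)
    have h6 : (2 : ℤ) * 2 ^ ((C + C') * (sz i + 1)) ≤ 2 ^ ((C + C' + 1) * (sz i + 1)) := by
      rw [← pow_succ']
      apply pow_le_pow_right₀ (by norm_num)
      have h7 : (C + C' + 1) * (sz i + 1) = (C + C') * (sz i + 1) + (sz i + 1) := by ring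
      rw [h7]
      omega
    calc |(k + l) i| ≤ |k i| + |l i| := h3
      _ ≤ 2 * 2 ^ ((C + C') * (sz i + 1)) := by linarith
      _ ≤ _ := h6
  neg_mem' := by
    rintro k ⟨C, hC⟩
    exact ⟨C, fun i => by simpa using hC i⟩

theorem zpow_mem_Pg {x : F} (hx : Dbl x) (k : Bd sz) : (fun i => x ^ (k.1 i)) ∈ Pg sz := by
  obtain ⟨k, C, hC⟩ := k
  refine ⟨6 * C + 2, fun i => ?_⟩
  refine Sh_mono ?_ (zpow_Sh hx (C * (sz i + 1)) (k i) (hC i))
  have h7 : (6 * C + 2) * (sz i + 1) = 6 * (C * (sz i + 1)) + 2 * (sz i + 1) := by ring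
  rw [h7]
  omega

/-- The family of powers of `x`. -/
def Pw {x : F} (hx : Dbl x) (k : Bd sz) : Gm sz :=
  QuotientGroup.mk ⟨fun i => x ^ (k.1 i), zpow_mem_Pg hx k⟩

theorem const_mem_Pg (x : F) : (fun _ => x) ∈ Pg sz :=
  ⟨x.norm, fun i => Sh_of_norm (by nlinarith [Nat.zero_le (sz i), Nat.zero_le x.norm])⟩

/-- The constant family. -/
def Cst (x : F) : Gm sz := QuotientGroup.mk ⟨fun _ => x, const_mem_Pg x⟩

theorem Cst_mul (x y : F) : (Cst (x * y) : Gm sz) = (Cst x : Gm sz) * (Cst y : Gm sz) := rfl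
theorem Cst_inv (x : F) : (Cst x⁻¹ : Gm sz) = (Cst x : Gm sz)⁻¹ := rfl
theorem Cst_one : (Cst 1 : Gm sz) = 1 := rfl

theorem Cst_of_R {x : F} (hx : x ∈ R) : (Cst x : Gm sz) = 1 := by
  rw [← Cst_one, Cst, Cst, mk_eq_iff]
  refine ⟨0, fun i => ?_⟩
  show x * 1⁻¹ ∈ _
  rw [inv_one, mul_one]
  exact K_rel' hx

theorem Pw_add {x : F} (hx : Dbl x) (k l : Bd sz) : Pw hx (k + l) = Pw hx k * Pw hx l := by
  rw [Pw, Pw, Pw, ← QuotientGroup.mk_mul]
  congr 1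
  apply Subtype.ext
  funext i
  exact zpow_add x (k.1 i) (l.1 i)

theorem Pw_comm_of {x y : F} (hx : Dbl x) (h : cm x y ∈ R) (k : Bd sz) :
    Commute (Pw hx k) (Cst y : Gm sz) := by
  show Pw hx k * Cst y = Cst y * Pw hx k
  rw [Pw, Cst, ← QuotientGroup.mk_mul, ← QuotientGroup.mk_mul, mk_eq_iff]
  obtain ⟨k, C, hC⟩ := k
  refine ⟨12 * C + 4, fun i => ?_⟩
  show x ^ (k i) * y * (y * x ^ (k i))⁻¹ ∈ _
  have h1 := cm_zpow_of_R hx h (C * (sz i + 1)) (k i) (hC i)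
  have h2 : x ^ (k i) * y * (y * x ^ (k i))⁻¹ = cm (x ^ k i) y := by
    rw [cm]
    group
  rw [h2]
  refine K_mono ?_ h1
  have h7 : (12 * C + 4) * (sz i + 1) = 12 * (C * (sz i + 1)) + 4 * (sz i + 1) := by ring
  rw [h7]
  omega

theorem bd_common (k l : Bd sz) :
    ∃ C : ℕ, ∀ i, |k.1 i| ≤ 2 ^ (C * (sz i + 1)) ∧ |l.1 i| ≤ 2 ^ (C * (sz i + 1)) := by
  obtain ⟨k, C, hC⟩ := k
  obtain ⟨l, C', hC'⟩ := l
  refine ⟨C + C', fun i => ⟨(hC i).trans ?_, (hC' i).trans ?_⟩⟩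
  · exact pow_le_pow_right₀ (by norm_num) (by rw [add_mul]; omega)
  · exact pow_le_pow_right₀ (by norm_num) (by rw [add_mul]; omega)

theorem Pw_12 (k l : Bd sz) : Commute (Pw dbl_a1 k : Gm sz) (Pw dbl_a2 l) := by
  show Pw dbl_a1 k * Pw dbl_a2 l = Pw dbl_a2 l * Pw dbl_a1 k
  rw [Pw, Pw, ← QuotientGroup.mk_mul, ← QuotientGroup.mk_mul, mk_eq_iff]
  obtain ⟨C, hC⟩ := bd_common k l
  refine ⟨24 * C + 8, fun i => ?_⟩
  show a1 ^ (k.1 i) * a2 ^ (l.1 i) * (a2 ^ (l.1 i) * a1 ^ (k.1 i))⁻¹ ∈ _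
  have h1 := cm_a1_a2 (C * (sz i + 1)) (k.1 i) (l.1 i) (hC i).1 (hC i).2
  have h2 : a1 ^ (k.1 i) * a2 ^ (l.1 i) * (a2 ^ (l.1 i) * a1 ^ (k.1 i))⁻¹ =
      cm (a1 ^ (k.1 i)) (a2 ^ (l.1 i)) := by
    rw [cm]
    group
  rw [h2]
  refine K_mono ?_ h1
  have h7 : (24 * C + 8) * (sz i + 1) = 24 * (C * (sz i + 1)) + 8 * (sz i + 1) := by ring
  rw [h7]
  omega

theorem b_mem_Pg (k : Bd sz) : (fun i => (a1 * a2) ^ (k.1 i)) ∈ Pg sz := by
  obtain ⟨k, C, hC⟩ := k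
  refine ⟨100 * C + 100, fun i => ?_⟩
  refine Sh_mono ?_ (b_Sh (C * (sz i + 1)) (k i) (hC i))
  have h7 : (100 * C + 100) * (sz i + 1) = 100 * (C * (sz i + 1)) + 100 * (sz i + 1) := by ring
  rw [h7]
  omega

theorem Pw_b (k : Bd sz) :
    (Pw dbl_a1 k * Pw dbl_a2 k : Gm sz) =
      QuotientGroup.mk ⟨fun i => (a1 * a2) ^ (k.1 i), b_mem_Pg k⟩ := by
  symm
  rw [Pw, Pw, ← QuotientGroup.mk_mul, mk_eq_iff]
  obtain ⟨k, C, hC⟩ := k
  refine ⟨100 * C + 100, fun i => ?_⟩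
  refine (b_zpow (C * (sz i + 1)) (k i) (hC i)).mono ?_
  have h7 : (100 * C + 100) * (sz i + 1) = 100 * (C * (sz i + 1)) + 100 * (sz i + 1) := by ring
  rw [h7]
  omega

theorem Pw_s (k : Bd sz) : Commute (Pw dbl_a1 k * Pw dbl_a2 k : Gm sz) (Cst ss) := by
  rw [Pw_b]
  show QuotientGroup.mk _ * Cst ss = Cst ss * QuotientGroup.mk _
  rw [Cst, ← QuotientGroup.mk_mul, ← QuotientGroup.mk_mul, mk_eq_iff]
  obtain ⟨k, C, hC⟩ := k
  refine ⟨200 * C + 200, fun i => ?_⟩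
  show (a1 * a2) ^ (k i) * ss * (ss * (a1 * a2) ^ (k i))⁻¹ ∈ _
  have h1 := cm_b_s (C * (sz i + 1)) (k i) (hC i)
  have h2 : (a1 * a2) ^ (k i) * ss * (ss * (a1 * a2) ^ (k i))⁻¹ = cm ((a1 * a2) ^ (k i)) ss := by
    rw [cm]
    group
  rw [h2]
  refine K_mono ?_ h1
  have h7 : (200 * C + 200) * (sz i + 1) = 200 * (C * (sz i + 1)) + 200 * (sz i + 1) := by ring
  rw [h7]
  omega

theorem comm_of_eq_one {G : Type*} [Group G] {X Y : G} (h : X * Y * X⁻¹ * Y⁻¹ = 1) :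
    X * Y = Y * X := by
  calc X * Y = (X * Y * X⁻¹ * Y⁻¹) * (Y * X) := by group
    _ = Y * X := by rw [h, one_mul]

theorem comm_of_cm {x y : F} (h : cm x y ∈ R) : Commute (Cst x : Gm sz) (Cst y) := by
  have h1 : (Cst (cm x y) : Gm sz) = 1 := Cst_of_R h
  rw [cm, Cst_mul, Cst_mul, Cst_mul, Cst_inv, Cst_inv] at h1
  exact comm_of_eq_one h1

/-- the constant family one -/
def oneBd : Bd sz := ⟨fun _ => 1, 0, fun _ => by simp⟩

theorem Pw_one {x : F} (hx : Dbl x) : (Pw hx oneBd : Gm sz) = Cst x := by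
  rw [Pw, Cst]
  congr 1
  apply Subtype.ext
  funext i
  exact zpow_one x

theorem eq_of_rel {x y : F} (h : x * y⁻¹ ∈ R) : (Cst x : Gm sz) = Cst y := by
  have h1 : (Cst (x * y⁻¹) : Gm sz) = 1 := Cst_of_R h
  rw [Cst_mul, Cst_inv] at h1
  exact mul_inv_eq_one.1 h1

/-- The system of relations in the group of families. -/
def sysGm (sz : ι → ℕ) : Sys (Gm sz) (Bd sz) where
  A1 := Pw dbl_a1
  A2 := Pw dbl_a2
  u1 := Cst u1
  u2 := Cst u2
  v1 := Cst v1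
  v2 := Cst v2
  s := Cst ss
  e := oneBd
  A1_add := Pw_add _
  A2_add := Pw_add _
  A12 := Pw_12
  A1u2 := Pw_comm_of _ (by simp [R])
  A1v2 := Pw_comm_of _ (by simp [R])
  A2u1 := Pw_comm_of _ (by simp [R])
  A2v1 := Pw_comm_of _ (by simp [R])
  As := Pw_s
  u1u2 := comm_of_cm (by simp [R])
  u1v2 := comm_of_cm (by simp [R])
  v1u2 := comm_of_cm (by simp [R])
  v1v2 := comm_of_cm (by simp [R])
  su2 := comm_of_cm (by simp [R])
  sv1 := comm_of_cm (by simp [R])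
  su1 := by
    have h := eq_of_rel (sz := sz) (x := ss * u1 * ss⁻¹) (y := u1 * u2) (by simp [R])
    rw [Cst_mul, Cst_mul, Cst_mul, Cst_inv] at h
    rw [← h]
    group
  sv2 := by
    have h := eq_of_rel (sz := sz) (x := ss * v2 * ss⁻¹) (y := v2 * v1⁻¹) (by simp [R])
    rw [Cst_mul, Cst_mul, Cst_mul, Cst_inv, Cst_inv] at h
    rw [← h]
    group
  u2e := by
    have h := eq_of_rel (sz := sz) (x := a2⁻¹ * u2 * a2) (y := u2 * u2) (by simp [R])
    rw [Cst_mul, Cst_mul, Cst_mul, Cst_inv] at h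
    rw [Pw_one]
    exact h
  v1e := by
    have h := eq_of_rel (sz := sz) (x := a1 * v1 * a1⁻¹) (y := v1 * v1) (by simp [R])
    rw [Cst_mul, Cst_mul, Cst_mul, Cst_inv] at h
    rw [Pw_one]
    exact h
  u1v1 := comm_of_cm (by simp [R])

end Germ

end Pool.Agent.MP6f2db1
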