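import Pool.Agent.Lib.MP_6f2db1_al.Step

set_option autoImplicit false

/-!
# Blocks of commuting tokens whose exponents have vanishing binary sum
-/

namespace Pool.Agent.MP6f2db1

/-- The value of a list of signed powers of two. -/
def val (L : List (ℤ × Bool)) : ℚ := (L.map fun x => cond x.2 ((2 : ℚ) ^ x.1) (-(2 : ℚ) ^ x.1)).sum

theorem val_cons (x : ℤ × Bool) (L : List (ℤ × Bool)) :
    val (x :: L) = cond x.2 ((2 : ℚ) ^ x.1) (-(2 : ℚ) ^ x.1) + val L := by
  simp [val]

theorem val_append (L L' : List (ℤ × Bool)) : val (L ++ L') = val L + val L' := by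
  simp [val]

theorem val_perm {L L' : List (ℤ × Bool)} (h : L.Perm L') : val L = val L' :=
  (h.map _).sum_eq

theorem Rg.perm {b : ℤ} {L L' : List (ℤ × Bool)} (h : L.Perm L') (hL : Rg b L) : Rg b L' :=
  fun x hx => hL x (h.mem_iff.2 hx)

theorem val_multiple (k : ℤ) (L : List (ℤ × Bool)) (h : ∀ x ∈ L, k + 1 ≤ x.1) :
    ∃ q : ℤ, val L = 2 ^ k * (2 * q) := by
  induction L with
  | nil => exact ⟨0, by simp [val]⟩
  | cons x L ih =>
    obtain ⟨q, hq⟩ := ih fun y hy => h y (List.mem_cons_of_mem _ hy)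
    have hx : k + 1 ≤ x.1 := h x List.mem_cons_self
    obtain ⟨n, hn⟩ := Int.le.dest hx
    have e : (2 : ℚ) ^ x.1 = 2 ^ k * (2 * (2 : ℤ) ^ n) := by
      rw [← hn, zpow_add₀ (by norm_num), zpow_add₀ (by norm_num)]
      push_cast
      rw [zpow_natCast]
      ring
    rw [val_cons, hq, e]
    cases x.2
    · refine ⟨q - 2 ^ n, ?_⟩
      push_cast
      simp only [cond_false]
      ring
    · refine ⟨q + 2 ^ n, ?_⟩
      push_cast
      simp only [cond_true]
      ring

section

variable {g : ℤ → F} {m : ℕ} {B : ℤ}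
  (sh : ∀ k ε, |k| ≤ B → sg ε (g k) ∈ Sh m)
  (cc : ∀ k l ε δ, |k| ≤ B → |l| ≤ B →
    Eqv m (sg ε (g k) * sg δ (g l)) (sg δ (g l) * sg ε (g k)))
  (dd : ∀ k ε, |k| + 1 ≤ B → Eqv m (sg ε (g k) * sg ε (g k)) (sg ε (g (k + 1))))

include sh cc

theorem Wd_perm {L L' : List (ℤ × Bool)} (h : L.Perm L') (hL : Rg B L) :
    Eqv (L.length * m) (Wd g L) (Wd g L') := by
  induction h with
  | nil => exact Eqv.refl _
  | @cons x l₁ l₂ _ ih =>
    rw [Rg.cons] at hL
    rw [Wd_cons, Wd_cons, List.length_cons]
    exact ((ih hL.2).mul_left (sh x.1 x.2 hL.1)).mono (by rw [add_mul]; omega)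
  | swap x y l =>
    rw [Rg.cons, Rg.cons] at hL
    rw [Wd_cons, Wd_cons, Wd_cons, Wd_cons, ← mul_assoc, ← mul_assoc, List.length_cons,
      List.length_cons]
    exact ((cc y.1 x.1 y.2 x.2 hL.1 hL.2.1).mul_right _).mono
      (Nat.le_mul_of_pos_left _ (by omega))
  | @trans l₁ l₂ l₃ h1 _ ih1 ih2 =>
    have h2 := ih2 (hL.perm h1)
    rw [← h1.length_eq] at h2
    exact (ih1 hL).trans h2

include dd

theorem merge_step {b : ℤ} (L : List (ℤ × Bool)) (hL : Rg b L) (hb : b + 1 ≤ B) :
    (∃ L' : List (ℤ × Bool), L'.length < L.length ∧ val L' = val L ∧ Rg (b + 1) L' ∧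
      Eqv (L.length * m) (Wd g L) (Wd g L')) ∨ L = [] ∨
    (∃ k q : ℤ, (∃ y ∈ L, y.1 = k) ∧ (∀ y ∈ L, k ≤ y.1) ∧ val L = 2 ^ k * (2 * q + 1)) := by
  classical
  by_cases hne : L = []
  · exact Or.inr (Or.inl hne)
  have hne' : L.toFinset.Nonempty := by
    rwa [List.toFinset_nonempty_iff]
  obtain ⟨x, hx, hmin⟩ := L.toFinset.exists_min_image (fun y => y.1) hne'
  rw [List.mem_toFinset] at hx
  have hmin' : ∀ y ∈ L, x.1 ≤ y.1 := fun y hy => hmin y (List.mem_toFinset.2 hy)
  have hp : L.Perm (x :: L.erase x) := List.perm_cons_erase hx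
  have hLB : Rg B L := hL.mono (by linarith)
  by_cases hy : ∃ y ∈ L.erase x, y.1 = x.1
  · left
    obtain ⟨y, hy, hyx⟩ := hy
    have hp2 : (L.erase x).Perm (y :: (L.erase x).erase y) := List.perm_cons_erase hy
    set M := (L.erase x).erase y with hM
    have hp3 : L.Perm (x :: y :: M) := hp.trans (hp2.cons x)
    have hR := hL.perm hp3
    have hE := Wd_perm sh cc hp3 hLB
    have hlen : L.length = M.length + 2 := by
      rw [hp3.length_eq]
      rfl
    have hv := val_perm hp3
    rw [Rg.cons, Rg.cons] at hR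
    rw [val_cons, val_cons] at hv
    rw [Wd_cons, Wd_cons, hyx] at hE
    rw [hyx] at hv
    by_cases hs : x.2 = y.2
    · refine ⟨(x.1 + 1, x.2) :: M, ?_, ?_, ?_, ?_⟩
      · rw [hlen, List.length_cons]
        omega
      · rw [val_cons, hv, ← hs]
        have e : (2 : ℚ) ^ (x.1 + 1) = 2 ^ x.1 + 2 ^ x.1 := by
          rw [zpow_add₀ (by norm_num), zpow_one]
          ring
        cases x.2
        · simp only [cond_false, e]
          ring
        · simp only [cond_true, e]
          ring
      · rw [Rg.cons]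
        refine ⟨?_, hR.2.2.mono (by linarith)⟩
        have := abs_add_le x.1 1
        rw [abs_one] at this
        linarith [hR.1]
      · rw [Wd_cons]
        refine hE.trans ?_
        rw [← hs, ← mul_assoc]
        exact ((dd x.1 x.2 (by linarith [hR.1])).mul_right _).mono
          (Nat.le_mul_of_pos_left _ (by omega))
    · refine ⟨M, by omega, ?_, hR.2.2.mono (by linarith), ?_⟩
      · rw [hv]
        have hs' : y.2 = !x.2 := by
          revert hs
          cases x.2 <;> cases y.2 <;> simp
        rw [hs']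
        cases x.2
        · simp
        · simp
      · have hs' : y.2 = !x.2 := by
          revert hs
          cases x.2 <;> cases y.2 <;> simp
        rw [hs', sg_not, mul_inv_cancel_left] at hE
        exact hE
  · right
    right
    push Not at hy
    have hy' : ∀ y ∈ L.erase x, x.1 + 1 ≤ y.1 := by
      intro y hyy
      have h1 := hmin' y (List.mem_of_mem_erase hyy)
      have h2 := hy y hyy
      omega
    obtain ⟨q, hq⟩ := val_multiple x.1 _ hy'
    have hv := val_perm hp
    rw [val_cons, hq] at hv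
    have hv' : ∃ q' : ℤ, val L = 2 ^ x.1 * (2 * q' + 1) := by
      cases hx2 : x.2
      · rw [hx2] at hv
        refine ⟨q - 1, ?_⟩
        rw [hv]
        simp only [cond_false]
        push_cast
        ring
      · rw [hx2] at hv
        refine ⟨q, ?_⟩
        rw [hv]
        simp only [cond_true]
        ring
    obtain ⟨q', hq'⟩ := hv'
    exact ⟨x.1, q', ⟨x, hx, rfl⟩, hmin', hq'⟩

/-- Blocks with vanishing value are cheap. -/
theorem Wd_zero (n : ℕ) : ∀ L : List (ℤ × Bool), L.length ≤ n → Rg (B - n) L → val L = 0 →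
    Wd g L ∈ K (n * m) := by
  induction n with
  | zero =>
    intro L hlen _ _
    have : L = [] := List.length_eq_zero_iff.1 (by omega)
    rw [this]
    exact one_mem _
  | succ n ih =>
    intro L hlen hR hv
    have hn : ((n + 1 : ℕ) : ℤ) = n + 1 := by push_cast; ring
    rw [hn] at hR
    rcases merge_step sh cc dd L hR (by linarith [Int.natCast_nonneg n]) with
      ⟨L', h1, h2, h3, h4⟩ | h | ⟨k, q, _, _, hq⟩
    · have h5 := ih L' (by omega) (by
        have e : B - (n + 1) + 1 = B - n := by ring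
        rw [e] at h3
        exact h3) (h2.trans hv)
      exact (h4.mono (Nat.mul_le_mul_right _ hlen)).mem_K
        (K_mono (Nat.mul_le_mul_right _ (by omega)) h5)
    · rw [h]
      exact one_mem _
    · exfalso
      rw [hq, mul_eq_zero] at hv
      rcases hv with hv | hv
      · exact absurd hv (zpow_ne_zero _ (by norm_num))
      · have : (2 * q + 1 : ℤ) = 0 := by exact_mod_cast hv
        omega

/-- Blocks with integral value are cheap if the tokens with exponents `≥ 0` are. -/
theorem Wd_int (hpos : ∀ k : ℤ, 0 ≤ k → k ≤ B → g k ∈ K m) (n : ℕ) :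
    ∀ L : List (ℤ × Bool), L.length ≤ n → Rg (B - n) L → (∃ z : ℤ, val L = z) →
    Wd g L ∈ K (n * m) := by
  induction n with
  | zero =>
    intro L hlen _ _
    have : L = [] := List.length_eq_zero_iff.1 (by omega)
    rw [this]
    exact one_mem _
  | succ n ih =>
    intro L hlen hR hv
    have hn : ((n + 1 : ℕ) : ℤ) = n + 1 := by push_cast; ring
    rw [hn] at hR
    rcases merge_step sh cc dd L hR (by linarith [Int.natCast_nonneg n]) with
      ⟨L', h1, h2, h3, h4⟩ | h | ⟨k, q, hk, hmin, hq⟩
    · obtain ⟨z, hz⟩ := hv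
      have h5 := ih L' (by omega) (by
        have e : B - (n + 1) + 1 = B - n := by ring
        rw [e] at h3
        exact h3) ⟨z, h2.trans hz⟩
      exact (h4.mono (Nat.mul_le_mul_right _ hlen)).mem_K
        (K_mono (Nat.mul_le_mul_right _ (by omega)) h5)
    · rw [h]
      exact one_mem _
    · by_cases hk0 : 0 ≤ k
      · -- all exponents are nonnegative
        have : ∀ M : List (ℤ × Bool), (∀ y ∈ M, y ∈ L) → Wd g M ∈ K ((n + 1) * m) := by
          intro M
          induction M with
          | nil => exact fun _ => one_mem _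
          | cons x M ihM =>
            intro hM
            rw [Wd_cons]
            have hx := hM x List.mem_cons_self
            have h6 : g x.1 ∈ K m := hpos x.1 (hk0.trans (hmin x hx)) (by
              have := hR x hx
              have := le_abs_self x.1
              linarith [Int.natCast_nonneg n])
            have h7 : sg x.2 (g x.1) ∈ K m := by
              cases x.2
              · exact inv_mem h6
              · exact h6
            exact mul_mem (K_mono (Nat.le_mul_of_pos_left _ (by omega)) h7)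
              (ihM fun y hy => hM y (List.mem_cons_of_mem _ hy))
        exact this L fun y hy => hy
      · exfalso
        obtain ⟨z, hz⟩ := hv
        obtain ⟨j, hj⟩ : ∃ j : ℕ, k = -((j : ℤ) + 1) := ⟨(-k - 1).toNat, by omega⟩
        rw [hz, hj, zpow_neg] at hq
        have h2 : (2 : ℚ) ^ ((j : ℤ) + 1) ≠ 0 := zpow_ne_zero _ (by norm_num)
        have h3 : (z : ℚ) * 2 ^ ((j : ℤ) + 1) = 2 * q + 1 := by
          rw [hq]
          field_simp
        rw [zpow_add₀ (by norm_num), zpow_natCast, zpow_one] at h3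
        have h4 : z * (2 ^ j * 2) = 2 * q + 1 := by exact_mod_cast h3
        have h5 : 2 * (z * 2 ^ j) = 2 * q + 1 := by rw [← h4]; ring
        omega

end

/-- The tokens `C k` with `k ≥ 0` are cheap. -/
theorem C_pos {m : ℕ} {B : ℤ} (hF : Facts m B) (k : ℕ) (hk : (k : ℤ) ≤ B) : tok .C k ∈ K m := by
  induction k with
  | zero => exact hF.c0
  | succ k ih =>
    have hk' : (k : ℤ) ≤ B := by push_cast at hk; linarith
    have h1 := ih hk'
    have h2 := hF.dC k true (by rwa [Nat.abs_cast])
    have h3 := h2.symm.mem_K (mul_mem h1 h1)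
    push_cast
    exact h3

/-- A collected form with trivial value is cheap. -/
theorem H_mem_K {m : ℕ} {B : ℤ} (hF : Facts m B) {T : ℕ} (σ : St) (hT : σ.tot ≤ T)
    (hin : σ.In (B - T)) (hs : FreeGroup.mk σ.s = 1) (hu : FreeGroup.mk σ.u1 = 1)
    (hv : FreeGroup.mk σ.v2 = 1)
    (hv1 : (σ.v1.map fun x => cond x.2 ((2 : ℚ) ^ (-x.1)) (-(2 : ℚ) ^ (-x.1))).sum = 0)
    (hu2 : val σ.u2 = 0) (hc : ∃ z : ℤ, val σ.c = z) : σ.H ∈ K (T * m) := by
  unfold St.tot at hT
  have hTn : (0 : ℤ) ≤ T := Int.natCast_nonneg T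
  have e1 : W .S σ.s = 1 := by rw [W, Wd_eq_lift, hs, map_one]
  have e2 : W .U1 σ.u1 = 1 := by rw [W, Wd_eq_lift, hu, map_one]
  have e3 : W .V2 σ.v2 = 1 := by rw [W, Wd_eq_lift, hv, map_one]
  rw [St.H, e1, e2, e3]
  simp only [one_mul]
  refine mul_mem (mul_mem ?_ ?_) ?_
  · -- the block of `V₁` tokens
    have h1 : W .V1 σ.v1 = Wd (fun k => tok .V1 (-k)) (σ.v1.map fun x => (-x.1, x.2)) := by
      rw [W, Wd, Wd, List.map_map]
      congr 1
      apply List.map_congr_left
      intro x _
      simp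
    rw [h1]
    refine Wd_zero (g := fun k => tok .V1 (-k)) (B := B)
      (fun k ε hk => hF.sh .V1 _ ε (by rwa [abs_neg]))
      (fun k l ε δ hk hl => hF.comm .V1 .V1 _ _ ε δ rfl (by rwa [abs_neg]) (by rwa [abs_neg]))
      (fun k ε hk => ?_) T _ ?_ ?_ ?_
    · have h2 := hF.dV1 (-(k + 1)) ε (by
        rw [abs_neg]
        have := abs_add_le k 1
        rw [abs_one] at this
        linarith)
      have h3 : -(k + 1) + 1 = -k := by ring
      rw [h3] at h2
      exact h2
    · rw [List.length_map]
      omega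
    · exact hin.v1.map (fun k => -k) id fun k hk => by rwa [abs_neg]
    · rw [val, List.map_map]
      exact hv1
  · exact Wd_zero (g := tok .U2) (B := B)
      (fun k ε hk => hF.sh .U2 _ ε hk)
      (fun k l ε δ hk hl => hF.comm .U2 .U2 _ _ ε δ rfl hk hl)
      (fun k ε hk => hF.dU2 k ε (by linarith)) T _ (by omega) hin.u2 hu2
  · exact Wd_int (g := tok .C) (B := B)
      (fun k ε hk => hF.sh .C _ ε hk)
      (fun k l ε δ hk hl => hF.comm .C .C _ _ ε δ rfl hk hl)
      (fun k ε hk => hF.dC k ε (by linarith))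
      (fun k hk hkB => by
        obtain ⟨n, rfl⟩ := Int.eq_ofNat_of_zero_le hk
        exact C_pos hF n hkB) T _ (by omega) hin.c hc

end Pool.Agent.MP6f2db1
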