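import Pool.Agent.Lib.MP_6f2db1_al.Merge

set_option autoImplicit false

/-!
# The concrete group
-/

namespace Pool.Agent.MP6f2db1

/-- Upper triangular rational matrices of size four with diagonal `(1, 2^p, 2^q, 1)`. -/
@[ext]
structure E where
  /-- diagonal exponent -/
  p : ℤ
  /-- diagonal exponent -/
  q : ℤ
  /-- entry -/
  x12 : ℚ
  /-- entry -/
  x13 : ℚ
  /-- entry -/
  x14 : ℚ
  /-- entry -/
  x23 : ℚ
  /-- entry -/
  x24 : ℚ
  /-- entry -/
  x34 : ℚ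

namespace E

instance : Mul E where
  mul M N :=
    { p := M.p + N.p
      q := M.q + N.q
      x12 := N.x12 + M.x12 * 2 ^ N.p
      x13 := N.x13 + M.x12 * N.x23 + M.x13 * 2 ^ N.q
      x14 := N.x14 + M.x12 * N.x24 + M.x13 * N.x34 + M.x14
      x23 := 2 ^ M.p * N.x23 + M.x23 * 2 ^ N.q
      x24 := 2 ^ M.p * N.x24 + M.x23 * N.x34 + M.x24
      x34 := 2 ^ M.q * N.x34 + M.x34 }

instance : One E where
  one := ⟨0, 0, 0, 0, 0, 0, 0, 0⟩

/-- inverse entries -/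
instance : Inv E where
  inv M :=
    let y12 := -M.x12 * 2 ^ (-M.p)
    let y13 := -(M.x13 + y12 * M.x23) * 2 ^ (-M.q)
    let y23 := -(2 ^ (-M.p) * M.x23) * 2 ^ (-M.q)
    { p := -M.p
      q := -M.q
      x12 := y12
      x13 := y13
      x14 := -(M.x14 + y12 * M.x24 + y13 * M.x34)
      x23 := y23
      x24 := -(2 ^ (-M.p) * M.x24 + y23 * M.x34)
      x34 := -(2 ^ (-M.q) * M.x34) }

@[simp] theorem mul_p (M N : E) : (M * N).p = M.p + N.p := rfl
@[simp] theorem mul_q (M N : E) : (M * N).q = M.q + N.q := rfl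
@[simp] theorem mul_12 (M N : E) : (M * N).x12 = N.x12 + M.x12 * 2 ^ N.p := rfl
@[simp] theorem mul_13 (M N : E) :
    (M * N).x13 = N.x13 + M.x12 * N.x23 + M.x13 * 2 ^ N.q := rfl
@[simp] theorem mul_14 (M N : E) :
    (M * N).x14 = N.x14 + M.x12 * N.x24 + M.x13 * N.x34 + M.x14 := rfl
@[simp] theorem mul_23 (M N : E) : (M * N).x23 = 2 ^ M.p * N.x23 + M.x23 * 2 ^ N.q := rfl
@[simp] theorem mul_24 (M N : E) :
    (M * N).x24 = 2 ^ M.p * N.x24 + M.x23 * N.x34 + M.x24 := rfl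
@[simp] theorem mul_34 (M N : E) : (M * N).x34 = 2 ^ M.q * N.x34 + M.x34 := rfl
@[simp] theorem one_p : (1 : E).p = 0 := rfl
@[simp] theorem one_q : (1 : E).q = 0 := rfl
@[simp] theorem one_12 : (1 : E).x12 = 0 := rfl
@[simp] theorem one_13 : (1 : E).x13 = 0 := rfl
@[simp] theorem one_14 : (1 : E).x14 = 0 := rfl
@[simp] theorem one_23 : (1 : E).x23 = 0 := rfl
@[simp] theorem one_24 : (1 : E).x24 = 0 := rfl
@[simp] theorem one_34 : (1 : E).x34 = 0 := rfl

theorem two_zpow_add (a b : ℤ) : (2 : ℚ) ^ (a + b) = 2 ^ a * 2 ^ b :=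
  zpow_add₀ (by norm_num) a b

theorem two_zpow_neg_mul (a : ℤ) : (2 : ℚ) ^ (-a) * 2 ^ a = 1 := by
  rw [← two_zpow_add, neg_add_cancel, zpow_zero]

instance : Group E :=
  Group.ofLeftAxioms
    (by
      intro M N P
      ext
      · simp [add_assoc]
      · simp [add_assoc]
      · simp only [mul_12, mul_p, two_zpow_add]
        ring
      · simp only [mul_12, mul_13, mul_23, mul_q, two_zpow_add]
        ring
      · simp only [mul_12, mul_13, mul_14, mul_24, mul_34]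
        ring
      · simp only [mul_23, mul_p, mul_q, two_zpow_add]
        ring
      · simp only [mul_23, mul_24, mul_34, mul_p, two_zpow_add]
        ring
      · simp only [mul_34, mul_q, two_zpow_add]
        ring)
    (by
      intro M
      ext <;> simp)
    (by
      intro M
      have h1 := two_zpow_neg_mul M.p
      have h2 := two_zpow_neg_mul M.q
      ext
      · exact neg_add_cancel _
      · exact neg_add_cancel _
      · show M.x12 + -M.x12 * 2 ^ (-M.p) * 2 ^ M.p = 0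
        linear_combination (-M.x12) * h1
      · show M.x13 + -M.x12 * 2 ^ (-M.p) * M.x23 +
          -(M.x13 + -M.x12 * 2 ^ (-M.p) * M.x23) * 2 ^ (-M.q) * 2 ^ M.q = 0
        linear_combination (-(M.x13 + -M.x12 * 2 ^ (-M.p) * M.x23)) * h2
      · show M.x14 + -M.x12 * 2 ^ (-M.p) * M.x24 +
          -(M.x13 + -M.x12 * 2 ^ (-M.p) * M.x23) * 2 ^ (-M.q) * M.x34 +
          -(M.x14 + -M.x12 * 2 ^ (-M.p) * M.x24 +
            -(M.x13 + -M.x12 * 2 ^ (-M.p) * M.x23) * 2 ^ (-M.q) * M.x34) = 0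
        ring
      · show 2 ^ (-M.p) * M.x23 + -(2 ^ (-M.p) * M.x23) * 2 ^ (-M.q) * 2 ^ M.q = 0
        linear_combination (-(2 ^ (-M.p) * M.x23)) * h2
      · show 2 ^ (-M.p) * M.x24 + -(2 ^ (-M.p) * M.x23) * 2 ^ (-M.q) * M.x34 +
          -(2 ^ (-M.p) * M.x24 + -(2 ^ (-M.p) * M.x23) * 2 ^ (-M.q) * M.x34) = 0
        ring
      · show 2 ^ (-M.q) * M.x34 + -(2 ^ (-M.q) * M.x34) = 0
        ring)

/-- diagonal matrices times central matrices -/
def dg (k l : ℤ) (z : ℚ) : E := ⟨k, l, 0, 0, z, 0, 0, 0⟩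
/-- elementary matrix -/
def e12 (x : ℚ) : E := ⟨0, 0, x, 0, 0, 0, 0, 0⟩
/-- elementary matrix -/
def e13 (x : ℚ) : E := ⟨0, 0, 0, x, 0, 0, 0, 0⟩
/-- elementary matrix -/
def e14 (x : ℚ) : E := ⟨0, 0, 0, 0, x, 0, 0, 0⟩
/-- elementary matrix -/
def e23 (x : ℚ) : E := ⟨0, 0, 0, 0, 0, x, 0, 0⟩
/-- elementary matrix -/
def e24 (x : ℚ) : E := ⟨0, 0, 0, 0, 0, 0, x, 0⟩
/-- elementary matrix -/
def e34 (x : ℚ) : E := ⟨0, 0, 0, 0, 0, 0, 0, x⟩

theorem inv_eq_of {x y : E} (h : y * x = 1) : x⁻¹ = y := (eq_inv_of_mul_eq_one_left h).symm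

theorem dg_mul (k l k' l' : ℤ) (z z' : ℚ) : dg k l z * dg k' l' z' = dg (k + k') (l + l') (z + z') := by
  ext <;> simp [dg]
  ring

theorem dg_inv (k l : ℤ) (z : ℚ) : (dg k l z)⁻¹ = dg (-k) (-l) (-z) := by
  apply inv_eq_of
  rw [dg_mul]
  ext <;> simp [dg]

theorem e12_inv (x : ℚ) : (e12 x)⁻¹ = e12 (-x) := by
  apply inv_eq_of
  ext <;> simp [e12]
theorem e13_inv (x : ℚ) : (e13 x)⁻¹ = e13 (-x) := by
  apply inv_eq_of
  ext <;> simp [e13]
theorem e14_inv (x : ℚ) : (e14 x)⁻¹ = e14 (-x) := by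
  apply inv_eq_of
  ext <;> simp [e14]
theorem e23_inv (x : ℚ) : (e23 x)⁻¹ = e23 (-x) := by
  apply inv_eq_of
  ext <;> simp [e23]
theorem e24_inv (x : ℚ) : (e24 x)⁻¹ = e24 (-x) := by
  apply inv_eq_of
  ext <;> simp [e24]
theorem e34_inv (x : ℚ) : (e34 x)⁻¹ = e34 (-x) := by
  apply inv_eq_of
  ext <;> simp [e34]

theorem conj_e12 (k l : ℤ) (x : ℚ) : (dg k l 0)⁻¹ * e12 x * dg k l 0 = e12 (x * 2 ^ k) := by
  rw [dg_inv]
  ext <;> simp [dg, e12]
theorem conj_e13 (k l : ℤ) (x : ℚ) : (dg k l 0)⁻¹ * e13 x * dg k l 0 = e13 (x * 2 ^ l) := by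
  rw [dg_inv]
  ext <;> simp [dg, e13]
theorem conj_e23 (k l : ℤ) (x : ℚ) :
    (dg k l 0)⁻¹ * e23 x * dg k l 0 = e23 (2 ^ (-k) * x * 2 ^ l) := by
  rw [dg_inv]
  ext <;> simp [dg, e23]
theorem conj_e24 (k l : ℤ) (x : ℚ) : (dg k l 0)⁻¹ * e24 x * dg k l 0 = e24 (2 ^ (-k) * x) := by
  rw [dg_inv]
  ext <;> simp [dg, e24]
theorem conj_e34 (k l : ℤ) (x : ℚ) : (dg k l 0)⁻¹ * e34 x * dg k l 0 = e34 (2 ^ (-l) * x) := by
  rw [dg_inv]
  ext <;> simp [dg, e34]

theorem e14_comm (x : ℚ) (M : E) : e14 x * M = M * e14 x := by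
  ext <;> simp [e14]
  ring

end E

/-! ## the free group with shift -/

/-- shift of the generators -/
def shift : Multiplicative ℤ →* MulAut (FreeGroup ℤ) where
  toFun n := FreeGroup.freeGroupCongr (Equiv.subRight n.toAdd)
  map_one' := by
    apply MulEquiv.ext
    intro x
    show FreeGroup.map (fun k : ℤ => k - (1 : Multiplicative ℤ).toAdd) x = x
    have h : (fun k : ℤ => k - (1 : Multiplicative ℤ).toAdd) = id := by
      funext k
      simp
    rw [h]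
    exact FreeGroup.map.id x
  map_mul' a b := by
    apply MulEquiv.ext
    intro x
    show FreeGroup.map (fun k : ℤ => k - (a * b).toAdd) x =
      FreeGroup.map (fun k : ℤ => k - a.toAdd) (FreeGroup.map (fun k : ℤ => k - b.toAdd) x)
    rw [FreeGroup.map.comp]
    congr 1
    congr 1
    funext k
    simp only [Function.comp, toAdd_mul]
    ring

theorem shift_of (n : Multiplicative ℤ) (k : ℤ) :
    shift n (FreeGroup.of k) = FreeGroup.of (k - n.toAdd) := by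
  simp [shift]

/-- `FreeGroup ℤ ⋊ ℤ` -/
abbrev FG := FreeGroup ℤ ⋊[shift] Multiplicative ℤ

/-- the generator of `ℤ` -/
def zz (n : ℤ) : FG := SemidirectProduct.inr (Multiplicative.ofAdd n)
/-- free generators -/
def xx (k : ℤ) : FG := SemidirectProduct.inl (FreeGroup.of k)

theorem zz_add (m n : ℤ) : zz (m + n) = zz m * zz n := by
  rw [zz, zz, zz, ofAdd_add, map_mul]

theorem zz_zero : zz 0 = 1 := by rw [zz, ofAdd_zero, map_one]

theorem zz_neg (n : ℤ) : zz (-n) = (zz n)⁻¹ := by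
  rw [zz, zz, ofAdd_neg, map_inv]

theorem conj_xx (k n : ℤ) : (zz n)⁻¹ * xx k * zz n = xx (k + n) := by
  rw [← zz_neg]
  have h : zz n = (zz (-n))⁻¹ := by rw [zz_neg, inv_inv]
  rw [h, xx, xx, zz, ← map_inv, ← SemidirectProduct.inl_aut]
  rw [shift_of]
  simp

end Pool.Agent.MP6f2db1
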