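import Pool.Agent.Lib.MP_6f2db1_al.Model

set_option autoImplicit false

/-!
# The HNN extension and the homomorphism from the free group
-/

namespace Pool.Agent.MP6f2db1

open E

/-- The base group. -/
abbrev Bh := E × FG × FG × FG

/-- The subgroup `⟨a₁, a₂, z⟩`. -/
def io : Multiplicative (ℤ × ℤ × ℤ) →* Bh where
  toFun x := (dg x.toAdd.1 x.toAdd.2.1 x.toAdd.2.2, zz x.toAdd.1, zz x.toAdd.2.1,
    zz (x.toAdd.1 - x.toAdd.2.1))
  map_one' := by
    refine Prod.ext ?_ (Prod.ext ?_ (Prod.ext ?_ ?_))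
    · show dg 0 0 ((0 : ℤ) : ℚ) = 1
      rw [Int.cast_zero]
      rfl
    · exact zz_zero
    · exact zz_zero
    · show zz (0 - 0) = 1
      rw [sub_zero]
      exact zz_zero
  map_mul' x y := by
    refine Prod.ext ?_ (Prod.ext ?_ (Prod.ext ?_ ?_))
    · show dg (x.toAdd.1 + y.toAdd.1) (x.toAdd.2.1 + y.toAdd.2.1)
        ((x.toAdd.2.2 + y.toAdd.2.2 : ℤ) : ℚ) = _
      rw [Int.cast_add]
      exact (dg_mul _ _ _ _ _ _).symm
    · exact zz_add _ _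
    · exact zz_add _ _
    · show zz (x.toAdd.1 + y.toAdd.1 - (x.toAdd.2.1 + y.toAdd.2.1)) = _
      rw [add_sub_add_comm]
      exact zz_add _ _

/-- `(k, l, j) ↦ a₁^k a₂^l z^j` -/
def ioo (k l j : ℤ) : Bh := io (Multiplicative.ofAdd (k, l, j))

theorem ioo_eq (k l j : ℤ) : ioo k l j = (dg k l j, zz k, zz l, zz (k - l)) := rfl

theorem ioo_add (k l j k' l' j' : ℤ) : ioo (k + k') (l + l') (j + j') = ioo k l j * ioo k' l' j' :=
  io.map_mul (Multiplicative.ofAdd (k, l, j)) (Multiplicative.ofAdd (k', l', j'))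

theorem ioo_zpow (k l j n : ℤ) : ioo k l j ^ n = ioo (n * k) (n * l) (n * j) := by
  rw [ioo, ← map_zpow, ← ofAdd_zsmul]
  rfl

theorem io_injective : Function.Injective io := by
  intro x y h
  have h1 : (io x).1 = (io y).1 := by rw [h]
  have hp : x.toAdd.1 = y.toAdd.1 := congrArg E.p h1
  have hq : x.toAdd.2.1 = y.toAdd.2.1 := congrArg E.q h1
  have hz : (x.toAdd.2.2 : ℚ) = y.toAdd.2.2 := congrArg E.x14 h1
  have hz' : x.toAdd.2.2 = y.toAdd.2.2 := by exact_mod_cast hz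
  apply Multiplicative.toAdd.injective
  exact Prod.ext hp (Prod.ext hq hz')

/-- doubling of the first two coordinates -/
def dbl : Multiplicative (ℤ × ℤ × ℤ) →* Multiplicative (ℤ × ℤ × ℤ) where
  toFun x := Multiplicative.ofAdd (2 * x.toAdd.1, 2 * x.toAdd.2.1, x.toAdd.2.2)
  map_one' := rfl
  map_mul' x y := by
    apply Multiplicative.toAdd.injective
    refine Prod.ext ?_ (Prod.ext ?_ rfl)
    · show 2 * (x.toAdd.1 + y.toAdd.1) = 2 * x.toAdd.1 + 2 * y.toAdd.1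
      ring
    · show 2 * (x.toAdd.2.1 + y.toAdd.2.1) = 2 * x.toAdd.2.1 + 2 * y.toAdd.2.1
      ring

theorem dbl_injective : Function.Injective dbl := by
  intro x y h
  have h1 : (2 * x.toAdd.1, 2 * x.toAdd.2.1, x.toAdd.2.2) =
      (2 * y.toAdd.1, 2 * y.toAdd.2.1, y.toAdd.2.2) := h
  simp only [Prod.mk.injEq] at h1
  apply Multiplicative.toAdd.injective
  exact Prod.ext (by omega) (Prod.ext (by omega) h1.2.2)

/-- The associated subgroups. -/
abbrev GA : Subgroup Bh := io.range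
/-- The associated subgroups. -/
abbrev GB : Subgroup Bh := (io.comp dbl).range

/-- The isomorphism of the associated subgroups. -/
noncomputable def phi : GA ≃* GB :=
  (MonoidHom.ofInjective io_injective).symm.trans
    (MonoidHom.ofInjective (f := io.comp dbl) (io_injective.comp dbl_injective))

theorem ioo_mem_GA (k l j : ℤ) : ioo k l j ∈ GA := ⟨_, rfl⟩

theorem phi_ioo (k l j : ℤ) :
    ((phi ⟨ioo k l j, ioo_mem_GA k l j⟩ : GB) : Bh) = ioo (2 * k) (2 * l) j := by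
  have h1 : (MonoidHom.ofInjective io_injective).symm ⟨ioo k l j, ioo_mem_GA k l j⟩ =
      Multiplicative.ofAdd (k, l, j) := by
    rw [MulEquiv.symm_apply_eq]
    rfl
  rw [phi, MulEquiv.trans_apply, h1]
  rfl

theorem mem_GA_iff (x : Bh) : x ∈ GA ↔ ∃ k l j : ℤ, x = ioo k l j := by
  constructor
  · rintro ⟨y, rfl⟩
    exact ⟨y.toAdd.1, y.toAdd.2.1, y.toAdd.2.2, rfl⟩
  · rintro ⟨k, l, j, rfl⟩
    exact ioo_mem_GA k l j

theorem mem_GB_iff (x : Bh) : x ∈ GB ↔ ∃ k l j : ℤ, x = ioo (2 * k) (2 * l) j := by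
  constructor
  · rintro ⟨y, rfl⟩
    exact ⟨y.toAdd.1, y.toAdd.2.1, y.toAdd.2.2, rfl⟩
  · rintro ⟨k, l, j, rfl⟩
    exact ⟨Multiplicative.ofAdd (k, l, j), rfl⟩

/-- The HNN extension. -/
abbrev Eh := HNNExtension Bh GA GB phi

/-- the embedding -/
noncomputable abbrev ofB (x : Bh) : Eh := HNNExtension.of x

theorem t_ioo (k l j : ℤ) :
    (HNNExtension.t : Eh) * ofB (ioo k l j) = ofB (ioo (2 * k) (2 * l) j) * HNNExtension.t := by
  have := HNNExtension.t_mul_of (φ := phi) ⟨ioo k l j, ioo_mem_GA k l j⟩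
  rw [phi_ioo] at this
  exact this

/-- images of the letters in the base group -/
def bA1 : Bh := ioo 1 0 0
/-- images of the letters in the base group -/
def bA2 : Bh := ioo 0 1 0
/-- images of the letters in the base group -/
def bu1 : Bh := (e12 1, xx 0, 1, 1)
/-- images of the letters in the base group -/
def bu2 : Bh := (e13 1, 1, 1, 1)
/-- images of the letters in the base group -/
def bv1 : Bh := (e24 1, 1, 1, 1)
/-- images of the letters in the base group -/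
def bv2 : Bh := (e34 1, 1, xx 0, 1)
/-- images of the letters in the base group -/
def bs : Bh := (e23 (-1), 1, 1, xx 0)

/-- images of the letters -/
noncomputable def gen : Fin 8 → Eh :=
  ![ofB bA1, ofB bA2, HNNExtension.t, ofB bu1, ofB bu2, ofB bv1, ofB bv2, ofB bs]

/-- the homomorphism -/
noncomputable def Psi : F →* Eh := FreeGroup.lift gen

theorem Psi_a1 : Psi a1 = ofB bA1 := by simp [Psi, a1, gen]
theorem Psi_a2 : Psi a2 = ofB bA2 := by simp [Psi, a2, gen]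
theorem Psi_t : Psi tt = HNNExtension.t := by simp [Psi, tt, gen]
theorem Psi_u1 : Psi u1 = ofB bu1 := by simp [Psi, u1, gen]
theorem Psi_u2 : Psi u2 = ofB bu2 := by simp [Psi, u2, gen]
theorem Psi_v1 : Psi v1 = ofB bv1 := by simp [Psi, v1, gen]
theorem Psi_v2 : Psi v2 = ofB bv2 := by simp [Psi, v2, gen]
theorem Psi_s : Psi ss = ofB bs := by simp [Psi, ss, gen]

/-- the central element -/
noncomputable def zc : Eh := ofB (ioo 0 0 1)

theorem zc_zpow (j : ℤ) : zc ^ j = ofB (ioo 0 0 j) := by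
  rw [zc, ofB, ← map_zpow, ioo_zpow]
  simp

theorem ioo_zero_comm (j : ℤ) (x : Bh) : ioo 0 0 j * x = x * ioo 0 0 j := by
  refine Prod.ext (e14_comm j x.1) (Prod.ext ?_ (Prod.ext ?_ ?_))
  · show zz 0 * _ = _ * zz 0
    rw [zz_zero, one_mul, mul_one]
  · show zz 0 * _ = _ * zz 0
    rw [zz_zero, one_mul, mul_one]
  · show zz (0 - 0) * _ = _ * zz (0 - 0)
    rw [sub_zero, zz_zero, one_mul, mul_one]

theorem zc_central (x : Eh) : zc * x = x * zc := by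
  induction x using HNNExtension.induction_on with
  | of g =>
    rw [zc, ofB, ← map_mul, ← map_mul, ioo_zero_comm]
  | t =>
    have := t_ioo 0 0 1
    rw [mul_zero] at this
    exact this.symm
  | mul x y hx hy => rw [← mul_assoc, hx, mul_assoc, hy, mul_assoc]
  | inv x hx =>
    have h1 : x⁻¹ * (zc * x) * x⁻¹ = x⁻¹ * (x * zc) * x⁻¹ := by rw [hx]
    have h2 : x⁻¹ * (zc * x) * x⁻¹ = x⁻¹ * zc := by group
    have h3 : x⁻¹ * (x * zc) * x⁻¹ = zc * x⁻¹ := by group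
    rw [h2, h3] at h1
    exact h1.symm

/-- The central subgroup. -/
noncomputable def Zc : Subgroup Eh := Subgroup.zpowers zc

instance Zc_normal : Zc.Normal := by
  constructor
  rintro x ⟨n, rfl⟩ g
  refine ⟨n, ?_⟩
  have h : Commute zc g := zc_central g
  show zc ^ n = g * zc ^ n * g⁻¹
  rw [← (h.zpow_left n).eq]
  group


theorem rB1 : cm bA1 bA2 = 1 := by
  simp only [cm, bA1, bA2, bu1, bu2, bv1, bv2, bs, ioo_eq, mul_inv_rev, Prod.mk_mul_mk,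
    Prod.inv_mk, Prod.mk_eq_one, dg_inv, e12_inv, e13_inv, e23_inv, e24_inv, e34_inv, Int.cast_zero]
  refine ⟨?_, ?_, ?_, ?_⟩
  · ext <;> simp [dg, e12, e13, e23, e24, e34] <;> norm_num
  · simp [zz_zero]
  · simp [zz_zero]
  · simp [zz_zero, zz_neg]
theorem rB4 : cm bA1 bu2 = 1 := by
  simp only [cm, bA1, bA2, bu1, bu2, bv1, bv2, bs, ioo_eq, mul_inv_rev, Prod.mk_mul_mk,
    Prod.inv_mk, Prod.mk_eq_one, dg_inv, e12_inv, e13_inv, e23_inv, e24_inv, e34_inv, Int.cast_zero]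
  refine ⟨?_, ?_, ?_, ?_⟩
  · ext <;> simp [dg, e12, e13, e23, e24, e34] <;> norm_num
  · simp [zz_zero]
  · simp [zz_zero]
  · simp [zz_zero, zz_neg]
theorem rB5 : cm bA1 bv2 = 1 := by
  simp only [cm, bA1, bA2, bu1, bu2, bv1, bv2, bs, ioo_eq, mul_inv_rev, Prod.mk_mul_mk,
    Prod.inv_mk, Prod.mk_eq_one, dg_inv, e12_inv, e13_inv, e23_inv, e24_inv, e34_inv, Int.cast_zero]
  refine ⟨?_, ?_, ?_, ?_⟩
  · ext <;> simp [dg, e12, e13, e23, e24, e34] <;> norm_num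
  · simp [zz_zero]
  · simp [zz_zero]
  · simp [zz_zero, zz_neg]
theorem rB6 : cm bA2 bu1 = 1 := by
  simp only [cm, bA1, bA2, bu1, bu2, bv1, bv2, bs, ioo_eq, mul_inv_rev, Prod.mk_mul_mk,
    Prod.inv_mk, Prod.mk_eq_one, dg_inv, e12_inv, e13_inv, e23_inv, e24_inv, e34_inv, Int.cast_zero]
  refine ⟨?_, ?_, ?_, ?_⟩
  · ext <;> simp [dg, e12, e13, e23, e24, e34] <;> norm_num
  · simp [zz_zero]
  · simp [zz_zero]
  · simp [zz_zero, zz_neg]
theorem rB7 : cm bA2 bv1 = 1 := by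
  simp only [cm, bA1, bA2, bu1, bu2, bv1, bv2, bs, ioo_eq, mul_inv_rev, Prod.mk_mul_mk,
    Prod.inv_mk, Prod.mk_eq_one, dg_inv, e12_inv, e13_inv, e23_inv, e24_inv, e34_inv, Int.cast_zero]
  refine ⟨?_, ?_, ?_, ?_⟩
  · ext <;> simp [dg, e12, e13, e23, e24, e34] <;> norm_num
  · simp [zz_zero]
  · simp [zz_zero]
  · simp [zz_zero, zz_neg]
theorem rB8 : cm bu1 bu2 = 1 := by
  simp only [cm, bA1, bA2, bu1, bu2, bv1, bv2, bs, ioo_eq, mul_inv_rev, Prod.mk_mul_mk,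
    Prod.inv_mk, Prod.mk_eq_one, dg_inv, e12_inv, e13_inv, e23_inv, e24_inv, e34_inv, Int.cast_zero]
  refine ⟨?_, ?_, ?_, ?_⟩
  · ext <;> simp [dg, e12, e13, e23, e24, e34] <;> norm_num
  · simp [zz_zero]
  · simp [zz_zero]
  · simp [zz_zero, zz_neg]
theorem rB9 : cm bu1 bv2 = 1 := by
  simp only [cm, bA1, bA2, bu1, bu2, bv1, bv2, bs, ioo_eq, mul_inv_rev, Prod.mk_mul_mk,
    Prod.inv_mk, Prod.mk_eq_one, dg_inv, e12_inv, e13_inv, e23_inv, e24_inv, e34_inv, Int.cast_zero]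
  refine ⟨?_, ?_, ?_, ?_⟩
  · ext <;> simp [dg, e12, e13, e23, e24, e34] <;> norm_num
  · simp [zz_zero]
  · simp [zz_zero]
  · simp [zz_zero, zz_neg]
theorem rB10 : cm bv1 bu2 = 1 := by
  simp only [cm, bA1, bA2, bu1, bu2, bv1, bv2, bs, ioo_eq, mul_inv_rev, Prod.mk_mul_mk,
    Prod.inv_mk, Prod.mk_eq_one, dg_inv, e12_inv, e13_inv, e23_inv, e24_inv, e34_inv, Int.cast_zero]
  refine ⟨?_, ?_, ?_, ?_⟩
  · ext <;> simp [dg, e12, e13, e23, e24, e34] <;> norm_num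
  · simp [zz_zero]
  · simp [zz_zero]
  · simp [zz_zero, zz_neg]
theorem rB11 : cm bv1 bv2 = 1 := by
  simp only [cm, bA1, bA2, bu1, bu2, bv1, bv2, bs, ioo_eq, mul_inv_rev, Prod.mk_mul_mk,
    Prod.inv_mk, Prod.mk_eq_one, dg_inv, e12_inv, e13_inv, e23_inv, e24_inv, e34_inv, Int.cast_zero]
  refine ⟨?_, ?_, ?_, ?_⟩
  · ext <;> simp [dg, e12, e13, e23, e24, e34] <;> norm_num
  · simp [zz_zero]
  · simp [zz_zero]
  · simp [zz_zero, zz_neg]
theorem rB12 : cm (bA1 * bA2) bs = 1 := by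
  simp only [cm, bA1, bA2, bu1, bu2, bv1, bv2, bs, ioo_eq, mul_inv_rev, Prod.mk_mul_mk,
    Prod.inv_mk, Prod.mk_eq_one, dg_inv, e12_inv, e13_inv, e23_inv, e24_inv, e34_inv, Int.cast_zero]
  refine ⟨?_, ?_, ?_, ?_⟩
  · ext <;> simp [dg, e12, e13, e23, e24, e34] <;> norm_num
  · simp [zz_zero]
  · simp [zz_zero]
  · simp [zz_zero, zz_neg]
theorem rB13 : cm bs bu2 = 1 := by
  simp only [cm, bA1, bA2, bu1, bu2, bv1, bv2, bs, ioo_eq, mul_inv_rev, Prod.mk_mul_mk,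
    Prod.inv_mk, Prod.mk_eq_one, dg_inv, e12_inv, e13_inv, e23_inv, e24_inv, e34_inv, Int.cast_zero]
  refine ⟨?_, ?_, ?_, ?_⟩
  · ext <;> simp [dg, e12, e13, e23, e24, e34] <;> norm_num
  · simp [zz_zero]
  · simp [zz_zero]
  · simp [zz_zero, zz_neg]
theorem rB14 : cm bs bv1 = 1 := by
  simp only [cm, bA1, bA2, bu1, bu2, bv1, bv2, bs, ioo_eq, mul_inv_rev, Prod.mk_mul_mk,
    Prod.inv_mk, Prod.mk_eq_one, dg_inv, e12_inv, e13_inv, e23_inv, e24_inv, e34_inv, Int.cast_zero]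
  refine ⟨?_, ?_, ?_, ?_⟩
  · ext <;> simp [dg, e12, e13, e23, e24, e34] <;> norm_num
  · simp [zz_zero]
  · simp [zz_zero]
  · simp [zz_zero, zz_neg]
theorem rB15 : bs * bu1 * bs⁻¹ * (bu1 * bu2)⁻¹ = 1 := by
  simp only [cm, bA1, bA2, bu1, bu2, bv1, bv2, bs, ioo_eq, mul_inv_rev, Prod.mk_mul_mk,
    Prod.inv_mk, Prod.mk_eq_one, dg_inv, e12_inv, e13_inv, e23_inv, e24_inv, e34_inv, Int.cast_zero]
  refine ⟨?_, ?_, ?_, ?_⟩
  · ext <;> simp [dg, e12, e13, e23, e24, e34] <;> norm_num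
  · simp [zz_zero]
  · simp [zz_zero]
  · simp [zz_zero, zz_neg]
theorem rB16 : bs * bv2 * bs⁻¹ * (bv2 * bv1⁻¹)⁻¹ = 1 := by
  simp only [cm, bA1, bA2, bu1, bu2, bv1, bv2, bs, ioo_eq, mul_inv_rev, Prod.mk_mul_mk,
    Prod.inv_mk, Prod.mk_eq_one, dg_inv, e12_inv, e13_inv, e23_inv, e24_inv, e34_inv, Int.cast_zero]
  refine ⟨?_, ?_, ?_, ?_⟩
  · ext <;> simp [dg, e12, e13, e23, e24, e34] <;> norm_num
  · simp [zz_zero]
  · simp [zz_zero]
  · simp [zz_zero, zz_neg]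
theorem rB17 : bA2⁻¹ * bu2 * bA2 * (bu2 * bu2)⁻¹ = 1 := by
  simp only [cm, bA1, bA2, bu1, bu2, bv1, bv2, bs, ioo_eq, mul_inv_rev, Prod.mk_mul_mk,
    Prod.inv_mk, Prod.mk_eq_one, dg_inv, e12_inv, e13_inv, e23_inv, e24_inv, e34_inv, Int.cast_zero]
  refine ⟨?_, ?_, ?_, ?_⟩
  · ext <;> simp [dg, e12, e13, e23, e24, e34] <;> norm_num
  · simp [zz_zero]
  · simp [zz_zero]
  · simp [zz_zero, zz_neg]
theorem rB18 : bA1 * bv1 * bA1⁻¹ * (bv1 * bv1)⁻¹ = 1 := by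
  simp only [cm, bA1, bA2, bu1, bu2, bv1, bv2, bs, ioo_eq, mul_inv_rev, Prod.mk_mul_mk,
    Prod.inv_mk, Prod.mk_eq_one, dg_inv, e12_inv, e13_inv, e23_inv, e24_inv, e34_inv, Int.cast_zero]
  refine ⟨?_, ?_, ?_, ?_⟩
  · ext <;> simp [dg, e12, e13, e23, e24, e34] <;> norm_num
  · simp [zz_zero]
  · simp [zz_zero]
  · simp [zz_zero, zz_neg]

theorem rB19 : cm bu1 bv1 = ioo 0 0 1 := by
  simp only [cm, bu1, bv1, ioo_eq, Prod.mk_mul_mk, Prod.inv_mk, Prod.mk.injEq, e12_inv, e24_inv]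
  refine ⟨?_, ?_, ?_, ?_⟩
  · ext <;> simp [dg, e12, e24]
  · simp [zz_zero]
  · simp [zz_zero]
  · simp [zz_zero]

theorem map_cm {G H : Type*} [Group G] [Group H] (f : G →* H) (x y : G) :
    f (cm x y) = cm (f x) (f y) := by
  simp only [cm, map_mul, map_inv]

theorem cm_ofB (x y : Bh) : cm (ofB x) (ofB y) = ofB (cm x y) := (map_cm _ x y).symm

theorem t_double (k l : ℤ) :
    (HNNExtension.t : Eh) * ofB (ioo k l 0) * HNNExtension.t⁻¹ *
      (ofB (ioo k l 0) * ofB (ioo k l 0))⁻¹ = 1 := by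
  rw [t_ioo, ofB, ofB, ← map_mul, ← ioo_add, add_zero, ← two_mul, ← two_mul]
  group

/-- The relators are mapped to `1`, or to `z`. -/
theorem Psi_R {r : F} (hr : r ∈ R) : ∃ ε : ℤ, |ε| ≤ 1 ∧ Psi r = zc ^ ε := by
  have one_case : ∀ r : F, Psi r = 1 → ∃ ε : ℤ, |ε| ≤ 1 ∧ Psi r = zc ^ ε := fun r h =>
    ⟨0, by simp, by rw [h, zpow_zero]⟩
  have base : ∀ x : Bh, x = 1 → ofB x = 1 := fun x hx => by rw [hx, ofB, map_one]
  simp only [R, Finset.mem_insert, Finset.mem_singleton] at hr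
  rcases hr with rfl | rfl | rfl | rfl | rfl | rfl | rfl | rfl | rfl | rfl | rfl | rfl | rfl |
    rfl | rfl | rfl | rfl | rfl | rfl
  · apply one_case
    rw [map_cm, Psi_a1, Psi_a2, cm_ofB]
    exact base _ rB1
  · apply one_case
    simp only [map_mul, map_inv, Psi_a1, Psi_t]
    exact t_double 1 0
  · apply one_case
    simp only [map_mul, map_inv, Psi_a2, Psi_t]
    exact t_double 0 1
  · apply one_case
    rw [map_cm, Psi_a1, Psi_u2, cm_ofB]
    exact base _ rB4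
  · apply one_case
    rw [map_cm, Psi_a1, Psi_v2, cm_ofB]
    exact base _ rB5
  · apply one_case
    rw [map_cm, Psi_a2, Psi_u1, cm_ofB]
    exact base _ rB6
  · apply one_case
    rw [map_cm, Psi_a2, Psi_v1, cm_ofB]
    exact base _ rB7
  · apply one_case
    rw [map_cm, Psi_u1, Psi_u2, cm_ofB]
    exact base _ rB8
  · apply one_case
    rw [map_cm, Psi_u1, Psi_v2, cm_ofB]
    exact base _ rB9
  · apply one_case
    rw [map_cm, Psi_v1, Psi_u2, cm_ofB]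
    exact base _ rB10
  · apply one_case
    rw [map_cm, Psi_v1, Psi_v2, cm_ofB]
    exact base _ rB11
  · apply one_case
    rw [map_cm, map_mul, Psi_a1, Psi_a2, Psi_s, ofB, ofB, ← map_mul, cm_ofB]
    exact base _ rB12
  · apply one_case
    rw [map_cm, Psi_s, Psi_u2, cm_ofB]
    exact base _ rB13
  · apply one_case
    rw [map_cm, Psi_s, Psi_v1, cm_ofB]
    exact base _ rB14
  · apply one_case
    simp only [map_mul, map_inv, Psi_s, Psi_u1, Psi_u2]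
    simp only [ofB, ← map_mul, ← map_inv]
    exact base _ rB15
  · apply one_case
    simp only [map_mul, map_inv, Psi_s, Psi_v1, Psi_v2]
    simp only [ofB, ← map_mul, ← map_inv]
    exact base _ rB16
  · apply one_case
    simp only [map_mul, map_inv, Psi_a2, Psi_u2]
    simp only [ofB, ← map_mul, ← map_inv]
    exact base _ rB17
  · apply one_case
    simp only [map_mul, map_inv, Psi_a1, Psi_v1]
    simp only [ofB, ← map_mul, ← map_inv]
    exact base _ rB18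
  · refine ⟨1, by simp, ?_⟩
    rw [map_cm, Psi_u1, Psi_v1, cm_ofB, rB19, zpow_one]
    rfl

/-- The normal closure of the relators is mapped to the central subgroup. -/
theorem Psi_normalClosure {w : F} (hw : w ∈ Subgroup.normalClosure (R : Set F)) :
    Psi w ∈ Zc := by
  have h : Subgroup.normalClosure (R : Set F) ≤ Zc.comap Psi := by
    apply Subgroup.normalClosure_le_normal
    intro r hr
    obtain ⟨ε, _, h⟩ := Psi_R hr
    exact ⟨ε, h.symm⟩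
  exact h hw

/-! ### values of the tokens -/

/-- the value of a token -/
def tv (κ : Kd) (k : ℤ) : Bh :=
  match κ with
  | .S => (e23 (-2 ^ (-k)), 1, 1, xx k)
  | .U1 => (e12 (2 ^ k), xx k, 1, 1)
  | .V2 => (e34 (2 ^ (-k)), 1, xx k, 1)
  | .V1 => (e24 (2 ^ (-k)), 1, 1, 1)
  | .U2 => (e13 (2 ^ k), 1, 1, 1)
  | .C => (e14 (2 ^ k), 1, 1, 1)

theorem bA1_zpow (k : ℤ) : bA1 ^ k = ioo k 0 0 := by rw [bA1, ioo_zpow]; simp
theorem bA2_zpow (k : ℤ) : bA2 ^ k = ioo 0 k 0 := by rw [bA2, ioo_zpow]; simp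

theorem Psi_conj (x y : F) (X Y : Bh) (hx : Psi x = ofB X) (hy : Psi y = ofB Y) (k : ℤ) :
    Psi ((x ^ k)⁻¹ * y * x ^ k) = ofB ((X ^ k)⁻¹ * Y * X ^ k) := by
  simp only [map_mul, map_inv, map_zpow, hx, hy]

theorem Psi_tok (κ : Kd) (k : ℤ) : Psi (tok κ k) = ofB (tv κ k) := by
  have hU1 : Psi (tU1 k) = ofB (tv .U1 k) := by
    rw [tU1, Psi_conj _ _ _ _ Psi_a1 Psi_u1, bA1_zpow]
    congr 1
    refine Prod.ext ?_ (Prod.ext ?_ (Prod.ext ?_ ?_))
    · show (dg k 0 ((0 : ℤ) : ℚ))⁻¹ * e12 1 * dg k 0 ((0 : ℤ) : ℚ) = e12 (2 ^ k)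
      rw [Int.cast_zero, conj_e12, one_mul]
    · show (zz k)⁻¹ * xx 0 * zz k = xx k
      rw [conj_xx, zero_add]
    · show (zz 0)⁻¹ * 1 * zz 0 = 1
      group
    · show (zz (k - 0))⁻¹ * 1 * zz (k - 0) = 1
      group
  cases κ
  · show Psi (tS k) = _
    rw [tS, Psi_conj _ _ _ _ Psi_a1 Psi_s, bA1_zpow]
    congr 1
    refine Prod.ext ?_ (Prod.ext ?_ (Prod.ext ?_ ?_))
    · show (dg k 0 ((0 : ℤ) : ℚ))⁻¹ * e23 (-1) * dg k 0 ((0 : ℤ) : ℚ) = e23 (-2 ^ (-k))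
      rw [Int.cast_zero, conj_e23]
      simp
    · show (zz k)⁻¹ * 1 * zz k = 1
      group
    · show (zz 0)⁻¹ * 1 * zz 0 = 1
      group
    · show (zz (k - 0))⁻¹ * xx 0 * zz (k - 0) = xx k
      rw [conj_xx, zero_add, sub_zero]
  · exact hU1
  · show Psi (tV2 k) = _
    rw [tV2, Psi_conj _ _ _ _ Psi_a2 Psi_v2, bA2_zpow]
    congr 1
    refine Prod.ext ?_ (Prod.ext ?_ (Prod.ext ?_ ?_))
    · show (dg 0 k ((0 : ℤ) : ℚ))⁻¹ * e34 1 * dg 0 k ((0 : ℤ) : ℚ) = e34 (2 ^ (-k))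
      rw [Int.cast_zero, conj_e34, mul_one]
    · show (zz 0)⁻¹ * 1 * zz 0 = 1
      group
    · show (zz k)⁻¹ * xx 0 * zz k = xx k
      rw [conj_xx, zero_add]
    · show (zz (0 - k))⁻¹ * 1 * zz (0 - k) = 1
      group
  · show Psi (tV1 k) = _
    rw [tV1, Psi_conj _ _ _ _ Psi_a1 Psi_v1, bA1_zpow]
    congr 1
    refine Prod.ext ?_ (Prod.ext ?_ (Prod.ext ?_ ?_))
    · show (dg k 0 ((0 : ℤ) : ℚ))⁻¹ * e24 1 * dg k 0 ((0 : ℤ) : ℚ) = e24 (2 ^ (-k))
      rw [Int.cast_zero, conj_e24, mul_one]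
    · show (zz k)⁻¹ * 1 * zz k = 1
      group
    · show (zz 0)⁻¹ * 1 * zz 0 = 1
      group
    · show (zz (k - 0))⁻¹ * 1 * zz (k - 0) = 1
      group
  · show Psi (tU2 k) = _
    rw [tU2, Psi_conj _ _ _ _ Psi_a2 Psi_u2, bA2_zpow]
    congr 1
    refine Prod.ext ?_ (Prod.ext ?_ (Prod.ext ?_ ?_))
    · show (dg 0 k ((0 : ℤ) : ℚ))⁻¹ * e13 1 * dg 0 k ((0 : ℤ) : ℚ) = e13 (2 ^ k)
      rw [Int.cast_zero, conj_e13, one_mul]
    · show (zz 0)⁻¹ * 1 * zz 0 = 1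
      group
    · show (zz k)⁻¹ * 1 * zz k = 1
      group
    · show (zz (0 - k))⁻¹ * 1 * zz (0 - k) = 1
      group
  · show Psi (tC k) = _
    rw [tC]
    simp only [map_mul, map_inv, hU1, Psi_v1]
    simp only [ofB, ← map_mul, ← map_inv]
    congr 1
    refine Prod.ext ?_ (Prod.ext ?_ (Prod.ext ?_ ?_))
    · show e12 (2 ^ k) * e24 1 * (e12 (2 ^ k))⁻¹ * (e24 1)⁻¹ = e14 (2 ^ k)
      rw [e12_inv, e24_inv]
      ext <;> simp [e12, e24, e14]
    · show xx k * 1 * (xx k)⁻¹ * 1⁻¹ = 1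
      group
    · show (1 : FG) * 1 * 1⁻¹ * 1⁻¹ = 1
      group
    · show (1 : FG) * 1 * 1⁻¹ * 1⁻¹ = 1
      group

end Pool.Agent.MP6f2db1
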