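import Pool.Agent.Lib.MP_6f2db1_al.Basic

set_option autoImplicit false

/-!
# Large powers of `a₁`, `a₂` are short modulo short relators
-/

namespace Pool.Agent.MP6f2db1

theorem pow_Sh_nat {x : F} (hx : Dbl x) (L : ℕ) :
    ∀ k : ℕ, k ≤ 2 ^ L → x ^ k ∈ Sh (3 * L + 1) := by
  induction L with
  | zero =>
    intro k hk
    apply Sh_of_norm
    have hk' : k = 0 ∨ k = 1 := by
      rw [pow_zero] at hk
      omega
    rcases hk' with rfl | rfl
    · simp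
    · rw [pow_one]
      exact hx.1
  | succ L ih =>
    intro k hk
    have hq : k / 2 ≤ 2 ^ L := by
      rw [pow_succ] at hk
      omega
    have h1 := tconj_pow_nat hx (m := 3 * L + 1) (k / 2) fun j hj => ih j (hj.trans hq)
    have h2 : x ^ (2 * (k / 2)) ∈ Sh (3 * L + 3) :=
      h1.symm.mem_Sh (tconj_Sh (ih _ hq)) (by omega)
    have h3 : x ^ (k % 2) ∈ Sh 1 := by
      apply Sh_of_norm
      have hk' : k % 2 = 0 ∨ k % 2 = 1 := by omega
      rcases hk' with h | h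
      · simp [h]
      · rw [h, pow_one]
        exact hx.1
    have h4 : x ^ k = x ^ (2 * (k / 2)) * x ^ (k % 2) := by
      rw [← pow_add, Nat.div_add_mod]
    rw [h4]
    exact Sh_mono (by omega) (Sh_mul h2 h3)

theorem zpow_Sh {x : F} (hx : Dbl x) (L : ℕ) (k : ℤ) (hk : |k| ≤ 2 ^ L) :
    x ^ k ∈ Sh (6 * L + 2) := by
  obtain ⟨n, rfl | rfl⟩ := k.eq_nat_or_neg
  · rw [zpow_natCast]
    rw [Nat.abs_cast] at hk
    exact Sh_mono (by omega) (pow_Sh_nat hx L n (by exact_mod_cast hk))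
  · rw [zpow_neg, zpow_natCast]
    rw [abs_neg, Nat.abs_cast] at hk
    have := Sh_inv (pow_Sh_nat hx L n (by exact_mod_cast hk))
    exact Sh_mono (by omega) this

theorem tconj_zpow {x : F} (hx : Dbl x) (L : ℕ) (k : ℤ) (hk : |k| ≤ 2 ^ L) :
    Eqv (9 * L + 9) (tt * x ^ k * tt⁻¹) (x ^ (2 * k)) := by
  have key : ∀ n : ℕ, n ≤ 2 ^ L → Eqv (3 * L + 3) (tt * x ^ n * tt⁻¹) (x ^ (2 * n)) := fun n hn =>
    tconj_pow_nat hx n fun j hj => pow_Sh_nat hx L j (hj.trans hn)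
  obtain ⟨n, rfl | rfl⟩ := k.eq_nat_or_neg
  · rw [Nat.abs_cast] at hk
    have := key n (by exact_mod_cast hk)
    have h2 : x ^ (2 * (n : ℤ)) = x ^ (2 * n) := by
      rw [← zpow_natCast]
      push_cast
      rfl
    rw [zpow_natCast, h2]
    exact this.mono (by omega)
  · rw [abs_neg, Nat.abs_cast] at hk
    have h1 := key n (by exact_mod_cast hk)
    have hn : n ≤ 2 ^ L := by exact_mod_cast hk
    have h2 : x ^ (2 * -(n : ℤ)) = (x ^ (2 * n))⁻¹ := by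
      rw [mul_neg, zpow_neg, ← zpow_natCast]
      push_cast
      rfl
    have h3 : tt * x ^ (-(n : ℤ)) * tt⁻¹ = (tt * x ^ n * tt⁻¹)⁻¹ := by
      rw [zpow_neg, zpow_natCast]
      group
    rw [h2, h3]
    refine (h1.inv_of (m' := 6 * L + 6) ?_).mono (by omega)
    have h4 : x ^ (2 * n) ∈ Sh (3 * (L + 1) + 1) := pow_Sh_nat hx (L + 1) (2 * n) (by
      rw [pow_succ]
      omega)
    have h5 : x ^ (2 * n) ∈ Sh (3 * L + 3) := by
      have h6 := tconj_Sh (pow_Sh_nat hx L n hn)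
      exact h1.symm.mem_Sh h6 (by omega)
    exact Sh_mono (by omega) (Sh_inv h5)

/-- If `x` commutes with `y` modulo `K m` and the powers of `x` are short, they commute with `y`. -/
theorem cm_zpow {x y : F} {m M : ℕ} {B : ℤ} (hB : ∀ j : ℤ, |j| ≤ B → x ^ j ∈ Sh M)
    (h : cm x y ∈ K m) (k : ℤ) (hk : |k| ≤ B) : cm (x ^ k) y ∈ K (m + 2 * M) := by
  have key : ∀ n : ℕ, (n : ℤ) ≤ B → cm (x ^ n) y ∈ K (m + M) := by
    intro n
    induction n with
    | zero =>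
      intro _
      simp [cm, one_mem]
    | succ n ih =>
      intro hn
      have hn' : (n : ℤ) ≤ B := by push_cast at hn; omega
      have h1 := ih hn'
      have h2 : cm (x ^ (n + 1)) y = x ^ n * cm x y * (x ^ n)⁻¹ * cm (x ^ n) y := by
        rw [cm, cm, cm, pow_succ]
        group
      rw [h2]
      refine mul_mem (K_conj' h ?_) h1
      have := hB n (by rwa [Nat.abs_cast])
      rwa [zpow_natCast] at this
  obtain ⟨n, rfl | rfl⟩ := k.eq_nat_or_neg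
  · rw [Nat.abs_cast] at hk
    rw [zpow_natCast]
    exact K_mono (by omega) (key n hk)
  · rw [abs_neg, Nat.abs_cast] at hk
    have h1 := key n hk
    have h2 : cm (x ^ (-(n : ℤ))) y = x ^ (-(n : ℤ)) * (cm (x ^ n) y)⁻¹ * (x ^ (-(n : ℤ)))⁻¹ := by
      rw [cm, cm, zpow_neg, zpow_natCast]
      group
    rw [h2]
    have h3 := K_conj' (inv_mem h1) (hB (-(n : ℤ)) (by rwa [abs_neg, Nat.abs_cast]))
    exact K_mono (by omega) h3

theorem cm_comm {x y : F} {m : ℕ} (h : cm x y ∈ K m) : cm y x ∈ K m := by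
  have h2 : cm y x = (cm x y)⁻¹ := by
    rw [cm, cm]
    group
  rw [h2]
  exact inv_mem h

/-- Commuting relators with `a₁`, `a₂`. -/
theorem cm_zpow_of_R {x y : F} (hx : Dbl x) (h : cm x y ∈ R) (L : ℕ) (k : ℤ) (hk : |k| ≤ 2 ^ L) :
    cm (x ^ k) y ∈ K (12 * L + 4) :=
  K_mono (by omega) (cm_zpow (m := 0) (M := 6 * L + 2) (fun j hj => zpow_Sh hx L j hj)
    (K_rel' h) k hk)

/-- `a₁^k` and `a₂^l` commute. -/
theorem cm_a1_a2 (L : ℕ) (k l : ℤ) (hk : |k| ≤ 2 ^ L) (hl : |l| ≤ 2 ^ L) :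
    cm (a1 ^ k) (a2 ^ l) ∈ K (24 * L + 8) := by
  have h1 : cm (a1 ^ k) a2 ∈ K (12 * L + 4) := cm_zpow_of_R dbl_a1 (by simp [R]) L k hk
  have h2 := cm_zpow (m := 12 * L + 4) (M := 6 * L + 2) (fun j hj => zpow_Sh dbl_a2 L j hj)
    (cm_comm h1) l hl
  exact K_mono (by omega) (cm_comm h2)

/-- `(a₁ a₂)^k = a₁^k a₂^k`. -/
theorem b_zpow (L : ℕ) (k : ℤ) (hk : |k| ≤ 2 ^ L) :
    Eqv (100 * L + 100) ((a1 * a2) ^ k) (a1 ^ k * a2 ^ k) := by
  have key : ∀ n : ℕ, (n : ℤ) ≤ 2 ^ L →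
      Eqv (30 * L + 10) ((a1 * a2) ^ n) (a1 ^ n * a2 ^ n) := by
    intro n
    induction n with
    | zero =>
      intro _
      exact Eqv.of_eq (by simp)
    | succ n ih =>
      intro hn
      have hn' : (n : ℤ) ≤ 2 ^ L := by push_cast at hn; omega
      have h1 := (ih hn').mul_right (a1 * a2)
      rw [← pow_succ] at h1
      refine h1.trans ?_
      have h2 : cm (a2 ^ (n : ℤ)) (a1 ^ (1 : ℤ)) ∈ K (24 * L + 8) :=
        cm_comm (cm_a1_a2 L 1 n (by rw [abs_one]; exact one_le_pow₀ (by norm_num))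
          (by rwa [Nat.abs_cast]))
      rw [zpow_one, zpow_natCast] at h2
      have h3 : Eqv (24 * L + 8) (a2 ^ n * a1) (a1 * a2 ^ n) := by
        have h4 : a2 ^ n * a1 * (a1 * a2 ^ n)⁻¹ = cm (a2 ^ n) a1 := by
          rw [cm]
          group
        rw [Eqv, h4]
        exact h2
      have h5 := (h3.mul_right a2).mul_left (pow_Sh_nat dbl_a1 L n (by exact_mod_cast hn'))
      have h6 : a1 ^ n * a2 ^ n * (a1 * a2) = a1 ^ n * (a2 ^ n * a1 * a2) := by group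
      have h7 : a1 ^ (n + 1) * a2 ^ (n + 1) = a1 ^ n * (a1 * a2 ^ n * a2) := by
        rw [pow_succ, pow_succ]
        group
      rw [h6, h7]
      exact h5.mono (by omega)
  obtain ⟨n, rfl | rfl⟩ := k.eq_nat_or_neg
  · rw [Nat.abs_cast] at hk
    have := key n hk
    simp only [zpow_natCast]
    exact this.mono (by omega)
  · rw [abs_neg, Nat.abs_cast] at hk
    have h1 := key n hk
    have hn : n ≤ 2 ^ L := by exact_mod_cast hk
    simp only [zpow_neg, zpow_natCast]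
    have hs1 := zpow_Sh dbl_a1 L (-(n : ℤ)) (by rwa [abs_neg, Nat.abs_cast])
    have hs2 := zpow_Sh dbl_a2 L (-(n : ℤ)) (by rwa [abs_neg, Nat.abs_cast])
    rw [zpow_neg, zpow_natCast] at hs1 hs2
    have h2 : (a1 ^ n * a2 ^ n)⁻¹ ∈ Sh (12 * L + 4) := by
      rw [mul_inv_rev]
      exact Sh_mono (by omega) (Sh_mul hs2 hs1)
    have h3 := h1.inv_of h2
    have h4 : Eqv (24 * L + 8) ((a1 ^ n * a2 ^ n)⁻¹) ((a1 ^ n)⁻¹ * (a2 ^ n)⁻¹) := by
      have h5 := cm_a1_a2 L (-(n : ℤ)) (-(n : ℤ)) (by rwa [abs_neg, Nat.abs_cast])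
        (by rwa [abs_neg, Nat.abs_cast])
      have h6 := cm_comm h5
      simp only [zpow_neg, zpow_natCast] at h6
      have h7 : (a1 ^ n * a2 ^ n)⁻¹ * ((a1 ^ n)⁻¹ * (a2 ^ n)⁻¹)⁻¹ =
          cm ((a2 ^ n)⁻¹) ((a1 ^ n)⁻¹) := by
        rw [cm]
        group
      rw [Eqv, h7]
      exact h6
    exact (h3.mono (by omega)).trans (h4.mono (by omega))

theorem b_Sh (L : ℕ) (k : ℤ) (hk : |k| ≤ 2 ^ L) : (a1 * a2) ^ k ∈ Sh (100 * L + 100) :=
  (b_zpow L k hk).mem_Sh (Sh_mono (by omega) (Sh_mul (zpow_Sh dbl_a1 L k hk)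
    (zpow_Sh dbl_a2 L k hk))) le_rfl

/-- `(a₁ a₂)^k` commutes with `s`. -/
theorem cm_b_s (L : ℕ) (k : ℤ) (hk : |k| ≤ 2 ^ L) :
    cm ((a1 * a2) ^ k) ss ∈ K (200 * L + 200) :=
  K_mono (by omega) (cm_zpow (m := 0) (M := 100 * L + 100) (fun j hj => b_Sh L j hj)
    (K_rel' (by simp [R])) k hk)

end Pool.Agent.MP6f2db1
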