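import Pool.Agent.Lib.MP_6f2db1_al.Value

set_option autoImplicit false

/-!
# Reduced stacks and Britton's lemma
-/

namespace Pool.Agent.MP6f2db1

open HNNExtension HNNExtension.NormalWord

/-- The rest of a stack: powers `t^ε` with the collected form before them. -/
abbrev Stk := List (ℤˣ × St)

/-- the word of a stack with top `S` -/
def wdS : St → Stk → F
  | S, [] => S.wd
  | S, (ε, S') :: r => wdS S' r * tt ^ (ε : ℤ) * S.wd

/-- the condition on consecutive powers of `t` -/
def Cons (x y : ℤˣ × St) : Prop := x.2.vB ∈ toSubgroup GA GB y.1 → y.1 = x.1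

theorem toReduced (r : Stk) : r.IsChain Cons → ∀ S : St,
    ∃ w : ReducedWord Bh GA GB, w.prod phi = Psi (wdS S r) ∧ w.toList.length = r.length ∧
      w.toList.getLast? = r.head?.map fun y => (y.1, S.vB) := by
  induction r with
  | nil =>
    intro _ S
    refine ⟨⟨S.vB, [], List.isChain_nil⟩, ?_, rfl, rfl⟩
    simp [ReducedWord.prod, wdS, Psi_wd, ofB]
  | cons y r ih =>
    obtain ⟨ε, S'⟩ := y
    intro hc S
    obtain ⟨w, h1, h2, h3⟩ := ih hc.tail S'
    refine ⟨⟨w.head, w.toList ++ [(ε, S.vB)], ?_⟩, ?_, ?_, ?_⟩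
    · rw [List.isChain_append]
      refine ⟨w.chain, List.isChain_singleton _, ?_⟩
      intro a ha b hb
      rw [h3] at ha
      simp only [List.head?_cons, Option.mem_def, Option.some.injEq] at hb
      subst hb
      cases r with
      | nil => simp at ha
      | cons y' r' =>
        simp only [List.head?_cons, Option.map_some, Option.mem_def, Option.some.injEq] at ha
        subst ha
        have := hc.rel
        exact this
    · show of w.head * ((w.toList ++ [(ε, S.vB)]).map fun x => t ^ (x.1 : ℤ) * of x.2).prod = _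
      rw [List.map_append, List.prod_append, ← mul_assoc]
      have h4 : of w.head * (w.toList.map fun x => t ^ (x.1 : ℤ) * of x.2).prod =
        Psi (wdS S' r) := h1
      rw [h4, wdS, map_mul, map_mul, map_zpow, Psi_t, Psi_wd]
      simp [mul_assoc]
    · simp [h2]
    · simp

/-- Britton's lemma for stacks. -/
theorem britton {S : St} {r : Stk} (hc : r.IsChain Cons) (h : Psi (wdS S r) ∈ Zc) :
    r = [] ∧ ∃ j : ℤ, S.vB = ioo 0 0 j := by
  obtain ⟨w, h1, h2, _⟩ := toReduced r hc S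
  obtain ⟨j, hj⟩ := h
  have hj' : ofB (ioo 0 0 j) = Psi (wdS S r) := by rw [← zc_zpow]; exact hj
  have h4 : w.toList = [] := ReducedWord.toList_eq_nil_of_mem_of_range phi w
    ⟨ioo 0 0 j, by rw [h1]; exact hj'⟩
  rw [h4] at h2
  have h5 : r = [] := List.length_eq_zero_iff.1 h2.symm
  refine ⟨h5, j, ?_⟩
  rw [h5, wdS, Psi_wd] at hj'
  exact (of_injective (φ := phi) hj').symm

/-- bounded stacks -/
def BS (N : ℕ) (β : ℤ) (S : St) (r : Stk) : Prop := S.Bdd N β ∧ ∀ y ∈ r, y.2.Bdd N β

theorem BS.mono {N N' : ℕ} {β β' : ℤ} {S : St} {r : Stk} (h : BS N β S r) (hN : N ≤ N')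
    (hβ : β ≤ β') : BS N' β' S r := ⟨h.1.mono hN hβ, fun y hy => (h.2 y hy).mono hN hβ⟩

section

variable {m : ℕ} {B : ℤ} (hF : Facts m B) {N : ℕ} {β : ℤ} (hB : 4 * β ≤ B)

include hF hB

theorem wdS_Sh (S : St) (r : Stk) (h : BS N β S r) :
    wdS S r ∈ Sh ((r.length + 1) * (7 * ((TT (N + 1) + 1) * m) + 1)) := by
  induction r generalizing S with
  | nil =>
    rw [wdS, List.length_nil]
    exact Sh_mono (by omega) (wd_Sh hF h.1 hB)
  | cons y r ih =>
    obtain ⟨ε, S'⟩ := y
    rw [wdS, List.length_cons]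
    have h1 := ih S' ⟨h.2 (ε, S') List.mem_cons_self, fun y hy =>
      h.2 y (List.mem_cons_of_mem _ hy)⟩
    have h2 := wd_Sh hF h.1 hB
    have h3 : tt ^ (ε : ℤ) ∈ Sh 1 := by
      apply Sh_of_norm
      rcases Int.units_eq_one_or ε with rfl | rfl
      · simp [tt]
      · simp [tt]
    have h4 := Sh_mul (Sh_mul h1 h3) h2
    refine Sh_mono ?_ h4
    have : (r.length + 1 + 1) * (7 * ((TT (N + 1) + 1) * m) + 1) =
      (r.length + 1) * (7 * ((TT (N + 1) + 1) * m) + 1) + (7 * ((TT (N + 1) + 1) * m) + 1) := by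
      ring
    omega

/-- Changing the top of a stack. -/
theorem wdS_mul (S S'' : St) (r : Stk) (h : BS N β S r) {a M : ℕ} {x : F}
    (hx : Eqv a (S.wd * x) S''.wd)
    (hM : a + (r.length + 1) * (7 * ((TT (N + 1) + 1) * m) + 1) ≤ M) :
    Eqv M (wdS S r * x) (wdS S'' r) := by
  cases r with
  | nil =>
    rw [wdS, wdS]
    exact hx.mono (by omega)
  | cons y r =>
    obtain ⟨ε, S'⟩ := y
    rw [wdS, wdS]
    have h1 := wdS_Sh hF hB S' r ⟨h.2 (ε, S') List.mem_cons_self, fun y hy =>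
      h.2 y (List.mem_cons_of_mem _ hy)⟩
    have h3 : tt ^ (ε : ℤ) ∈ Sh 1 := by
      apply Sh_of_norm
      rcases Int.units_eq_one_or ε with rfl | rfl
      · simp [tt]
      · simp [tt]
    refine hx.ctx (P := wdS S' r * tt ^ (ε : ℤ)) (Q := 1) (Sh_mul h1 h3) ?_ (by group) (by group)
    rw [List.length_cons] at hM
    have : (r.length + 1 + 1) * (7 * ((TT (N + 1) + 1) * m) + 1) =
      (r.length + 1) * (7 * ((TT (N + 1) + 1) * m) + 1) + (7 * ((TT (N + 1) + 1) * m) + 1) := by
      ring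
    omega

end

/-- The level used for words of length `n`. -/
def Lev (n m : ℕ) : ℕ := 60 * (n + 3) * ((TT (n + 1) + 1) * m + 1)

theorem lev_le (n m r : ℕ) (hr : r ≤ n + 1) :
    20 * ((TT (n + 1) + 1) * m) + (r + 1) * (7 * ((TT (n + 1) + 1) * m) + 1) ≤ Lev n m := by
  unfold Lev
  set q := (TT (n + 1) + 1) * m
  have h1 : (r + 1) * (7 * q + 1) ≤ (n + 2) * (7 * (q + 1)) :=
    Nat.mul_le_mul (by omega) (by omega)
  nlinarith

/-- The `t`-step when there is no pinch. -/
theorem stepT_push (S : St) (r : Stk) (ε : ℤˣ) : wdS S r * tt ^ (ε : ℤ) = wdS St.emp ((ε, S) :: r) := by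
  rw [wdS, St.emp_wd, mul_one]

/-- The `t`-step with a pinch. -/
theorem stepT_pop {m : ℕ} {B : ℤ} (hF : Facts m B) {N : ℕ} {β : ℤ} (S S' : St) (r : Stk) (ε : ℤˣ)
    (h : BS N β S ((ε, S') :: r)) (hB : 4 * β + TT (N + 1) ≤ B)
    (hS : S.vB ∈ toSubgroup GA GB ε) {M : ℕ}
    (hM : 20 * ((TT (N + 1) + 1) * m) + (r.length + 2) * (7 * ((TT (N + 1) + 1) * m) + 1) ≤ M) :
    ∃ k l : ℤ, |k| ≤ 2 * β ∧ |l| ≤ 2 * β ∧
      Eqv M (wdS S ((ε, S') :: r) * tt ^ ((-ε : ℤˣ) : ℤ)) (wdS (S'.addA k l) r) := by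
  have hT0 : (0 : ℤ) ≤ TT (N + 1) := Int.natCast_nonneg _
  have hB4 : 4 * β ≤ B := by linarith
  have hS' : BS N β S' r := ⟨h.2 (ε, S') List.mem_cons_self, fun y hy =>
      h.2 y (List.mem_cons_of_mem _ hy)⟩
  have hβ0 := h.1.nonneg
  have hP := wdS_Sh hF hB4 S' r hS'
  set q := (TT (N + 1) + 1) * m with hq
  have hmq : m ≤ q := Nat.le_mul_of_pos_left _ (by omega)
  have hin : S.In (B - TT (N + 1)) := h.1.toIn (by linarith)
  have htot : S.tot ≤ TT (N + 1) := h.1.tot_le.trans (TT_mono (by omega))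
  have hTm : TT (N + 1) * m ≤ q := Nat.mul_le_mul_right _ (by omega)
  have hM' : 20 * q + (r.length + 1) * (7 * q + 1) + (7 * q + 1) ≤ M := by
    have : (r.length + 2) * (7 * q + 1) = (r.length + 1) * (7 * q + 1) + (7 * q + 1) := by ring
    omega
  have hadd : ∀ k l : ℤ, |k| ≤ 2 * β → |l| ≤ 2 * β →
      Eqv M (wdS S' r * (a1 ^ k * a2 ^ l)) (wdS (S'.addA k l) r) := by
    intro k l hk hl
    have h1 := step_A hF hS'.1 hB4 k l (hk.trans (by linarith)) (hl.trans (by linarith))
    refine wdS_mul hF hB4 S' _ r hS' h1 ?_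
    rw [← hq]
    unfold lev
    rw [← hq]
    omega
  rcases Int.units_eq_one_or ε with rfl | rfl
  · rw [toSubgroup_one, mem_GA_iff] at hS
    obtain ⟨k, l, j, hj⟩ := hS
    obtain ⟨hk, hl, _⟩ := vB_eq hj
    have hkb : |k| ≤ β := by rw [← hk]; exact h.1.rk
    have hlb : |l| ≤ β := by rw [← hl]; exact h.1.rl
    have h2k : |2 * k| ≤ 2 * β := by
      rw [abs_mul, abs_two]
      linarith
    have h2l : |2 * l| ≤ 2 * β := by
      rw [abs_mul, abs_two]
      linarith
    refine ⟨2 * k, 2 * l, h2k, h2l, ?_⟩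
    have e1 := wd_eqv_of_value hF S htot hin hj
    have e2 := hF.tA k l (hkb.trans (by linarith)) (hlb.trans (by linarith))
    refine Eqv.trans (y := wdS S' r * (tt * (a1 ^ k * a2 ^ l) * tt⁻¹)) ?_
      (Eqv.trans (y := wdS S' r * (a1 ^ (2 * k) * a2 ^ (2 * l))) ?_ (hadd _ _ h2k h2l))
    · refine e1.ctx (P := wdS S' r * tt) (Q := tt⁻¹)
        (Sh_mul hP (Sh_of_norm (m := 1) norm_tt.le)) (by omega) ?_ (by group)
      rw [wdS]
      simp
    · exact e2.ctx (P := wdS S' r) (Q := 1) hP (by omega) (by group) (by group)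
  · rw [toSubgroup_neg_one, mem_GB_iff] at hS
    obtain ⟨k, l, j, hj⟩ := hS
    obtain ⟨hk, hl, _⟩ := vB_eq hj
    have hkb : |2 * k| ≤ β := by rw [← hk]; exact h.1.rk
    have hlb : |2 * l| ≤ β := by rw [← hl]; exact h.1.rl
    rw [abs_mul, abs_two] at hkb hlb
    have hk0 := abs_nonneg k
    have hl0 := abs_nonneg l
    have hk2 : |k| ≤ 2 * β := by linarith
    have hl2 : |l| ≤ 2 * β := by linarith
    refine ⟨k, l, hk2, hl2, ?_⟩
    have e1 := wd_eqv_of_value hF S htot hin hj
    have e2 := hF.tA' k l (by linarith) (by linarith)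
    refine Eqv.trans (y := wdS S' r * (tt⁻¹ * (a1 ^ (2 * k) * a2 ^ (2 * l)) * tt)) ?_
      (Eqv.trans (y := wdS S' r * (a1 ^ k * a2 ^ l)) ?_ (hadd _ _ hk2 hl2))
    · refine e1.ctx (P := wdS S' r * tt⁻¹) (Q := tt)
        (Sh_mul hP (Sh_of_norm (m := 1) (by rw [FreeGroup.norm_inv_eq]; exact norm_tt.le)))
        (by omega) ?_ (by group)
      rw [wdS]
      simp
    · exact e2.ctx (P := wdS S' r) (Q := 1) hP (by omega) (by group) (by group)

/-- bound of the exponents after `j` letters -/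
def bt (j : ℕ) : ℤ := 4 ^ j

theorem bt_succ (j : ℕ) : 3 * bt j ≤ bt (j + 1) ∧ bt j + 1 ≤ bt (j + 1) := by
  have h1 : (1 : ℤ) ≤ bt j := one_le_pow₀ (by norm_num)
  have h2 : bt (j + 1) = 4 * bt j := by
    unfold bt
    ring
  constructor <;> linarith

/-- Every word is equivalent to a reduced bounded stack. -/
theorem exists_stack {m : ℕ} {B : ℤ} (hF : Facts m B) (n : ℕ)
    (hB : 4 * (bt n + 1) + TT (n + 1) ≤ B) :
    ∀ w : List (Fin 8 × Bool), w.length ≤ n →
      ∃ (S : St) (r : Stk), BS w.length (bt w.length) S r ∧ r.IsChain Cons ∧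
        r.length ≤ w.length ∧ Eqv (Lev n m) (FreeGroup.mk w) (wdS S r) := by
  intro w
  induction w using List.reverseRecOn with
  | nil =>
    intro _
    refine ⟨St.emp, [], ⟨St.emp_Bdd (by norm_num [bt]), by simp⟩, List.isChain_nil, le_rfl, ?_⟩
    rw [wdS, St.emp_wd]
    exact Eqv.refl _
  | append_singleton w x ih =>
    obtain ⟨i, ε⟩ := x
    intro hlen
    rw [List.length_append, List.length_singleton] at hlen
    obtain ⟨S, r, h1, h2, h3, h4⟩ := ih (by omega)
    set N := w.length with hN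
    have hbt : bt N ≤ bt n := pow_le_pow_right₀ (by norm_num) (by omega)
    have hTT : TT (N + 1) ≤ TT (n + 1) := TT_mono (by omega)
    have hTT' : (TT (N + 1) : ℤ) ≤ TT (n + 1) := by exact_mod_cast hTT
    have hT0 : (0 : ℤ) ≤ TT (N + 1) := Int.natCast_nonneg _
    have hq : (TT (N + 1) + 1) * m ≤ (TT (n + 1) + 1) * m := Nat.mul_le_mul_right _ (by omega)
    have hlevel : ∀ k : ℕ, k ≤ N + 1 →
        20 * ((TT (N + 1) + 1) * m) + (k + 1) * (7 * ((TT (N + 1) + 1) * m) + 1) ≤ Lev n m := by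
      intro k hk
      refine le_trans ?_ (lev_le n m k (by omega))
      exact Nat.add_le_add (Nat.mul_le_mul_left _ hq) (Nat.mul_le_mul_left _ (by omega))
    obtain ⟨b1, b2⟩ := bt_succ N
    have hmk : FreeGroup.mk (w ++ [(i, ε)]) = FreeGroup.mk w * sg ε (FreeGroup.of i) := by
      rw [← FreeGroup.mul_mk]
      congr 1
      cases ε <;> rfl
    rw [hmk, List.length_append, List.length_singleton]
    have h5 := h4.mul_right (sg ε (FreeGroup.of i))
    by_cases hi : i = 2
    · -- a letter `t`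
      subst hi
      obtain ⟨η, hη⟩ : ∃ η : ℤˣ, sg ε (FreeGroup.of 2 : F) = tt ^ (η : ℤ) := by
        cases ε
        · exact ⟨-1, by simp [sg, tt]⟩
        · exact ⟨1, by simp [sg, tt]⟩
      rw [hη] at h5 ⊢
      by_cases hpinch : ∃ (ε' : ℤˣ) (S' : St) (r' : Stk), r = (ε', S') :: r' ∧
          S.vB ∈ toSubgroup GA GB ε' ∧ ε' ≠ η
      · obtain ⟨ε', S', r', rfl, hv, hne⟩ := hpinch
        have hη' : η = -ε' := by
          rcases Int.units_eq_one_or ε' with rfl | rfl <;>
            rcases Int.units_eq_one_or η with rfl | rfl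
          · exact absurd rfl hne
          · rfl
          · simp
          · exact absurd rfl hne
        rw [List.length_cons] at h3
        obtain ⟨k, l, hk, hl, h6⟩ := stepT_pop hF S S' r' ε' h1 (by linarith) hv
          (M := Lev n m) (by
            have := hlevel (r'.length + 1) (by omega)
            exact this)
        refine ⟨S'.addA k l, r', ⟨?_, fun y hy => ?_⟩, h2.tail, by omega, ?_⟩
        · refine (bdd_addA (h1.2 (ε', S') List.mem_cons_self) k l _ hk hl).mono (by omega) ?_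
          linarith
        · exact (h1.2 y (List.mem_cons_of_mem _ hy)).mono (by omega) (by linarith)
        · rw [hη'] at h5 ⊢
          exact h5.trans h6
      · push Not at hpinch
        refine ⟨St.emp, (η, S) :: r, ⟨St.emp_Bdd (by unfold bt; positivity), fun y hy => ?_⟩, ?_, ?_, ?_⟩
        · rcases List.mem_cons.1 hy with rfl | hy
          · exact h1.1.mono (by omega) (by linarith)
          · exact (h1.2 y hy).mono (by omega) (by linarith)
        · cases r with
          | nil => exact List.isChain_singleton _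
          | cons y r' =>
            obtain ⟨ε', S'⟩ := y
            refine List.isChain_cons_cons.2 ⟨fun hv => hpinch ε' S' r' rfl hv, h2⟩
        · rw [List.length_cons]
          omega
        · rw [← stepT_push]
          exact h5
    · -- another letter
      obtain ⟨S'', hb, h6⟩ := step_letter hF h1.1 (by linarith) i hi ε
      refine ⟨S'', r, ⟨hb.mono le_rfl (by linarith), fun y hy =>
        (h1.2 y hy).mono (by omega) (by linarith)⟩, h2, by omega, ?_⟩
      refine h5.trans (wdS_mul hF (by linarith) S S'' r h1 h6 ?_)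
      exact hlevel r.length (by omega)

/-- Words whose image is in the centre are products of short conjugates of relators. -/
theorem mem_K_of_Psi {m : ℕ} {B : ℤ} (hF : Facts m B) (n : ℕ)
    (hB : 4 * (bt n + 1) + TT (n + 1) ≤ B) (w : List (Fin 8 × Bool)) (hw : w.length ≤ n)
    (h : Psi (FreeGroup.mk w) ∈ Zc) : FreeGroup.mk w ∈ K (Lev n m) := by
  obtain ⟨S, r, h1, h2, _, h4⟩ := exists_stack hF n hB w hw
  have h5 : Psi (wdS S r) ∈ Zc := by
    have h6 : Psi (FreeGroup.mk w * (wdS S r)⁻¹) ∈ Zc :=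
      Psi_normalClosure (K_le_normalClosure _ h4)
    rw [map_mul, map_inv] at h6
    have h7 := mul_mem (inv_mem h6) h
    have h8 : (Psi (FreeGroup.mk w) * (Psi (wdS S r))⁻¹)⁻¹ * Psi (FreeGroup.mk w) =
      Psi (wdS S r) := by group
    rwa [h8] at h7
  obtain ⟨hr, j, hj⟩ := britton h2 h5
  subst hr
  have hbt : bt w.length ≤ bt n := pow_le_pow_right₀ (by norm_num) hw
  have hTT : S.tot ≤ TT (n + 1) := h1.1.tot_le.trans (TT_mono (by omega))
  have e1 := wd_eqv_of_value hF S hTT (h1.1.toIn (by linarith)) hj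
  rw [zpow_zero, zpow_zero, mul_one] at e1
  refine h4.mem_K ?_
  rw [wdS]
  have e2 := e1.mem_K (one_mem _)
  refine K_mono ?_ e2
  unfold Lev
  have f1 : TT (n + 1) * m ≤ (TT (n + 1) + 1) * m + 1 :=
    (Nat.mul_le_mul_right m (Nat.le_succ (TT (n + 1)))).trans (Nat.le_succ _)
  exact f1.trans (Nat.le_mul_of_pos_left _ (by positivity))

end Pool.Agent.MP6f2db1
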