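import Pool.Agent.Lib.MP_6f2db1_al.Blocks

set_option autoImplicit false

/-!
# Collected forms and multiplication by a token
-/

namespace Pool.Agent.MP6f2db1

/-- The central tokens created when a block of `U₂` tokens passes a block of `V₂` tokens. -/
def Xc (A : List (ℤ × Bool)) : List (ℤ × Bool) → List (ℤ × Bool)
  | [] => []
  | b :: L => Xc A L ++ A.map fun x => (x.1 - b.1, x.2 == b.2)

theorem length_Xc (A L : List (ℤ × Bool)) : (Xc A L).length = A.length * L.length := by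
  induction L with
  | nil => simp [Xc]
  | cons b L ih =>
    rw [Xc, List.length_append, ih, List.length_map, List.length_cons]
    ring

theorem Rg.map {b b' : ℤ} {L : List (ℤ × Bool)} (hL : Rg b L) (θ : ℤ → ℤ) (σ : Bool → Bool)
    (h : ∀ k, |k| ≤ b → |θ k| ≤ b') : Rg b' (L.map fun x => (θ x.1, σ x.2)) := by
  intro x hx
  rw [List.mem_map] at hx
  obtain ⟨y, hy, rfl⟩ := hx
  exact h _ (hL y hy)

theorem rg_Xc {b b' : ℤ} {A L : List (ℤ × Bool)} (hA : Rg b A) (hL : Rg b' L) :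
    Rg (b + b') (Xc A L) := by
  induction L with
  | nil => exact Rg.nil
  | cons x L ih =>
    rw [Rg.cons] at hL
    rw [Xc, Rg.append]
    refine ⟨ih hL.2, hA.map (fun k => k - x.1) (fun ε => ε == x.2) fun k hk => ?_⟩
    exact (abs_sub k x.1).trans (add_le_add hk hL.1)

section

variable {m : ℕ} {B : ℤ} (hF : Facts m B)

include hF

theorem W_U2V2 (A L : List (ℤ × Bool)) (hA : Rg B A) (hL : Rg B L)
    (hX : Rg B (Xc A L)) :
    Eqv ((2 * A.length + L.length + 1) * m) (W .U2 A * W .V2 L)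
      (W .V2 L * W .U2 A * W .C (Xc A L)) := by
  induction L with
  | nil => exact Eqv.of_eq (by simp [Xc])
  | cons b L ih =>
    rw [Rg.cons] at hL
    rw [Xc, Rg.append] at hX
    set A' := A.map fun x => (x.1 - b.1, x.2 == b.2) with hA'
    set y := sg b.2 (tok .V2 b.1) with hy
    have hys : y ∈ Sh m := hF.sh .V2 b.1 b.2 hL.1
    have hAs : W .U2 A ∈ Sh (A.length * m) := W_Sh hF .U2 A hA
    have hlen : A'.length = A.length := by rw [hA', List.length_map]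
    have h1 := W_exch hF .U2 .V2 .C b.1 b.2 hL.1 (fun k => k - b.1) (fun ε => ε == b.2)
      (fun k ε hk => hF.xU2V2 k b.1 ε b.2 hk hL.1) rfl A hA (by
        intro x hx
        exact hX.2 (x.1 - b.1, x.2 == b.2) (List.mem_map.2 ⟨x, hx, rfl⟩))
    rw [← hy, ← hA'] at h1
    have h2 := W_comm2 hF .C .V2 rfl A' L hX.2 hL.2
    have h3 := ih hL.2 hX.1
    have e0 : W .V2 (b :: L) = y * W .V2 L := Wd_cons _ _ _
    have e1 : W .C (Xc A (b :: L)) = W .C (Xc A L) * W .C A' := by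
      rw [Xc]
      exact Wd_append _ _ _
    rw [e0, e1, List.length_cons]
    refine Eqv.trans (y := y * W .U2 A * W .C A' * W .V2 L) ?_ (Eqv.trans
      (y := y * W .U2 A * W .V2 L * W .C A') ?_ ?_)
    · exact h1.ctx (P := 1) (Q := W .V2 L) one_mem_Sh (b := 0)
        (by rw [add_zero]; exact Nat.mul_le_mul_right _ (by omega)) (by group) (by group)
    · refine h2.ctx (P := y * W .U2 A) (Q := 1) (Sh_mul hys hAs) ?_ (by group) (by group)
      rw [hlen]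
      have : (2 * A.length + (L.length + 1) + 1) * m =
        (A.length + L.length) * m + (m + A.length * m) + m := by ring
      omega
    · refine h3.ctx (P := y) (Q := W .C A') hys ?_ (by group) (by group)
      have : (2 * A.length + (L.length + 1) + 1) * m =
        (2 * A.length + L.length + 1) * m + m := by ring
      omega

end

/-- A collected form. -/
structure St where
  /-- conjugates of `s` -/
  s : List (ℤ × Bool)
  /-- conjugates of `u₁` -/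
  u1 : List (ℤ × Bool)
  /-- conjugates of `v₂` -/
  v2 : List (ℤ × Bool)
  /-- conjugates of `v₁` -/
  v1 : List (ℤ × Bool)
  /-- conjugates of `u₂` -/
  u2 : List (ℤ × Bool)
  /-- central tokens -/
  c : List (ℤ × Bool)
  /-- exponent of `a₁` -/
  k : ℤ
  /-- exponent of `a₂` -/
  l : ℤ

namespace St

/-- the unipotent part -/
def H (σ : St) : F :=
  W .S σ.s * W .U1 σ.u1 * W .V2 σ.v2 * W .V1 σ.v1 * W .U2 σ.u2 * W .C σ.c

/-- the word -/
def wd (σ : St) : F := σ.H * (a1 ^ σ.k * a2 ^ σ.l)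

/-- total number of tokens -/
def tot (σ : St) : ℕ :=
  σ.s.length + σ.u1.length + σ.v2.length + σ.v1.length + σ.u2.length + σ.c.length

/-- all exponents are at most `b` -/
structure In (b : ℤ) (σ : St) : Prop where
  s : Rg b σ.s
  u1 : Rg b σ.u1
  v2 : Rg b σ.v2
  v1 : Rg b σ.v1
  u2 : Rg b σ.u2
  c : Rg b σ.c

/-- multiplication by a conjugate of `u₂` -/
def addU2 (σ : St) (k : ℤ) (δ : Bool) : St := { σ with u2 := σ.u2 ++ [(k, δ)] }
/-- multiplication by a conjugate of `v₁` -/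
def addV1 (σ : St) (k : ℤ) (δ : Bool) : St := { σ with v1 := σ.v1 ++ [(k, δ)] }
/-- multiplication by a conjugate of `v₂` -/
def addV2 (σ : St) (l : ℤ) (δ : Bool) : St :=
  { σ with v2 := σ.v2 ++ [(l, δ)], c := (σ.u2.map fun x => (x.1 - l, x.2 == δ)) ++ σ.c }
/-- multiplication by a conjugate of `u₁` -/
def addU1 (σ : St) (l : ℤ) (δ : Bool) : St :=
  { σ with u1 := σ.u1 ++ [(l, δ)], c := (σ.v1.map fun x => (l - x.1, x.2 != δ)) ++ σ.c }
/-- multiplication by a conjugate of `s` -/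
def addS (σ : St) (j : ℤ) (δ : Bool) : St :=
  { σ with
    s := σ.s ++ [(j, δ)]
    v1 := (σ.v2.map fun x => (x.1 + j, x.2 == δ)) ++ σ.v1
    u2 := (σ.u1.map fun x => (x.1 - j, x.2 != δ)) ++ σ.u2
    c := Xc (σ.u1.map fun x => (x.1 - j, x.2 != δ)) σ.v2 ++ σ.c }

end St

theorem le_q {n T m : ℕ} (h : n ≤ T + 1) : n * m ≤ (T + 1) * m := Nat.mul_le_mul_right _ h

/-- blocks are short -/
theorem W_q {m : ℕ} {B : ℤ} (hF : Facts m B) {T : ℕ} {κ : Kd} {L : List (ℤ × Bool)}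
    (hL : Rg B L) (hT : L.length ≤ T) : W κ L ∈ Sh ((T + 1) * m) :=
  Sh_mono (le_q (by omega)) (W_Sh hF κ L hL)

theorem tok_q {m : ℕ} {B : ℤ} (hF : Facts m B) {T : ℕ} (κ : Kd) {k : ℤ} (ε : Bool)
    (hk : |k| ≤ B) : sg ε (tok κ k) ∈ Sh ((T + 1) * m) :=
  Sh_mono (Nat.le_mul_of_pos_left _ (by omega)) (hF.sh κ k ε hk)

section

variable {m : ℕ} {B : ℤ} (hF : Facts m B) {T : ℕ} (σ : St) (hσ : σ.In B)

include hF hσ

theorem st_addU2 (hT : σ.tot ≤ T) (k : ℤ) (δ : Bool) (hk : |k| ≤ B) :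
    Eqv (20 * ((T + 1) * m)) (σ.H * sg δ (tok .U2 k)) (σ.addU2 k δ).H := by
  obtain ⟨h1, h2, h3, h4, h5, h6⟩ := hσ
  set q := (T + 1) * m with hq
  unfold St.tot at hT
  have e1 := (W_comm hF .C .U2 rfl σ.c h6 k δ hk).mono (le_q (m := m) (T := T) (by omega))
  have b1 : W .S σ.s ∈ Sh q := W_q hF h1 (by omega)
  have b2 : W .U1 σ.u1 ∈ Sh q := W_q hF h2 (by omega)
  have b3 : W .V2 σ.v2 ∈ Sh q := W_q hF h3 (by omega)
  have b4 : W .V1 σ.v1 ∈ Sh q := W_q hF h4 (by omega)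
  have b5 : W .U2 σ.u2 ∈ Sh q := W_q hF h5 (by omega)
  refine e1.ctx (P := W .S σ.s * W .U1 σ.u1 * W .V2 σ.v2 * W .V1 σ.v1 * W .U2 σ.u2) (Q := 1)
    (Sh_mul (Sh_mul (Sh_mul (Sh_mul b1 b2) b3) b4) b5) (by omega) ?_ ?_
  · rw [St.H]
    group
  · rw [St.H, St.addU2]
    simp only [W, Wd_append, Wd_single]
    group

theorem st_addV1 (hT : σ.tot ≤ T) (k : ℤ) (δ : Bool) (hk : |k| ≤ B) :
    Eqv (20 * ((T + 1) * m)) (σ.H * sg δ (tok .V1 k)) (σ.addV1 k δ).H := by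
  obtain ⟨h1, h2, h3, h4, h5, h6⟩ := hσ
  set q := (T + 1) * m with hq
  unfold St.tot at hT
  set x := sg δ (tok .V1 k) with hx
  have e1 := (W_comm hF .C .V1 rfl σ.c h6 k δ hk).mono (le_q (m := m) (T := T) (by omega))
  have e2 := (W_comm hF .U2 .V1 rfl σ.u2 h5 k δ hk).mono (le_q (m := m) (T := T) (by omega))
  rw [← hx] at e1 e2
  have b1 : W .S σ.s ∈ Sh q := W_q hF h1 (by omega)
  have b2 : W .U1 σ.u1 ∈ Sh q := W_q hF h2 (by omega)
  have b3 : W .V2 σ.v2 ∈ Sh q := W_q hF h3 (by omega)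
  have b4 : W .V1 σ.v1 ∈ Sh q := W_q hF h4 (by omega)
  have b5 : W .U2 σ.u2 ∈ Sh q := W_q hF h5 (by omega)
  have hend : (σ.addV1 k δ).H = W .S σ.s * W .U1 σ.u1 * W .V2 σ.v2 * W .V1 σ.v1 * x *
      W .U2 σ.u2 * W .C σ.c := by
    rw [St.H, St.addV1]
    simp only [W, Wd_append, Wd_single, mul_assoc, hx]
  rw [hend, St.H]
  generalize W .S σ.s = w1 at *
  generalize W .U1 σ.u1 = w2 at *
  generalize W .V2 σ.v2 = w3 at *
  generalize W .V1 σ.v1 = w4 at *
  generalize W .U2 σ.u2 = w5 at *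
  generalize W .C σ.c = w6 at *
  refine Eqv.trans (e1.ctx (P := w1 * w2 * w3 * w4 * w5) (Q := 1) (M := 20 * q)
    (Sh_mul (Sh_mul (Sh_mul (Sh_mul b1 b2) b3) b4) b5) (by omega) (by group) rfl) ?_
  refine e2.ctx (P := w1 * w2 * w3 * w4) (Q := w6)
    (Sh_mul (Sh_mul (Sh_mul b1 b2) b3) b4) (by omega) (by group) (by group)

theorem st_addV2 (hT : (σ.addV2 0 true).tot ≤ T) (l : ℤ) (δ : Bool) (hl : |l| ≤ B)
    (hin : (σ.addV2 l δ).In B) :
    Eqv (20 * ((T + 1) * m)) (σ.H * sg δ (tok .V2 l)) (σ.addV2 l δ).H := by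
  obtain ⟨h1, h2, h3, h4, h5, h6⟩ := hσ
  set q := (T + 1) * m with hq
  simp only [St.tot, St.addV2, List.length_append, List.length_map, List.length_cons,
    List.length_nil] at hT
  set x := sg δ (tok .V2 l) with hx
  set X := σ.u2.map fun x => (x.1 - l, x.2 == δ) with hX
  have hXin : Rg B X := (Rg.append.1 hin.c).1
  have e1 := (W_comm hF .C .V2 rfl σ.c h6 l δ hl).mono (le_q (m := m) (T := T) (by omega))
  have e2 := (W_exch hF .U2 .V2 .C l δ hl (fun k => k - l) (fun ε => ε == δ)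
    (fun k ε hk => hF.xU2V2 k l ε δ hk hl) rfl σ.u2 h5 (fun y hy =>
      hXin (y.1 - l, y.2 == δ) (List.mem_map.2 ⟨y, hy, rfl⟩))).mono
      (le_q (m := m) (T := T) (by omega))
  have e3 := (W_comm hF .V1 .V2 rfl σ.v1 h4 l δ hl).mono (le_q (m := m) (T := T) (by omega))
  rw [← hx] at e1 e2 e3
  rw [← hX] at e2
  have b1 : W .S σ.s ∈ Sh q := W_q hF h1 (by omega)
  have b2 : W .U1 σ.u1 ∈ Sh q := W_q hF h2 (by omega)
  have b3 : W .V2 σ.v2 ∈ Sh q := W_q hF h3 (by omega)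
  have b4 : W .V1 σ.v1 ∈ Sh q := W_q hF h4 (by omega)
  have b5 : W .U2 σ.u2 ∈ Sh q := W_q hF h5 (by omega)
  have hend : (σ.addV2 l δ).H = W .S σ.s * W .U1 σ.u1 * W .V2 σ.v2 * x * W .V1 σ.v1 *
      W .U2 σ.u2 * W .C X * W .C σ.c := by
    rw [St.H, St.addV2]
    simp only [W, Wd_append, Wd_single, mul_assoc, hx, hX]
  rw [hend, St.H]
  generalize W .S σ.s = w1 at *
  generalize W .U1 σ.u1 = w2 at *
  generalize W .V2 σ.v2 = w3 at *
  generalize W .V1 σ.v1 = w4 at *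
  generalize W .U2 σ.u2 = w5 at *
  generalize W .C σ.c = w6 at *
  generalize W .C X = w7 at *
  refine Eqv.trans (e1.ctx (P := w1 * w2 * w3 * w4 * w5) (Q := 1) (M := 20 * q)
    (Sh_mul (Sh_mul (Sh_mul (Sh_mul b1 b2) b3) b4) b5) (by omega) (by group) rfl) ?_
  refine Eqv.trans (e2.ctx (P := w1 * w2 * w3 * w4) (Q := w6) (M := 20 * q)
    (Sh_mul (Sh_mul (Sh_mul b1 b2) b3) b4) (by omega) (by group) rfl) ?_
  refine e3.ctx (P := w1 * w2 * w3) (Q := w5 * w7 * w6) (M := 20 * q)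
    (Sh_mul (Sh_mul b1 b2) b3) (by omega) (by group) (by group)

theorem st_addU1 (hT : (σ.addU1 0 true).tot ≤ T) (l : ℤ) (δ : Bool) (hl : |l| ≤ B)
    (hin : (σ.addU1 l δ).In B) :
    Eqv (20 * ((T + 1) * m)) (σ.H * sg δ (tok .U1 l)) (σ.addU1 l δ).H := by
  obtain ⟨h1, h2, h3, h4, h5, h6⟩ := hσ
  simp only [St.tot, St.addU1, List.length_append, List.length_map, List.length_cons,
    List.length_nil] at hT
  set x := sg δ (tok .U1 l) with hx
  set X := σ.v1.map fun x => (l - x.1, x.2 != δ) with hX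
  have hXin : Rg B X := (Rg.append.1 hin.c).1
  have hXl : X.length = σ.v1.length := by rw [hX, List.length_map]
  have e1 := (W_comm hF .C .U1 rfl σ.c h6 l δ hl).mono (le_q (m := m) (T := T) (by omega))
  have e2 := (W_comm hF .U2 .U1 rfl σ.u2 h5 l δ hl).mono (le_q (m := m) (T := T) (by omega))
  have e3 := (W_exch hF .V1 .U1 .C l δ hl (fun k => l - k) (fun ε => ε != δ)
    (fun k ε hk => hF.xV1U1 k l ε δ hk hl) rfl σ.v1 h4 (fun y hy =>
      hXin (l - y.1, y.2 != δ) (List.mem_map.2 ⟨y, hy, rfl⟩))).mono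
      (le_q (m := m) (T := T) (by omega))
  have e4 := (W_comm hF .V2 .U1 rfl σ.v2 h3 l δ hl).mono (le_q (m := m) (T := T) (by omega))
  have e5 := (W_comm2 hF .C .U2 rfl X σ.u2 hXin h5).mono
    (le_q (m := m) (T := T) (by omega))
  rw [← hx] at e1 e2 e3 e4
  rw [← hX] at e3
  set q := (T + 1) * m with hq
  have b1 : W .S σ.s ∈ Sh q := W_q hF h1 (by omega)
  have b2 : W .U1 σ.u1 ∈ Sh q := W_q hF h2 (by omega)
  have b3 : W .V2 σ.v2 ∈ Sh q := W_q hF h3 (by omega)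
  have b4 : W .V1 σ.v1 ∈ Sh q := W_q hF h4 (by omega)
  have b5 : W .U2 σ.u2 ∈ Sh q := W_q hF h5 (by omega)
  have bx : x ∈ Sh q := tok_q hF .U1 δ hl
  have hend : (σ.addU1 l δ).H = W .S σ.s * W .U1 σ.u1 * x * W .V2 σ.v2 * W .V1 σ.v1 *
      W .U2 σ.u2 * W .C X * W .C σ.c := by
    rw [St.H, St.addU1]
    simp only [W, Wd_append, Wd_single, mul_assoc, hx, hX]
  rw [hend, St.H]
  generalize W .S σ.s = w1 at *
  generalize W .U1 σ.u1 = w2 at *
  generalize W .V2 σ.v2 = w3 at *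
  generalize W .V1 σ.v1 = w4 at *
  generalize W .U2 σ.u2 = w5 at *
  generalize W .C σ.c = w6 at *
  generalize W .C X = w7 at *
  refine Eqv.trans (e1.ctx (P := w1 * w2 * w3 * w4 * w5) (Q := 1) (M := 20 * q)
    (Sh_mul (Sh_mul (Sh_mul (Sh_mul b1 b2) b3) b4) b5) (by omega) (by group) rfl) ?_
  refine Eqv.trans (e2.ctx (P := w1 * w2 * w3 * w4) (Q := w6) (M := 20 * q)
    (Sh_mul (Sh_mul (Sh_mul b1 b2) b3) b4) (by omega) (by group) rfl) ?_
  refine Eqv.trans (e3.ctx (P := w1 * w2 * w3) (Q := w5 * w6) (M := 20 * q)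
    (Sh_mul (Sh_mul b1 b2) b3) (by omega) (by group) rfl) ?_
  refine Eqv.trans (e4.ctx (P := w1 * w2) (Q := w4 * w7 * w5 * w6) (M := 20 * q)
    (Sh_mul b1 b2) (by omega) (by group) rfl) ?_
  refine e5.ctx (P := w1 * w2 * x * w3 * w4) (Q := w6) (M := 20 * q)
    (Sh_mul (Sh_mul (Sh_mul (Sh_mul b1 b2) bx) b3) b4) (by omega) (by group) (by group)

theorem st_addS (hT : (σ.addS 0 true).tot ≤ T) (j : ℤ) (δ : Bool) (hj : |j| ≤ B)
    (hin : (σ.addS j δ).In B) :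
    Eqv (20 * ((T + 1) * m)) (σ.H * sg δ (tok .S j)) (σ.addS j δ).H := by
  obtain ⟨h1, h2, h3, h4, h5, h6⟩ := hσ
  simp only [St.tot, St.addS, List.length_append, List.length_map, List.length_cons,
    List.length_nil, length_Xc] at hT
  set x := sg δ (tok .S j) with hx
  set A1 := σ.u1.map fun x => (x.1 - j, x.2 != δ) with hA1
  set A2 := σ.v2.map fun x => (x.1 + j, x.2 == δ) with hA2
  set X := Xc A1 σ.v2 with hX
  have hXin : Rg B X := (Rg.append.1 hin.c).1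
  have hA1in : Rg B A1 := (Rg.append.1 hin.u2).1
  have hA2in : Rg B (A2 ++ σ.v1) := hin.v1
  have l1 : A1.length = σ.u1.length := by rw [hA1, List.length_map]
  have l2 : A2.length = σ.v2.length := by rw [hA2, List.length_map]
  have l3 : X.length = σ.u1.length * σ.v2.length := by rw [hX, length_Xc, l1]
  have l4 : (A2 ++ σ.v1).length = σ.v2.length + σ.v1.length := by rw [List.length_append, l2]
  have e1 := (W_comm hF .C .S rfl σ.c h6 j δ hj).mono (le_q (m := m) (T := T) (by omega))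
  have e2 := (W_comm hF .U2 .S rfl σ.u2 h5 j δ hj).mono (le_q (m := m) (T := T) (by omega))
  have e3 := (W_comm hF .V1 .S rfl σ.v1 h4 j δ hj).mono (le_q (m := m) (T := T) (by omega))
  have e4 := (W_exch hF .V2 .S .V1 j δ hj (fun k => k + j) (fun ε => ε == δ)
    (fun k ε hk => hF.xV2S k j ε δ hk hj) rfl σ.v2 h3 (fun y hy =>
      (Rg.append.1 hA2in).1 (y.1 + j, y.2 == δ) (List.mem_map.2 ⟨y, hy, rfl⟩))).mono
      (le_q (m := m) (T := T) (by omega))
  have e5 := (W_exch hF .U1 .S .U2 j δ hj (fun k => k - j) (fun ε => ε != δ)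
    (fun k ε hk => hF.xU1S k j ε δ hk hj) rfl σ.u1 h2 (fun y hy =>
      hA1in (y.1 - j, y.2 != δ) (List.mem_map.2 ⟨y, hy, rfl⟩))).mono
      (le_q (m := m) (T := T) (by omega))
  have e6 := (W_U2V2 hF A1 σ.v2 hA1in h3 hXin).mono (m' := 2 * ((T + 1) * m)) (by
    rw [← mul_assoc]
    exact Nat.mul_le_mul_right _ (by omega))
  have e7 := (W_comm2 hF .C .V1 rfl X (A2 ++ σ.v1) hXin hA2in).mono
    (m' := 2 * ((T + 1) * m)) (by
    rw [← mul_assoc]
    exact Nat.mul_le_mul_right _ (by omega))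
  have e8 := (W_comm2 hF .U2 .V1 rfl A1 (A2 ++ σ.v1) hA1in hA2in).mono
    (m' := 2 * ((T + 1) * m)) (by
    rw [← mul_assoc]
    exact Nat.mul_le_mul_right _ (by omega))
  have e9 := (W_comm2 hF .C .U2 rfl X σ.u2 hXin h5).mono
    (m' := 2 * ((T + 1) * m)) (by
    rw [← mul_assoc]
    exact Nat.mul_le_mul_right _ (by omega))
  rw [← hx] at e1 e2 e3 e4 e5
  rw [← hA2] at e4
  rw [← hA1] at e5
  rw [← hX] at e6
  set q := (T + 1) * m with hq
  have b1 : W .S σ.s ∈ Sh q := W_q hF h1 (by omega)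
  have b2 : W .U1 σ.u1 ∈ Sh q := W_q hF h2 (by omega)
  have b3 : W .V2 σ.v2 ∈ Sh q := W_q hF h3 (by omega)
  have b4 : W .V1 σ.v1 ∈ Sh q := W_q hF h4 (by omega)
  have b5 : W .U2 σ.u2 ∈ Sh q := W_q hF h5 (by omega)
  have bx : x ∈ Sh q := tok_q hF .S δ hj
  have b7 : W .U2 A1 ∈ Sh q := W_q hF hA1in (by omega)
  have b8 : W .V1 (A2 ++ σ.v1) ∈ Sh q := W_q hF hA2in (by omega)
  have hend : (σ.addS j δ).H = W .S σ.s * x * W .U1 σ.u1 * W .V2 σ.v2 * W .V1 (A2 ++ σ.v1) *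
      W .U2 A1 * W .U2 σ.u2 * W .C X * W .C σ.c := by
    rw [St.H, St.addS]
    simp only [W, Wd_append, Wd_single, mul_assoc, hx, hX, hA1, hA2]
  have hA2v : W .V1 A2 * W .V1 σ.v1 = W .V1 (A2 ++ σ.v1) := (Wd_append _ _ _).symm
  rw [hend, St.H]
  generalize W .V1 (A2 ++ σ.v1) = w8 at *
  generalize W .S σ.s = w1 at *
  generalize W .U1 σ.u1 = w2 at *
  generalize W .V2 σ.v2 = w3 at *
  generalize W .V1 σ.v1 = w4 at *
  generalize W .U2 σ.u2 = w5 at *
  generalize W .C σ.c = w6 at *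
  generalize W .C X = w7 at *
  generalize W .U2 A1 = w9 at *
  generalize W .V1 A2 = w10 at *
  refine Eqv.trans (e1.ctx (P := w1 * w2 * w3 * w4 * w5) (Q := 1) (M := 20 * q)
    (Sh_mul (Sh_mul (Sh_mul (Sh_mul b1 b2) b3) b4) b5) (by omega) (by group) rfl) ?_
  refine Eqv.trans (e2.ctx (P := w1 * w2 * w3 * w4) (Q := w6) (M := 20 * q)
    (Sh_mul (Sh_mul (Sh_mul b1 b2) b3) b4) (by omega) (by group) rfl) ?_
  refine Eqv.trans (e3.ctx (P := w1 * w2 * w3) (Q := w5 * w6) (M := 20 * q)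
    (Sh_mul (Sh_mul b1 b2) b3) (by omega) (by group) rfl) ?_
  refine Eqv.trans (e4.ctx (P := w1 * w2) (Q := w4 * w5 * w6) (M := 20 * q)
    (Sh_mul b1 b2) (by omega) (by group) rfl) ?_
  refine Eqv.trans (e5.ctx (P := w1) (Q := w3 * (w10 * w4) * w5 * w6) (M := 20 * q)
    b1 (by omega) (by group) rfl) ?_
  rw [hA2v]
  refine Eqv.trans (e6.ctx (P := w1 * x * w2) (Q := w8 * w5 * w6) (M := 20 * q)
    (Sh_mul (Sh_mul b1 bx) b2) (by omega) (by group) rfl) ?_
  refine Eqv.trans (e7.ctx (P := w1 * x * w2 * w3 * w9) (Q := w5 * w6) (M := 20 * q)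
    (Sh_mul (Sh_mul (Sh_mul (Sh_mul b1 bx) b2) b3) b7) (by omega) (by group) rfl) ?_
  refine Eqv.trans (e8.ctx (P := w1 * x * w2 * w3) (Q := w7 * w5 * w6) (M := 20 * q)
    (Sh_mul (Sh_mul (Sh_mul b1 bx) b2) b3) (by omega) (by group) rfl) ?_
  refine e9.ctx (P := w1 * x * w2 * w3 * w8 * w9) (Q := w6) (M := 20 * q)
    (Sh_mul (Sh_mul (Sh_mul (Sh_mul (Sh_mul b1 bx) b2) b3) b8) b7) (by omega) (by group)
    (by group)

end

end Pool.Agent.MP6f2db1
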