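import Pool.Agent.Lib.MP_6f2db1_al.State

set_option autoImplicit false

/-!
# Multiplication of a collected form by a letter
-/

namespace Pool.Agent.MP6f2db1

/-- bound for the number of tokens -/
def TT (N : ℕ) : ℕ := N + N ^ 2 + N ^ 3

theorem TT_mono {N N' : ℕ} (h : N ≤ N') : TT N ≤ TT N' := by
  unfold TT
  have h1 := Nat.pow_le_pow_left h 2
  have h2 := Nat.pow_le_pow_left h 3
  omega

/-- bounded collected forms -/
structure St.Bdd (N : ℕ) (β : ℤ) (σ : St) : Prop where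
  hs : σ.s.length + σ.u1.length + σ.v2.length ≤ N
  hl : σ.v1.length + σ.u2.length ≤ N ^ 2
  hc : σ.c.length ≤ N ^ 3
  rs : Rg (2 * β) σ.s
  ru1 : Rg β σ.u1
  rv2 : Rg β σ.v2
  rv1 : Rg (3 * β) σ.v1
  ru2 : Rg (3 * β) σ.u2
  rc : Rg (4 * β) σ.c
  rk : |σ.k| ≤ β
  rl : |σ.l| ≤ β

theorem St.Bdd.nonneg {N : ℕ} {β : ℤ} {σ : St} (h : σ.Bdd N β) : 0 ≤ β := (abs_nonneg _).trans h.rk

theorem St.Bdd.mono {N N' : ℕ} {β β' : ℤ} {σ : St} (h : σ.Bdd N β) (hN : N ≤ N') (hβ : β ≤ β') :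
    σ.Bdd N' β' where
  hs := h.hs.trans hN
  hl := h.hl.trans (Nat.pow_le_pow_left hN 2)
  hc := h.hc.trans (Nat.pow_le_pow_left hN 3)
  rs := h.rs.mono (by linarith)
  ru1 := h.ru1.mono hβ
  rv2 := h.rv2.mono hβ
  rv1 := h.rv1.mono (by linarith)
  ru2 := h.ru2.mono (by linarith)
  rc := h.rc.mono (by linarith)
  rk := h.rk.trans hβ
  rl := h.rl.trans hβ

theorem St.Bdd.tot_le {N : ℕ} {β : ℤ} {σ : St} (h : σ.Bdd N β) : σ.tot ≤ TT N := by
  have h1 := h.hs
  have h2 := h.hl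
  have h3 := h.hc
  unfold St.tot TT
  omega

theorem St.Bdd.toIn {N : ℕ} {β B : ℤ} {σ : St} (h : σ.Bdd N β) (hB : 4 * β ≤ B) : σ.In B := by
  have h0 := h.nonneg
  exact ⟨h.rs.mono (by linarith), h.ru1.mono (by linarith), h.rv2.mono (by linarith),
    h.rv1.mono (by linarith), h.ru2.mono (by linarith), h.rc.mono hB⟩

/-- the empty collected form -/
def St.emp : St := ⟨[], [], [], [], [], [], 0, 0⟩

theorem St.emp_wd : St.emp.wd = 1 := by
  simp [St.wd, St.H, St.emp]

theorem St.emp_Bdd {N : ℕ} {β : ℤ} (hβ : 0 ≤ β) : St.emp.Bdd N β := by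
  constructor <;> simp [St.emp, Rg, hβ]

/-- adding a power of `a₁` and of `a₂` -/
def St.addA (σ : St) (k l : ℤ) : St := { σ with k := σ.k + k, l := σ.l + l }

theorem Rg.single {b : ℤ} {x : ℤ × Bool} : Rg b [x] ↔ |x.1| ≤ b := by simp [Rg]

section

variable {N : ℕ} {β : ℤ} {σ : St} (h : σ.Bdd N β)

include h

theorem bdd_addA (k l β' : ℤ) (hk : |k| ≤ β') (hl : |l| ≤ β') : (σ.addA k l).Bdd N (β + β') := by
  have h0 : 0 ≤ β' := (abs_nonneg _).trans hk
  have h1 := h.mono (N' := N) (β' := β + β') le_rfl (by linarith)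
  exact ⟨h1.hs, h1.hl, h1.hc, h1.rs, h1.ru1, h1.rv2, h1.rv1, h1.ru2, h1.rc,
    (abs_add_le _ _).trans (add_le_add h.rk hk), (abs_add_le _ _).trans (add_le_add h.rl hl)⟩

theorem bdd_addU2 (k : ℤ) (δ : Bool) (hk : |k| ≤ β) : (σ.addU2 k δ).Bdd (N + 1) β := by
  have h0 := h.nonneg
  have h1 := h.mono (N' := N + 1) (β' := β) (by omega) le_rfl
  refine ⟨h1.hs, ?_, h1.hc, h1.rs, h1.ru1, h1.rv2, h1.rv1, ?_, h1.rc, h1.rk, h1.rl⟩
  · have := h.hl
    simp only [St.addU2, List.length_append, List.length_cons, List.length_nil]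
    have h4 : (N + 1) ^ 2 = N ^ 2 + 2 * N + 1 := by ring
    omega
  · simp only [St.addU2]
    rw [Rg.append, Rg.single]
    exact ⟨h.ru2, by linarith⟩

theorem bdd_addV1 (k : ℤ) (δ : Bool) (hk : |k| ≤ β) : (σ.addV1 k δ).Bdd (N + 1) β := by
  have h0 := h.nonneg
  have h1 := h.mono (N' := N + 1) (β' := β) (by omega) le_rfl
  refine ⟨h1.hs, ?_, h1.hc, h1.rs, h1.ru1, h1.rv2, ?_, h1.ru2, h1.rc, h1.rk, h1.rl⟩
  · have := h.hl
    simp only [St.addV1, List.length_append, List.length_cons, List.length_nil]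
    have h4 : (N + 1) ^ 2 = N ^ 2 + 2 * N + 1 := by ring
    omega
  · simp only [St.addV1]
    rw [Rg.append, Rg.single]
    exact ⟨h.rv1, by linarith⟩

theorem bdd_addV2 (l : ℤ) (δ : Bool) (hl : |l| ≤ β) : (σ.addV2 l δ).Bdd (N + 1) β := by
  have h0 := h.nonneg
  have h1 := h.mono (N' := N + 1) (β' := β) (by omega) le_rfl
  refine ⟨?_, h1.hl, ?_, h1.rs, h1.ru1, ?_, h1.rv1, h1.ru2, ?_, h1.rk, h1.rl⟩
  · have := h.hs
    simp only [St.addV2, List.length_append, List.length_cons, List.length_nil]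
    omega
  · have h2 := h.hc
    have h3 := h.hl
    simp only [St.addV2, List.length_append, List.length_map]
    have h4 : (N + 1) ^ 3 = N ^ 3 + 3 * N ^ 2 + 3 * N + 1 := by ring
    omega
  · simp only [St.addV2]
    rw [Rg.append, Rg.single]
    exact ⟨h.rv2, hl⟩
  · simp only [St.addV2]
    rw [Rg.append]
    refine ⟨h.ru2.map (fun k => k - l) (fun ε => ε == δ) fun k hk => ?_, h.rc⟩
    have := abs_sub k l
    linarith

theorem bdd_addU1 (l : ℤ) (δ : Bool) (hl : |l| ≤ β) : (σ.addU1 l δ).Bdd (N + 1) β := by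
  have h0 := h.nonneg
  have h1 := h.mono (N' := N + 1) (β' := β) (by omega) le_rfl
  refine ⟨?_, h1.hl, ?_, h1.rs, ?_, h1.rv2, h1.rv1, h1.ru2, ?_, h1.rk, h1.rl⟩
  · have := h.hs
    simp only [St.addU1, List.length_append, List.length_cons, List.length_nil]
    omega
  · have h2 := h.hc
    have h3 := h.hl
    simp only [St.addU1, List.length_append, List.length_map]
    have h4 : (N + 1) ^ 3 = N ^ 3 + 3 * N ^ 2 + 3 * N + 1 := by ring
    omega
  · simp only [St.addU1]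
    rw [Rg.append, Rg.single]
    exact ⟨h.ru1, hl⟩
  · simp only [St.addU1]
    rw [Rg.append]
    refine ⟨h.rv1.map (fun k => l - k) (fun ε => ε != δ) fun k hk => ?_, h.rc⟩
    have := abs_sub l k
    linarith

theorem bdd_addS (j : ℤ) (δ : Bool) (hj : |j| ≤ 2 * β) : (σ.addS j δ).Bdd (N + 1) β := by
  have h0 := h.nonneg
  have h1 := h.mono (N' := N + 1) (β' := β) (by omega) le_rfl
  have hsl := h.hs
  have hll := h.hl
  have hcl := h.hc
  have hA : Rg (3 * β) (σ.u1.map fun x => (x.1 - j, x.2 != δ)) :=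
    h.ru1.map (fun k => k - j) (fun ε => ε != δ) fun k hk => by
      have := abs_sub k j
      linarith
  refine ⟨?_, ?_, ?_, ?_, h1.ru1, h1.rv2, ?_, ?_, ?_, h1.rk, h1.rl⟩
  · simp only [St.addS, List.length_append, List.length_cons, List.length_nil]
    omega
  · simp only [St.addS, List.length_append, List.length_map]
    have h4 : (N + 1) ^ 2 = N ^ 2 + 2 * N + 1 := by ring
    omega
  · simp only [St.addS, List.length_append, List.length_map, length_Xc]
    have h4 : (N + 1) ^ 3 = N ^ 3 + 3 * N ^ 2 + 3 * N + 1 := by ring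
    have h5 : σ.u1.length * σ.v2.length ≤ N * N := Nat.mul_le_mul (by omega) (by omega)
    have h6 : N ^ 2 = N * N := by ring
    omega
  · simp only [St.addS]
    rw [Rg.append, Rg.single]
    exact ⟨h.rs, hj⟩
  · simp only [St.addS]
    rw [Rg.append]
    refine ⟨h.rv2.map (fun k => k + j) (fun ε => ε == δ) fun k hk => ?_, h.rv1⟩
    have := abs_add_le k j
    linarith
  · simp only [St.addS]
    rw [Rg.append]
    exact ⟨hA, h.ru2⟩
  · simp only [St.addS]
    rw [Rg.append]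
    exact ⟨(rg_Xc hA h.rv2).mono (by linarith), h.rc⟩

end

/-- the level of a step -/
def lev (N m : ℕ) : ℕ := 20 * ((TT (N + 1) + 1) * m)

section

variable {m : ℕ} {B : ℤ} (hF : Facts m B) {N : ℕ} {β : ℤ} {σ : St} (h : σ.Bdd N β)
  (hB : 4 * β ≤ B)

include hF h hB

theorem H_Sh : σ.H ∈ Sh (6 * ((TT (N + 1) + 1) * m)) := by
  have hin := h.toIn hB
  have ht := h.tot_le
  have ht' : TT N ≤ TT (N + 1) := TT_mono (by omega)
  unfold St.tot at ht
  set q := (TT (N + 1) + 1) * m with hq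
  have b1 : W .S σ.s ∈ Sh q := W_q hF hin.s (by omega)
  have b2 : W .U1 σ.u1 ∈ Sh q := W_q hF hin.u1 (by omega)
  have b3 : W .V2 σ.v2 ∈ Sh q := W_q hF hin.v2 (by omega)
  have b4 : W .V1 σ.v1 ∈ Sh q := W_q hF hin.v1 (by omega)
  have b5 : W .U2 σ.u2 ∈ Sh q := W_q hF hin.u2 (by omega)
  have b6 : W .C σ.c ∈ Sh q := W_q hF hin.c (by omega)
  exact Sh_mono (by omega) (Sh_mul (Sh_mul (Sh_mul (Sh_mul (Sh_mul b1 b2) b3) b4) b5) b6)

theorem wd_Sh : σ.wd ∈ Sh (7 * ((TT (N + 1) + 1) * m)) := by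
  have h1 := H_Sh hF h hB
  have h0 := h.nonneg
  have h2 := hF.shA σ.k σ.l (h.rk.trans (by linarith)) (h.rl.trans (by linarith))
  have h3 : m ≤ (TT (N + 1) + 1) * m := Nat.le_mul_of_pos_left _ (by omega)
  exact Sh_mono (by omega) (Sh_mul h1 h2)

/-- adding powers -/
theorem step_A (k l : ℤ) (hk : |k| ≤ B) (hl : |l| ≤ B) :
    Eqv (lev N m) (σ.wd * (a1 ^ k * a2 ^ l)) (σ.addA k l).wd := by
  have h1 := H_Sh hF h hB
  have h0 := h.nonneg
  have h2 := hF.mulA σ.k σ.l k l (h.rk.trans (by linarith)) (h.rl.trans (by linarith)) hk hl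
  have h3 : m ≤ (TT (N + 1) + 1) * m := Nat.le_mul_of_pos_left _ (by omega)
  refine h2.ctx (P := σ.H) (Q := 1) h1 (by unfold lev; omega) ?_ ?_
  · rw [St.wd]
    group
  · rw [St.wd, mul_one]
    rfl

/-- A letter becomes a token and is inserted. -/
theorem step_of {x T : F} {σ' : St} (h1 : Eqv m (a1 ^ σ.k * a2 ^ σ.l * x) (T * (a1 ^ σ.k * a2 ^ σ.l)))
    (h2 : Eqv (lev N m) (σ.H * T) σ'.H) (hk : σ'.k = σ.k) (hl : σ'.l = σ.l) :
    Eqv (lev N m) (σ.wd * x) σ'.wd := by
  have h3 := H_Sh hF h hB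
  have h4 : m ≤ (TT (N + 1) + 1) * m := Nat.le_mul_of_pos_left _ (by omega)
  refine Eqv.trans (y := σ.H * T * (a1 ^ σ.k * a2 ^ σ.l)) ?_ ?_
  · refine h1.ctx (P := σ.H) (Q := 1) h3 (by unfold lev; omega) ?_ ?_
    · rw [St.wd]
      group
    · group
  · rw [St.wd, hk, hl]
    exact h2.mul_right _

end

/-- The letters other than `t`. -/
theorem step_letter {m : ℕ} {B : ℤ} (hF : Facts m B) {N : ℕ} {β : ℤ} {σ : St} (h : σ.Bdd N β)
    (hB : 4 * (β + 1) ≤ B) (i : Fin 8) (hi : i ≠ 2) (ε : Bool) :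
    ∃ σ' : St, σ'.Bdd (N + 1) (β + 1) ∧
      Eqv (lev N m) (σ.wd * sg ε (FreeGroup.of i)) σ'.wd := by
  have h0 := h.nonneg
  have hB' : 4 * β ≤ B := by linarith
  have hk : |σ.k| ≤ B := h.rk.trans (by linarith)
  have hl : |σ.l| ≤ B := h.rl.trans (by linarith)
  have hnk : |-σ.k| ≤ β := by rw [abs_neg]; exact h.rk
  have hnl : |-σ.l| ≤ β := by rw [abs_neg]; exact h.rl
  have hlk : |σ.l - σ.k| ≤ 2 * β := (abs_sub _ _).trans (by linarith [h.rk, h.rl])
  have hm : N + 1 ≤ N + 1 := le_rfl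
  have hin := h.toIn hB'
  have tle : ∀ σ' : St, σ'.Bdd (N + 1) β → σ'.tot ≤ TT (N + 1) := fun σ' h' => h'.tot_le
  fin_cases i
  · -- a₁
    cases ε
    · refine ⟨σ.addA (-1) 0, (bdd_addA h (-1) 0 1 (by simp) (by simp)).mono (by omega) le_rfl, ?_⟩
      have := step_A hF h hB' (-1) 0 (by simp; linarith) (by simp; linarith)
      rw [zpow_neg_one, zpow_zero, mul_one] at this
      exact this
    · refine ⟨σ.addA 1 0, (bdd_addA h 1 0 1 (by simp) (by simp)).mono (by omega) le_rfl, ?_⟩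
      have := step_A hF h hB' 1 0 (by simp; linarith) (by simp; linarith)
      rw [zpow_one, zpow_zero, mul_one] at this
      exact this
  · -- a₂
    cases ε
    · refine ⟨σ.addA 0 (-1), (bdd_addA h 0 (-1) 1 (by simp) (by simp)).mono (by omega) le_rfl, ?_⟩
      have := step_A hF h hB' 0 (-1) (by simp; linarith) (by simp; linarith)
      rw [zpow_neg_one, zpow_zero, one_mul] at this
      exact this
    · refine ⟨σ.addA 0 1, (bdd_addA h 0 1 1 (by simp) (by simp)).mono (by omega) le_rfl, ?_⟩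
      have := step_A hF h hB' 0 1 (by simp; linarith) (by simp; linarith)
      rw [zpow_one, zpow_zero, one_mul] at this
      exact this
  · exact absurd rfl hi
  · -- u₁
    have hb := bdd_addU1 h (-σ.k) ε hnk
    refine ⟨σ.addU1 (-σ.k) ε, hb.mono le_rfl (by linarith), ?_⟩
    refine step_of hF h hB' (hF.mv1 σ.k σ.l ε hk hl) ?_ rfl rfl
    have ht := tle _ hb
    simp only [St.tot, St.addU1, List.length_append, List.length_map, List.length_cons] at ht
    exact st_addU1 hF σ hin (by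
      simp only [St.tot, St.addU1, List.length_append, List.length_map, List.length_cons]
      exact ht) _ ε (hnk.trans (by linarith)) (hb.toIn hB')
  · -- u₂
    have hb := bdd_addU2 h (-σ.l) ε hnl
    refine ⟨σ.addU2 (-σ.l) ε, hb.mono le_rfl (by linarith), ?_⟩
    refine step_of hF h hB' (hF.mv2 σ.k σ.l ε hk hl) ?_ rfl rfl
    exact st_addU2 hF σ hin (h.tot_le.trans (TT_mono (by omega))) _ ε (hnl.trans (by linarith))
  · -- v₁
    have hb := bdd_addV1 h (-σ.k) ε hnk
    refine ⟨σ.addV1 (-σ.k) ε, hb.mono le_rfl (by linarith), ?_⟩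
    refine step_of hF h hB' (hF.mv3 σ.k σ.l ε hk hl) ?_ rfl rfl
    exact st_addV1 hF σ hin (h.tot_le.trans (TT_mono (by omega))) _ ε (hnk.trans (by linarith))
  · -- v₂
    have hb := bdd_addV2 h (-σ.l) ε hnl
    refine ⟨σ.addV2 (-σ.l) ε, hb.mono le_rfl (by linarith), ?_⟩
    refine step_of hF h hB' (hF.mv4 σ.k σ.l ε hk hl) ?_ rfl rfl
    have ht := tle _ hb
    simp only [St.tot, St.addV2, List.length_append, List.length_map, List.length_cons] at ht
    exact st_addV2 hF σ hin (by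
      simp only [St.tot, St.addV2, List.length_append, List.length_map, List.length_cons]
      exact ht) _ ε (hnl.trans (by linarith)) (hb.toIn hB')
  · -- s
    have hb := bdd_addS h (σ.l - σ.k) ε hlk
    refine ⟨σ.addS (σ.l - σ.k) ε, hb.mono le_rfl (by linarith), ?_⟩
    refine step_of hF h hB' (hF.mv5 σ.k σ.l ε hk hl) ?_ rfl rfl
    have ht := tle _ hb
    simp only [St.tot, St.addS, List.length_append, List.length_map, List.length_cons,
      length_Xc] at ht
    exact st_addS hF σ hin (by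
      simp only [St.tot, St.addS, List.length_append, List.length_map, List.length_cons,
        length_Xc]
      exact ht) _ ε (hlk.trans (by linarith)) (hb.toIn hB')

end Pool.Agent.MP6f2db1
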