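import Pool.Agent.Lib.MP_6f2db1_al.Model2

set_option autoImplicit false

/-!
# Values of collected forms
-/

namespace Pool.Agent.MP6f2db1

open E

/-- the value of a collected form in the base group -/
def St.vB (σ : St) : Bh :=
  Wd (tv .S) σ.s * Wd (tv .U1) σ.u1 * Wd (tv .V2) σ.v2 * Wd (tv .V1) σ.v1 * Wd (tv .U2) σ.u2 *
    Wd (tv .C) σ.c * ioo σ.k σ.l 0

theorem Psi_W (κ : Kd) (L : List (ℤ × Bool)) : Psi (W κ L) = ofB (Wd (tv κ) L) := by
  rw [W, map_Wd, ofB, map_Wd]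
  congr 1
  funext k
  exact Psi_tok κ k

theorem Psi_A (k l : ℤ) : Psi (a1 ^ k * a2 ^ l) = ofB (ioo k l 0) := by
  rw [map_mul, map_zpow, map_zpow, Psi_a1, Psi_a2]
  simp only [ofB]
  rw [← map_zpow, ← map_zpow, ← map_mul, bA1_zpow, bA2_zpow, ← ioo_add, add_zero, zero_add,
    add_zero]

theorem Psi_wd (σ : St) : Psi σ.wd = ofB σ.vB := by
  have h1 : Psi σ.wd = Psi σ.H * Psi (a1 ^ σ.k * a2 ^ σ.l) := map_mul _ _ _
  rw [h1, Psi_A, St.H, St.vB]
  simp only [map_mul, Psi_W, ofB]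

theorem Wd_one {G : Type*} [Group G] (L : List (ℤ × Bool)) : Wd (fun _ => (1 : G)) L = 1 := by
  induction L with
  | nil => rfl
  | cons x L ih =>
    rw [Wd_cons, ih, mul_one]
    cases x.2 <;> simp [sg]

theorem Wd_xx (L : List (ℤ × Bool)) : Wd xx L = SemidirectProduct.inl (FreeGroup.mk L) := by
  have h : FreeGroup.mk L = Wd (fun k => FreeGroup.of k) L := by
    rw [Wd_eq_lift]
    have : FreeGroup.lift (fun k : ℤ => FreeGroup.of k) = MonoidHom.id (FreeGroup ℤ) := by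
      ext k
      simp
    rw [this]
    rfl
  rw [h, map_Wd]
  rfl

/-- sums of signed values -/
def sm (f : ℤ → ℚ) (L : List (ℤ × Bool)) : ℚ := (L.map fun x => cond x.2 (f x.1) (-f x.1)).sum

theorem Wd_add {G : Type*} [Group G] (e : ℚ → G) (h0 : e 0 = 1)
    (ha : ∀ x y, e (x + y) = e x * e y) (f : ℤ → ℚ) (L : List (ℤ × Bool)) :
    Wd (fun k => e (f k)) L = e (sm f L) := by
  have hneg : ∀ x, e (-x) = (e x)⁻¹ := fun x => by
    have := ha (-x) x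
    rw [neg_add_cancel, h0] at this
    exact eq_inv_of_mul_eq_one_left this.symm
  induction L with
  | nil => simp [sm, h0]
  | cons x L ih =>
    rw [Wd_cons, ih]
    have : sm f (x :: L) = cond x.2 (f x.1) (-f x.1) + sm f L := by simp [sm]
    rw [this, ha]
    congr 1
    cases x.2
    · exact (hneg _).symm
    · rfl

theorem fg_eq {L : List (ℤ × Bool)} {n m : ℤ} (h : Wd xx L * zz n = zz m) :
    FreeGroup.mk L = 1 ∧ n = m := by
  rw [Wd_xx, zz, zz] at h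
  have h1 := congrArg SemidirectProduct.left h
  have h2 := congrArg SemidirectProduct.right h
  simp only [SemidirectProduct.mul_left, SemidirectProduct.left_inl, SemidirectProduct.right_inl,
    SemidirectProduct.left_inr, map_one, mul_one] at h1
  simp only [SemidirectProduct.mul_right, SemidirectProduct.right_inl,
    SemidirectProduct.right_inr, one_mul] at h2
  exact ⟨h1, Multiplicative.ofAdd.injective h2⟩

theorem vB_eq {σ : St} {k l j : ℤ} (h : σ.vB = ioo k l j) :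
    σ.k = k ∧ σ.l = l ∧ FreeGroup.mk σ.s = 1 ∧ FreeGroup.mk σ.u1 = 1 ∧ FreeGroup.mk σ.v2 = 1 ∧
      sm (fun x => 2 ^ (-x)) σ.v1 = 0 ∧ sm (fun x => 2 ^ x) σ.u2 = 0 ∧
      sm (fun x => 2 ^ x) σ.c = j := by
  have c1 : ∀ (κ : Kd) (L : List (ℤ × Bool)), (Wd (tv κ) L).1 = Wd (fun x => (tv κ x).1) L :=
    fun κ L => map_Wd _ (MonoidHom.fst E (FG × FG × FG)) L
  have c2 : ∀ (κ : Kd) (L : List (ℤ × Bool)), (Wd (tv κ) L).2.1 = Wd (fun x => (tv κ x).2.1) L :=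
    fun κ L => map_Wd _ ((MonoidHom.fst FG (FG × FG)).comp (MonoidHom.snd E (FG × FG × FG))) L
  have c3 : ∀ (κ : Kd) (L : List (ℤ × Bool)),
      (Wd (tv κ) L).2.2.1 = Wd (fun x => (tv κ x).2.2.1) L :=
    fun κ L => map_Wd _ ((MonoidHom.fst FG FG).comp ((MonoidHom.snd FG (FG × FG)).comp
      (MonoidHom.snd E (FG × FG × FG)))) L
  have c4 : ∀ (κ : Kd) (L : List (ℤ × Bool)),
      (Wd (tv κ) L).2.2.2 = Wd (fun x => (tv κ x).2.2.2) L :=
    fun κ L => map_Wd _ ((MonoidHom.snd FG FG).comp ((MonoidHom.snd FG (FG × FG)).comp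
      (MonoidHom.snd E (FG × FG × FG)))) L
  have h1 : σ.vB.1 = (ioo k l j).1 := by rw [h]
  have h2 : σ.vB.2.1 = (ioo k l j).2.1 := by rw [h]
  have h3 : σ.vB.2.2.1 = (ioo k l j).2.2.1 := by rw [h]
  have h4 : σ.vB.2.2.2 = (ioo k l j).2.2.2 := by rw [h]
  simp only [St.vB, Prod.fst_mul, Prod.snd_mul, c1, c2, c3, c4, tv, Wd_one, one_mul, mul_one,
    ioo_eq] at h1 h2 h3 h4
  obtain ⟨g1, g2⟩ := fg_eq h2
  obtain ⟨g3, g4⟩ := fg_eq h3
  obtain ⟨g5, _⟩ := fg_eq h4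
  have w1 : Wd (fun x : ℤ => e23 (-2 ^ (-x))) σ.s = 1 := by rw [Wd_eq_lift, g5, map_one]
  have w2 : Wd (fun x : ℤ => e12 (2 ^ x)) σ.u1 = 1 := by rw [Wd_eq_lift, g1, map_one]
  have w3 : Wd (fun x : ℤ => e34 (2 ^ (-x))) σ.v2 = 1 := by rw [Wd_eq_lift, g3, map_one]
  have w4 : Wd (fun x : ℤ => e24 (2 ^ (-x))) σ.v1 = e24 (sm (fun x => 2 ^ (-x)) σ.v1) :=
    Wd_add e24 rfl (fun x y => by ext <;> simp [e24]; ring) _ _
  have w5 : Wd (fun x : ℤ => e13 (2 ^ x)) σ.u2 = e13 (sm (fun x => 2 ^ x) σ.u2) :=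
    Wd_add e13 rfl (fun x y => by ext <;> simp [e13]; ring) _ _
  have w6 : Wd (fun x : ℤ => e14 (2 ^ x)) σ.c = e14 (sm (fun x => 2 ^ x) σ.c) :=
    Wd_add e14 rfl (fun x y => by ext <;> simp [e14]; ring) _ _
  rw [w1, w2, w3, w4, w5, w6, one_mul, one_mul, one_mul] at h1
  have k1 := congrArg E.x13 h1
  have k2 := congrArg E.x24 h1
  have k3 := congrArg E.x14 h1
  simp only [e24, e13, e14, dg, mul_13, mul_14, mul_24, mul_12, mul_p, mul_23,
    mul_zero, add_zero, zero_add, zpow_zero, mul_one, Int.cast_zero] at k1 k2 k3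
  have k1' : sm (fun x => 2 ^ x) σ.u2 = 0 := by
    rcases mul_eq_zero.1 k1 with h | h
    · exact h
    · exact absurd h (zpow_ne_zero _ (by norm_num))
  exact ⟨g2, g4, g5, g1, g3, k2, k1', k3⟩

/-- A collected form with value in `⟨a₁, a₂, z⟩` is equal to its torus part modulo short
relators. -/
theorem wd_eqv_of_value {m : ℕ} {B : ℤ} (hF : Facts m B) {T : ℕ} (σ : St) (hT : σ.tot ≤ T)
    (hin : σ.In (B - T)) {k l j : ℤ} (h : σ.vB = ioo k l j) :
    Eqv (T * m) σ.wd (a1 ^ k * a2 ^ l) := by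
  obtain ⟨h1, h2, h3, h4, h5, h6, h7, h8⟩ := vB_eq h
  have h9 := H_mem_K hF σ hT hin h3 h4 h5 h6 h7 ⟨j, h8⟩
  have h10 : σ.wd * (a1 ^ k * a2 ^ l)⁻¹ = σ.H := by
    rw [St.wd, h1, h2]
    group
  rw [Eqv, h10]
  exact h9

end Pool.Agent.MP6f2db1
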